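import Mathlib

set_option autoImplicit false

namespace Pool.Agent.HI

/-- The smallest class of groups which contains the trivial groups, all groups acting without
inversions on a tree such that the stabilisers of all vertices belong to the class, and all
directed unions of subgroups in the class. -/
inductive Hier : (G : Type) → [Group G] → Prop
  | triv (G : Type) [Group G] [Subsingleton G] : Hier G
  | tree (G V : Type) [Group G] [MulAction G V] (T : SimpleGraph V) (hT : T.IsTree)
      (hadj : ∀ (g : G) (u v : V), T.Adj u v → T.Adj (g • u) (g • v))
      (hinv : ∀ (g : G) (u v : V), T.Adj u v → ¬ (g • u = v ∧ g • v = u))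
      (h : ∀ v : V, Hier (MulAction.stabilizer G v)) : Hier G
  | union (G : Type) [Group G] (H : Finset G → Subgroup G) (hH : ∀ F, ∀ g ∈ F, g ∈ H F)
      (h : ∀ F : Finset G, Hier (H F)) : Hier G

end Pool.Agent.HI
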