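import Pool.Agent.HI.H22
import Pool.Agent.HI.HierDef

set_option autoImplicit false
set_option linter.unusedSectionVars false

noncomputable section

open scoped InnerProductSpace ENNReal Topology
open Classical Filter ContinuousLinearMap

namespace Pool.Agent.HI

open Pool.Agent.VN Pool.Agent.LFT

theorem pb_of_hier (k : Subring ℂ) (G : Type) [inst : Group G] (h : Hier G) : PB k G := by
  induction h with
  | triv G => exact pb_triv k G
  | tree G V T hT hadj hinv _ ih => exact pb_tree k T hT hadj hinv ih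
  | union G H hH _ ih => exact pb_union k G H hH ih

theorem atiyah_of_int0 {k : Subring ℂ} {G : Type} [Group G] (h : Int0 k G Unit) :
    AtiyahOver k G := by
  intro m n A hA
  have h1 : Rat k (fun _ : Fin m => ()) (kr (mulR (colF A))) :=
    Rat.kr (lab' := fun _ : Fin n => ()) ⟨colF A, fun j p => colF_coef hA _ ⟨j, rfl⟩ p,
      fun _ _ _ => rfl, rfl⟩
  obtain ⟨z, hz⟩ := h _ inferInstance _ _ h1
  refine ⟨z, ?_⟩
  rw [kerDim_eq, ← hz]
  unfold dm
  rw [← ker_mulR]

theorem atiyah_of_hier (k : Subring ℂ) (G : Type) [Group G] (h : Hier G) : AtiyahOver k G := by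
  have h1 : Coc (fun (g : G) (_ : Unit) => g) := ⟨fun _ _ _ => rfl, fun _ _ _ h => h⟩
  have h2 := (pb_of_hier k G h G Unit _ h1 G (MonoidHom.id G) LIKer.id).1 Unit
  exact atiyah_of_int0 (Int0.of_map (M' := Via (MonoidHom.id G) Unit × Unit)
    (fun _ => ((toVia _ (), ()))) (fun _ _ => rfl) h2)

end Pool.Agent.HI
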