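import Pool.Agent.HI.A3
import Pool.Agent.HI.Final

set_option autoImplicit false
set_option linter.unusedSectionVars false

noncomputable section

open scoped InnerProductSpace ENNReal Topology
open Classical Filter ContinuousLinearMap

/-!
Approximation for groups acting on trees.
-/

namespace Pool.Agent.HI

open Pool.Agent.VN Pool.Agent.LFT Pool.Agent.HX

/-- the formula for a forest if the set of vertices is good -/
theorem af_step {k : Subring ℂ} {G D A B : Type} [Group G] [MulAction G D]
    [MulAction G A] [MulAction G B] {a : D → A} {b : D → B}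
    (ha : Eqv G a) (hb : Eqv G b) (hhalf : Half a b)
    (hstab : ∀ (g : G) δ, g • b δ = b δ → g • δ = δ)
    (hG : Good k G A) (Γ : Type) [Group Γ] (π : Γ →* G) (hπ : LIKer π) (U : Type)
    [MulAction Γ U] :
      AF k Γ (Prod.map a id : Via π D × U → Via π A × U)
        (Prod.map b id : Via π D × U → Via π B × U) := by
  refine af_of_keys (fun g m => Prod.ext (ha (π g) m.1) rfl)
    (fun g m => Prod.ext (hb (π g) m.1) rfl) (Half.prod hhalf U) ?_ ?_
  · intro ι _ d P hP hl u Y hY ε hε
    have hInt : Int0 k (Sd (Lett (Via π D)) Γ) (Via (rh (Lett (Via π D)) Γ) (Via π A × U)) := by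
      have h1 := (hG (Sd (Lett (Via π D)) Γ) (π.comp (rh (Lett (Via π D)) Γ)) hπ.ext).1
        (Via (rh (Lett (Via π D)) Γ) U)
      exact Int0.of_map (M' := Via (π.comp (rh (Lett (Via π D)) Γ)) A ×
        Via (rh (Lett (Via π D)) Γ) U) (fun x => ((x.1, x.2) : A × U)) (fun g m => rfl) h1
    have hAF : AF k (Sd (Lett (Via π D)) Γ)
        (Prod.map (ta (Lett (Via π D)) Γ) id : TD (Lett (Via π D)) Γ ×
          Via (rh (Lett (Via π D)) Γ) (Via π A × U) →
            TA (Lett (Via π D)) Γ × Via (rh (Lett (Via π D)) Γ) (Via π A × U))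
        (Prod.map (tb (Lett (Via π D)) Γ) id : TD (Lett (Via π D)) Γ ×
          Via (rh (Lett (Via π D)) Γ) (Via π A × U) →
            TB (Lett (Via π D)) Γ × Via (rh (Lett (Via π D)) Γ) (Via π A × U)) := by
      have h1 := (hG Γ π hπ).2 (Lett (Via π D)) (fun γ hγ x => by
        refine Prod.ext ?_ rfl
        show toVia π (π γ • ofVia x.1) = x.1
        rw [hγ, one_smul]
        rfl) (Via (rh (Lett (Via π D)) Γ) U)
      exact AF.of_inj (D' := TD (Lett (Via π D)) Γ × (Via (π.comp (rh (Lett (Via π D)) Γ)) A ×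
          Via (rh (Lett (Via π D)) Γ) U))
        (A' := TA (Lett (Via π D)) Γ × (Via (π.comp (rh (Lett (Via π D)) Γ)) A ×
          Via (rh (Lett (Via π D)) Γ) U))
        (B' := TB (Lett (Via π D)) Γ × (Via (π.comp (rh (Lett (Via π D)) Γ)) A ×
          Via (rh (Lett (Via π D)) Γ) U))
        (fun x => (x.1, ((x.2.1, x.2.2) : A × U)))
        (fun x => (x.1, ((x.2.1, x.2.2) : A × U))) (fun x => (x.1, ((x.2.1, x.2.2) : A × U)))
        (fun g m => rfl) (fun g m => rfl) (fun g m => rfl)
        (fun x y h => by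
          have h1 := congrArg Prod.fst h
          have h2 := congrArg Prod.snd h
          exact Prod.ext h1 h2)
        (fun δ => rfl) (fun δ => rfl) h1
    have hj1 : Eqv Γ (fun x : Via π D × U => (((a x.1, x.2), x.1) : (Via π A × U) × Via π D)) :=
      fun g m => Prod.ext (Prod.ext (ha (π g) m.1) rfl) rfl
    have hj2 : Function.Injective
        (fun x : Via π D × U => (((a x.1, x.2), x.1) : (Via π A × U) × Via π D)) := by
      intro x y h
      exact Prod.ext (congrArg Prod.snd h) (congrArg (fun q => q.1.2) h)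
    have hlj := loc_of_inj _ hj1 hj2 hl
    obtain ⟨S, hS, hSe⟩ := key_of_ext hInt hAF (fun i => ((a (d i).1, (d i).2) : Via π A × U))
      (fun i => ((d i).1 : Via π D)) hP hlj u hY
    exact ⟨S, rat_of_inj _ hj1 hj2 hS, by linarith⟩
  · intro ι _ d P hP hl u Y hY ε hε
    refine key_of_stab (a := (Prod.map b id : Via π D × U → Via π B × U))
      (fun g m => Prod.ext (hb (π g) m.1) rfl) ?_ d hP hl u hY hε
    intro g δ h
    have h1 := congrArg Prod.fst h
    have h2 := congrArg Prod.snd h
    exact Prod.ext (hstab (π g) δ.1 h1) h2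

section Tree

variable {B V : Type} [Group B] [MulAction B V]

/-- sets with good stabilisers are good -/
theorem good_verts {k : Subring ℂ} (h : ∀ v : V, PB k (MulAction.stabilizer B v))
    {G W : Type} [Group G] [MulAction G W] {c : G → W → B} (hc : Coc c) :
    Good k G (Tw hc V) := by
  refine good_sigma (C := Quotient (MulAction.orbitRel B V))
    (fun x => Quotient.mk (MulAction.orbitRel B V) x.2) ?_ ?_
  · intro g x
    exact Quotient.sound (s := MulAction.orbitRel B V) ⟨c g x.1, rfl⟩
  · intro c0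
    obtain ⟨v, rfl⟩ := Quotient.exists_rep c0
    refine ⟨Tw hc (MulAction.orbit B v), inferInstance, fun x => mkTw hc x.1 x.2.1,
      fun g x => rfl, ?_, ?_, ?_⟩
    · rintro ⟨w, y⟩ ⟨w', y'⟩ hx
      have h2 : w = w' := congrArg (fun x : Tw hc V => x.1) hx
      have h3 : y.1 = y'.1 := congrArg (fun x : Tw hc V => x.2) hx
      exact Prod.ext h2 (Subtype.ext h3)
    · rintro ⟨w, y⟩ hw
      have h2 : y ∈ MulAction.orbit B v := Quotient.exact hw
      exact ⟨mkTw hc w ⟨y, h2⟩, rfl⟩
    · refine good_tw hc (⟨v, MulAction.mem_orbit_self v⟩ : MulAction.orbit B v) ?_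
        (MulAction.stabilizer B v) ?_ (h v)
      · rintro ⟨y, b, rfl⟩
        exact ⟨b, rfl⟩
      · ext g
        rw [MulAction.mem_stabilizer_iff, MulAction.mem_stabilizer_iff]
        constructor
        · intro h2
          exact congrArg Subtype.val h2
        · intro h2
          exact Subtype.ext h2

lemma coc_unit (G : Type) [Group G] : Coc (fun (g : G) (_ : Unit) => g) :=
  ⟨fun _ _ _ => rfl, fun _ _ _ h => h⟩

/-- edge stabilisers without inversions -/
lemma dart_of_edge (T : SimpleGraph V)
    (hadj : ∀ (g : B) (u v : V), T.Adj u v → T.Adj (g • u) (g • v))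
    (hinv : ∀ (g : B) (u v : V), T.Adj u v → ¬ (g • u = v ∧ g • v = u)) (g : B) (δ : T.Dart)
    (hg : (@HSMul.hSMul _ _ _ (@instHSMul _ _ (edgeAct T hadj).toSMul) g
      (⟨δ.edge, δ.edge_mem⟩ : {e : Sym2 V // e ∈ T.edgeSet})) = ⟨δ.edge, δ.edge_mem⟩) :
    @HSMul.hSMul _ _ _ (@instHSMul _ _ (dartAct T hadj).toSMul) g δ = δ := by
  let i1 : MulAction B T.Dart := dartAct T hadj
  have h2 : (g • δ).edge = δ.edge := congrArg Subtype.val hg
  rw [SimpleGraph.dart_edge_eq_iff] at h2
  rcases h2 with h2 | h2
  · exact h2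
  · exfalso
    apply hinv g δ.fst δ.snd δ.adj
    exact ⟨congrArg (fun e : T.Dart => e.fst) h2, congrArg (fun e : T.Dart => e.snd) h2⟩

/-- approximation for a group acting on a tree -/
theorem approx_tree {k : Subring ℂ} (T : SimpleGraph V) (hT : T.IsTree)
    (hadj : ∀ (g : B) (u v : V), T.Adj u v → T.Adj (g • u) (g • v))
    (hinv : ∀ (g : B) (u v : V), T.Adj u v → ¬ (g • u = v ∧ g • v = u))
    (hAF : @AF k B _ T.Dart V {e : Sym2 V // e ∈ T.edgeSet} (dartAct T hadj) _ (edgeAct T hadj)
      (fun e : T.Dart => e.fst)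
      (fun e : T.Dart => (⟨e.edge, e.edge_mem⟩ : {e : Sym2 V // e ∈ T.edgeSet})))
    {I : Type} (l : Filter I) {H : I → Type} [∀ i, Group (H i)] (π : ∀ i, B →* H i)
    (hπ : ∀ g : B, g ≠ 1 → ∀ᶠ i in l, π i g ≠ 1)
    (h : ∀ v : V, ApproxAlong k l (fun i => (π i).comp (MulAction.stabilizer B v).subtype)) :
    ApproxAlong k l π := by
  have hne : Nonempty V := hT.connected.nonempty
  obtain ⟨v0⟩ := hne
  by_cases hd : Nonempty T.Dart
  swap
  · -- no edges: a single vertex
    have hs : ∀ v : V, v = v0 := by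
      intro v
      by_contra hne
      obtain ⟨w⟩ := hT.connected.preconnected v v0
      cases w with
      | nil => exact hne rfl
      | cons h _ => exact hd ⟨⟨(_, _), h⟩⟩
    let f : B →* MulAction.stabilizer B v0 :=
      { toFun := fun g => ⟨g, hs _⟩
        map_one' := rfl
        map_mul' := fun _ _ => rfl }
    have hf : Function.Injective f := fun g h e => congrArg Subtype.val e
    have h1 := approx_of_injective k l
      (fun i => (π i).comp (MulAction.stabilizer B v0).subtype) f hf (h v0)
    have h2 : (fun i => ((π i).comp (MulAction.stabilizer B v0).subtype).comp f) = π := by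
      funext i
      ext g
      rfl
    rwa [h2] at h1
  obtain ⟨δ0⟩ := hd
  let i1 : MulAction B T.Dart := dartAct T hadj
  let i2 : MulAction B {e : Sym2 V // e ∈ T.edgeSet} := edgeAct T hadj
  refine approx_of_af (A := V) (B := {e : Sym2 V // e ∈ T.edgeSet}) k
    (a := fun e : T.Dart => e.fst)
    (b := fun e : T.Dart => (⟨e.edge, e.edge_mem⟩ : {e : Sym2 V // e ∈ T.edgeSet}))
    (fun g δ => rfl) (fun g δ => rfl) δ0 (tree_conn T hT δ0) hAF l π hπ h ?_
  rintro ⟨e, he⟩
  induction e using Sym2.ind with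
  | _ u v =>
    have hadj' : T.Adj u v := he
    have hle : MulAction.stabilizer B (⟨s(u, v), he⟩ : {e : Sym2 V // e ∈ T.edgeSet})
        ≤ MulAction.stabilizer B u := by
      intro g hg
      have h2 := dart_of_edge T hadj hinv g ⟨(u, v), hadj'⟩ hg
      exact congrArg (fun e : T.Dart => e.fst) h2
    have h1 := approx_of_injective k l
      (fun i => (π i).comp (MulAction.stabilizer B u).subtype) (Subgroup.inclusion hle)
      (Subgroup.inclusion_injective hle) (h u)
    have h2 : (fun i => ((π i).comp (MulAction.stabilizer B u).subtype).comp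
        (Subgroup.inclusion hle)) = fun i => (π i).comp (MulAction.stabilizer B
          (⟨s(u, v), he⟩ : {e : Sym2 V // e ∈ T.edgeSet})).subtype := by
      funext i
      ext g
      rfl
    rwa [h2] at h1

/-- the formula for trees whose edge stabilisers have finite index in the vertex stabilisers -/
theorem af_fin {k : Subring ℂ} (T : SimpleGraph V) (hT : T.IsTree)
    (hadj : ∀ (g : B) (u v : V), T.Adj u v → T.Adj (g • u) (g • v))
    (hinv : ∀ (g : B) (u v : V), T.Adj u v → ¬ (g • u = v ∧ g • v = u))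
    (hfin : ∀ u v : V, T.Adj u v →
      (MulAction.stabilizer B v).relIndex (MulAction.stabilizer B u) ≠ 0) :
    @AF k B _ T.Dart V {e : Sym2 V // e ∈ T.edgeSet} (dartAct T hadj) _ (edgeAct T hadj)
      (fun e : T.Dart => e.fst)
      (fun e : T.Dart => (⟨e.edge, e.edge_mem⟩ : {e : Sym2 V // e ∈ T.edgeSet})) := by
  let i1 : MulAction B T.Dart := dartAct T hadj
  let i2 : MulAction B {e : Sym2 V // e ∈ T.edgeSet} := edgeAct T hadj
  refine af_of_keys (fun g δ => rfl) (fun g δ => rfl) (tree_half T hT) ?_ ?_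
  · intro ι _ d P hP hl u Y hY ε hε
    refine key (fun e : T.Dart => e.fst) (fun g δ => rfl) d ?_ hP hl u hY hε
    intro i
    have h2 : MulAction.stabilizer B (d i)
        = MulAction.stabilizer B (d i).snd ⊓ MulAction.stabilizer B (d i).fst := by
      ext g
      rw [Subgroup.mem_inf, MulAction.mem_stabilizer_iff, MulAction.mem_stabilizer_iff,
        MulAction.mem_stabilizer_iff]
      constructor
      · intro h
        exact ⟨congrArg (fun e : T.Dart => e.snd) h, congrArg (fun e : T.Dart => e.fst) h⟩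
      · rintro ⟨h3, h2⟩
        exact SimpleGraph.Dart.ext _ _ (Prod.ext h2 h3)
    rw [h2]
    show (MulAction.stabilizer B (d i).snd ⊓ MulAction.stabilizer B (d i).fst).relIndex
      (MulAction.stabilizer B (d i).fst) ≠ 0
    rw [Subgroup.inf_relIndex_right]
    exact hfin _ _ (d i).adj
  · intro ι _ d P hP hl u Y hY ε hε
    refine key_of_stab (a := fun e : T.Dart =>
      (⟨e.edge, e.edge_mem⟩ : {e : Sym2 V // e ∈ T.edgeSet})) (fun g m => rfl) ?_ d hP hl u hY hε
    exact fun g δ h => dart_of_edge T hadj hinv g δ h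

/-- the formula for trees with good vertex stabilisers -/
theorem af_pb {k : Subring ℂ} (T : SimpleGraph V) (hT : T.IsTree)
    (hadj : ∀ (g : B) (u v : V), T.Adj u v → T.Adj (g • u) (g • v))
    (hinv : ∀ (g : B) (u v : V), T.Adj u v → ¬ (g • u = v ∧ g • v = u))
    (h : ∀ v : V, PB k (MulAction.stabilizer B v)) :
    @AF k B _ T.Dart V {e : Sym2 V // e ∈ T.edgeSet} (dartAct T hadj) _ (edgeAct T hadj)
      (fun e : T.Dart => e.fst)
      (fun e : T.Dart => (⟨e.edge, e.edge_mem⟩ : {e : Sym2 V // e ∈ T.edgeSet})) := by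
  let i1 : MulAction B T.Dart := dartAct T hadj
  let i2 : MulAction B {e : Sym2 V // e ∈ T.edgeSet} := edgeAct T hadj
  have hgood : Good k B V := by
    have h1 := good_verts h (coc_unit B)
    exact good_sigma (C := Unit) (fun _ => ()) (fun g w => rfl) fun c0 =>
      ⟨Tw (coc_unit B) V, inferInstance, fun x => x.2, fun g x => rfl,
        fun x y hxy => Prod.ext rfl hxy, fun w _ => ⟨mkTw (coc_unit B) () w, rfl⟩, h1⟩
  have h2 := af_step (a := fun e : T.Dart => e.fst)
    (b := fun e : T.Dart => (⟨e.edge, e.edge_mem⟩ : {e : Sym2 V // e ∈ T.edgeSet}))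
    (fun g δ => rfl) (fun g δ => rfl) (tree_half T hT)
    (fun g δ h => dart_of_edge T hadj hinv g δ h) hgood B (MonoidHom.id B) LIKer.id Unit
  exact AF.of_inj (D' := Via (MonoidHom.id B) T.Dart × Unit)
    (A' := Via (MonoidHom.id B) V × Unit)
    (B' := Via (MonoidHom.id B) {e : Sym2 V // e ∈ T.edgeSet} × Unit)
    (fun x => (x, ())) (fun x => (x, ())) (fun x => (x, ()))
    (fun g m => rfl) (fun g m => rfl) (fun g m => rfl)
    (fun x y hxy => congrArg Prod.fst hxy) (fun δ => rfl) (fun δ => rfl) h2

end Tree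

/-- approximation for hierarchical groups -/
theorem approx_of_hier (k : Subring ℂ) (G : Type) [inst : Group G] (h : Hier G) {I : Type}
    (l : Filter I) {H : I → Type} [∀ i, Group (H i)] (π : ∀ i, G →* H i)
    (hπ : ∀ g : G, g ≠ 1 → ∀ᶠ i in l, π i g ≠ 1) : ApproxAlong k l π := by
  induction h with
  | triv G => exact approx_triv k l π
  | tree G V T hT hadj hinv hv ih =>
    refine approx_tree T hT hadj hinv (af_pb T hT hadj hinv fun v => pb_of_hier k _ (hv v)) l π hπ
      fun v => ih v _ ?_
    intro g hg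
    exact hπ g.1 fun h => hg (Subtype.ext h)
  | union G K hK _ ih =>
    refine approx_of_union k l π K hK fun F => ih F _ ?_
    intro g hg
    exact hπ g.1 fun h => hg (Subtype.ext h)

end Pool.Agent.HI
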