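import Pool.Agent.HI.Defs

set_option autoImplicit false
set_option linter.unusedSectionVars false

noncomputable section

open scoped InnerProductSpace ENNReal Topology
open Classical Filter ContinuousLinearMap

namespace Pool.Agent.HI

open Pool.Agent.VN Pool.Agent.LFT

section Tree

variable (X Γ : Type) [Group Γ] [MulAction Γ X]

/-- multiplication on the left by an inverse letter -/
lemma H14_word (y : X) (v : FreeGroup X) :
    ((FreeGroup.of y)⁻¹ * v).toWord = (y, false) :: v.toWord ∨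
      v.toWord = (y, true) :: ((FreeGroup.of y)⁻¹ * v).toWord := by
  have h1 : ((FreeGroup.of y)⁻¹ * v).toWord = FreeGroup.reduce ((y, false) :: v.toWord) := by
    rw [FreeGroup.toWord_mul]
    simp [FreeGroup.invRev]
  rw [h1, FreeGroup.reduce.cons, FreeGroup.reduce_toWord]
  cases h : v.toWord with
  | nil => left; rfl
  | cons hd tl =>
    simp only
    split_ifs with h2
    · right
      obtain ⟨h3, h4⟩ := h2
      have h5 : hd = (y, true) := by
        obtain ⟨a, c⟩ := hd
        have h6 : y = a := h3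
        have h7 : false = !c := h4
        subst h6
        cases c
        · exact absurd h7 (by decide)
        · rfl
      rw [h5]
    · left; rfl

/-- the half at a dart, on the vertices -/
def H14_P (f : FreeGroup X) (x : X) (b : Bool) (u : FreeGroup X) : Prop :=
  (u⁻¹ * f).toWord.getLast? ≠ some (x, !b)

lemma H14_edge (f : FreeGroup X) (x : X) (b : Bool) (g : FreeGroup X) (y : X) :
    ((H14_P X f x b g ∧ ¬ (g = f ∧ y = x ∧ true = b)) ↔
      (H14_P X f x b (g * FreeGroup.of y) ∧
        ¬ (g * FreeGroup.of y = f ∧ y = x ∧ false = b))) := by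
  have e1 : (g * FreeGroup.of y)⁻¹ * f = (FreeGroup.of y)⁻¹ * (g⁻¹ * f) := by group
  have n1 : ∀ u : FreeGroup X, u = f ↔ (u⁻¹ * f).toWord = [] := by
    intro u
    rw [FreeGroup.toWord_eq_nil_iff, inv_mul_eq_one]
  unfold H14_P
  rw [n1 g, n1 (g * FreeGroup.of y), e1]
  rcases H14_word X y (g⁻¹ * f) with h | h
  · rw [h]
    cases hv : (g⁻¹ * f).toWord with
    | nil => cases b <;> simp
    | cons hd tl => simp
  · rw [h]
    cases hv : ((FreeGroup.of y)⁻¹ * (g⁻¹ * f)).toWord with
    | nil => cases b <;> simp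
    | cons hd tl => simp

/-- H14 -/
theorem t_half : Half (ta X Γ) (tb X Γ) := by
  rintro ⟨f, x, b⟩
  have main : ∀ (g : FreeGroup X) (y : X),
      ((H14_P X f x b g ∧ ((g, y, true) : FreeGroup X × X × Bool) ≠ (f, x, b)) ↔
      (H14_P X f x b (g * FreeGroup.of y) ∧
        ((g * FreeGroup.of y, y, false) : FreeGroup X × X × Bool) ≠ (f, x, b))) := by
    intro g y
    have := H14_edge X f x b g y
    simpa [Prod.ext_iff] using this
  refine ⟨{ε | H14_P X f x b (ε.1 : FreeGroup X)}, ?_, ?_, ?_⟩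
  · show H14_P X f x b f
    unfold H14_P
    simp
  · rintro ⟨f1, x1, b1⟩ ⟨f2, x2, b2⟩ h
    have h' : f1 = f2 := h
    subst h'
    exact Iff.rfl
  · rintro ⟨f1, x1, b1⟩ ⟨f2, x2, b2⟩ h
    have h' : (if b1 then f1 else f1 * (FreeGroup.of x1)⁻¹, x1)
      = ((if b2 then f2 else f2 * (FreeGroup.of x2)⁻¹, x2) : FreeGroup X × X) := h
    have hx : x1 = x2 := congrArg Prod.snd h'
    have hf := congrArg Prod.fst h'
    subst hx
    cases b1 <;> cases b2 <;> simp at hf
    · subst hf
      exact Iff.rfl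
    · have := main f2 x1
      rw [← hf] at this
      simp only [inv_mul_cancel_right] at this
      rw [hf] at this
      subst hf
      exact this.symm
    · subst hf
      have := main (f2 * (FreeGroup.of x1)⁻¹) x1
      simp only [inv_mul_cancel_right] at this
      exact this
    · subst hf
      exact Iff.rfl

lemma H14_conn_a {D A B : Type} {a : D → A} {b : D → B} {ε ε' : D} (h : a ε = a ε') :
    Conn a b ε ε' := Relation.ReflTransGen.single (Or.inl h)

lemma H14_conn_b {D A B : Type} {a : D → A} {b : D → B} {ε ε' : D} (h : b ε = b ε') :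
    Conn a b ε ε' := Relation.ReflTransGen.single (Or.inr h)

lemma H14_tb_pair (f : FreeGroup X) (x : X) :
    tb X Γ ((f, x, true) : FreeGroup X × X × Bool)
      = tb X Γ ((f * FreeGroup.of x, x, false) : FreeGroup X × X × Bool) := by
  show ((f, x) : FreeGroup X × X) = ((f * FreeGroup.of x) * (FreeGroup.of x)⁻¹, x)
  simp

/-- H14: connectedness by letters in a subset -/
theorem t_connIn (s : Set X) (x : X) (hx : x ∈ s) (f l : FreeGroup X)
    (hl : l ∈ Subgroup.closure (FreeGroup.of '' s)) :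
    ConnIn {δ : TD X Γ | δ.2.1 ∈ s} (ta X Γ) (tb X Γ) (f, x, true) (f * l, x, true) := by
  have key : ∀ f : FreeGroup X, ∀ y ∈ s,
      ConnIn {δ : TD X Γ | δ.2.1 ∈ s} (ta X Γ) (tb X Γ) (f, x, true)
        (f * FreeGroup.of y, x, true) := by
    intro f y hy
    refine Relation.ReflTransGen.head (b := ((f, y, true) : FreeGroup X × X × Bool))
      ⟨hy, Or.inl rfl⟩ ?_
    refine Relation.ReflTransGen.head
      (b := ((f * FreeGroup.of y, y, false) : FreeGroup X × X × Bool))
      ⟨hy, Or.inr (H14_tb_pair X Γ f y)⟩ ?_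
    exact Relation.ReflTransGen.single ⟨hx, Or.inl rfl⟩
  have key' : ∀ f : FreeGroup X, ∀ y ∈ s,
      ConnIn {δ : TD X Γ | δ.2.1 ∈ s} (ta X Γ) (tb X Γ) (f, x, true)
        (f * (FreeGroup.of y)⁻¹, x, true) := by
    intro f y hy
    refine Relation.ReflTransGen.head (b := ((f, y, false) : FreeGroup X × X × Bool))
      ⟨hy, Or.inl rfl⟩ ?_
    refine Relation.ReflTransGen.head
      (b := ((f * (FreeGroup.of y)⁻¹, y, true) : FreeGroup X × X × Bool))
      ⟨hy, Or.inr ?_⟩ ?_
    · rw [H14_tb_pair X Γ]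
      rw [inv_mul_cancel_right]
    exact Relation.ReflTransGen.single ⟨hx, Or.inl rfl⟩
  revert f
  refine Subgroup.closure_induction'' (p := fun l _ => ∀ f : FreeGroup X,
    ConnIn {δ : TD X Γ | δ.2.1 ∈ s} (ta X Γ) (tb X Γ) (f, x, true) (f * l, x, true))
    ?_ ?_ ?_ ?_ hl
  · rintro _ ⟨y, hy, rfl⟩ f
    exact key f y hy
  · rintro _ ⟨y, hy, rfl⟩ f
    exact key' f y hy
  · intro f
    rw [mul_one]
    exact Relation.ReflTransGen.refl
  · intro l l' _ _ h h' f
    rw [← mul_assoc]
    exact Relation.ReflTransGen.trans (h f) (h' (f * l))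

/-- H14 -/
theorem t_conn (δ δ' : TD X Γ) : Conn (ta X Γ) (tb X Γ) δ δ' := by
  obtain ⟨f, x, c⟩ := δ
  obtain ⟨f', x', c'⟩ := δ'
  have h1 : Conn (ta X Γ) (tb X Γ) ((f, x, c) : FreeGroup X × X × Bool)
      ((f, x, true) : FreeGroup X × X × Bool) := H14_conn_a rfl
  have h3 : Conn (ta X Γ) (tb X Γ) ((f', x, true) : FreeGroup X × X × Bool)
      ((f', x', c') : FreeGroup X × X × Bool) := H14_conn_a rfl
  have hl : f⁻¹ * f' ∈ Subgroup.closure (FreeGroup.of '' (Set.univ : Set X)) := by
    rw [Set.image_univ, FreeGroup.closure_range_of]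
    trivial
  have h2 := t_connIn X Γ Set.univ x trivial f (f⁻¹ * f') hl
  rw [mul_inv_cancel_left] at h2
  have h2' : Conn (ta X Γ) (tb X Γ) ((f, x, true) : FreeGroup X × X × Bool)
      ((f', x, true) : FreeGroup X × X × Bool) := by
    unfold ConnIn at h2
    unfold Conn
    exact Relation.ReflTransGen.mono (fun _ _ h => h.2) _ _ h2
  exact (h1.trans h2').trans h3

/-- H14 -/
theorem exists_fresh {Ξ : Type} {σ : Type} (s : Finset σ) (l : σ → FreeGroup (Lett Ξ)) :
    ∃ n : ℕ, ∀ q ∈ s, l q ∈ Subgroup.closure (FreeGroup.of '' {x : Lett Ξ | x.2 < n}) := by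
  have mono : ∀ m n : ℕ, m ≤ n → ∀ g : FreeGroup (Lett Ξ),
      g ∈ Subgroup.closure (FreeGroup.of '' {x : Lett Ξ | x.2 < m}) →
      g ∈ Subgroup.closure (FreeGroup.of '' {x : Lett Ξ | x.2 < n}) := by
    intro m n h g hg
    refine Subgroup.closure_mono (Set.image_mono ?_) hg
    intro x hx
    exact lt_of_lt_of_le hx h
  have one : ∀ g : FreeGroup (Lett Ξ), ∃ n : ℕ,
      g ∈ Subgroup.closure (FreeGroup.of '' {x : Lett Ξ | x.2 < n}) := by
    intro g
    induction g using FreeGroup.induction_on with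
    | C1 => exact ⟨0, Subgroup.one_mem _⟩
    | of x =>
      refine ⟨x.2 + 1, Subgroup.subset_closure ⟨x, ?_, rfl⟩⟩
      exact Nat.lt_succ_self _
    | inv_of x ih =>
      obtain ⟨n, hn⟩ := ih
      exact ⟨n, Subgroup.inv_mem _ hn⟩
    | mul x y hx hy =>
      obtain ⟨n, hn⟩ := hx
      obtain ⟨m, hm⟩ := hy
      exact ⟨max n m, Subgroup.mul_mem _ (mono _ _ (le_max_left _ _) _ hn)
        (mono _ _ (le_max_right _ _) _ hm)⟩
  choose N hN using one
  refine ⟨s.sup fun q => N (l q), fun q hq => mono _ _ ?_ _ (hN (l q))⟩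
  exact Finset.le_sup (f := fun q => N (l q)) hq

end Tree

end Pool.Agent.HI
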