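import Pool.Agent.HI.Defs

set_option autoImplicit false
set_option linter.unusedSectionVars false

noncomputable section

open scoped InnerProductSpace ENNReal Topology
open Classical Filter ContinuousLinearMap

namespace Pool.Agent.HI

open Pool.Agent.VN Pool.Agent.LFT

section Prod

variable {G : Type} [Group G] {k : Subring ℂ}

/-- H8: the formula follows from two key estimates -/
theorem af_of_keys {D A B : Type} [MulAction G D] [MulAction G A] [MulAction G B]
    {a : D → A} {b : D → B} (ha : Eqv G a) (hb : Eqv G b) (hh : Half a b)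
    (key0 : ∀ (ι : Type) (_ : Fintype ι) (d : ι → D) (P : Submodule ℂ (L2 ι G)), CI P →
      Loc (pV d) P → ∀ u : ℝ, ∀ Y, Rat k (fun i => a (d i)) Y → ∀ ε : ℝ, 0 < ε →
      ∃ S, Rat k d S ∧ dm (P ⊓ Y) - u * dm Y - ε ≤ dm (P ⊓ S) - u * dm S)
    (key1 : ∀ (ι : Type) (_ : Fintype ι) (d : ι → D) (P : Submodule ℂ (L2 ι G)), CI P →
      Loc (pV d) P → ∀ u : ℝ, ∀ Y, Rat k (fun i => b (d i)) Y → ∀ ε : ℝ, 0 < ε →
      ∃ S, Rat k d S ∧ dm (P ⊓ Y) - u * dm Y - ε ≤ dm (P ⊓ S) - u * dm S) :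
    AF k G a b := by
  intro ι instι d K0 K1 hK0 hK1 ε hε
  obtain ⟨P, hP, hPl, hPd⟩ := formula a b ha hb hh d hK0.ci hK1.ci hK0.loc hK1.loc
  obtain ⟨S, hS, hSe⟩ := telescope (fun X => Rat k d X) (fun X => Rat k (fun i => a (d i)) X)
    (fun X => Rat k (fun i => b (d i)) X) (fun X hX => hX.ci) (fun X hX => hX.ci)
    (fun X hX => hX.mapLab a ha) (fun X hX => hX.mapLab b hb)
    (fun X Y hX hY => hX.inf hY) (fun X Y hX hY => hX.inf hY) (fun X Y hX hY => hX.csup hY)
    (fun X Y hX hY => hX.csup hY) (Rat.top d) (Rat.bot d) hP hK0 hK1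
    (fun u _ _ Y hY ε hε => key0 ι instι d P hP hPl u Y hY ε hε)
    (fun u _ _ Y hY ε hε => key1 ι instι d P hP hPl u Y hY ε hε) hε
  exact ⟨S, hS, by linarith⟩

end Prod

end Pool.Agent.HI
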