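import Pool.Agent.HI.H1
import Pool.Agent.HI.H8
import Pool.Agent.HI.H14
import Pool.Agent.HX.AtMain

set_option autoImplicit false
set_option linter.unusedSectionVars false

noncomputable section

open scoped InnerProductSpace ENNReal Topology
open Classical Filter ContinuousLinearMap

namespace Pool.Agent.HI

open Pool.Agent.VN Pool.Agent.LFT

/-- H17: halves of products -/
theorem Half.prod {D A B : Type} {a : D → A} {b : D → B} (h : Half a b) (C : Type) :
    Half (Prod.map a id : D × C → A × C) (Prod.map b id : D × C → B × C) := by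
  rintro ⟨δ, c⟩
  obtain ⟨Y, hY, h1, h2⟩ := h δ
  refine ⟨{x | x.1 ∈ Y ∧ x.2 = c}, ⟨hY, rfl⟩, ?_, ?_⟩
  · rintro ⟨ε, e⟩ ⟨ε', e'⟩ he
    simp only [Prod.map_apply, id_eq, Prod.mk.injEq] at he
    obtain ⟨he1, rfl⟩ := he
    show (ε ∈ Y ∧ e = c) ↔ (ε' ∈ Y ∧ e = c)
    rw [h1 ε ε' he1]
  · rintro ⟨ε, e⟩ ⟨ε', e'⟩ he
    simp only [Prod.map_apply, id_eq, Prod.mk.injEq] at he
    obtain ⟨he1, rfl⟩ := he
    show ((ε ∈ Y ∧ e = c) ∧ ((ε, e) : D × C) ≠ (δ, c))
      ↔ ((ε' ∈ Y ∧ e = c) ∧ ((ε', e) : D × C) ≠ (δ, c))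
    by_cases hc : e = c
    · subst hc
      have h3 := h2 ε ε' he1
      have e1 : ∀ x : D, ((x, e) : D × C) ≠ (δ, e) ↔ x ≠ δ := by
        intro x
        rw [Ne, Prod.mk.injEq]
        simp
      rw [e1, e1]
      constructor
      · rintro ⟨⟨h4, _⟩, h5⟩
        have h6 := h3.mp ⟨h4, h5⟩
        exact ⟨⟨h6.1, rfl⟩, h6.2⟩
      · rintro ⟨⟨h4, _⟩, h5⟩
        have h6 := h3.mpr ⟨h4, h5⟩
        exact ⟨⟨h6.1, rfl⟩, h6.2⟩
    · constructor
      · rintro ⟨⟨_, h4⟩, _⟩
        exact absurd h4 hc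
      · rintro ⟨⟨_, h4⟩, _⟩
        exact absurd h4 hc

/-- H17: the key estimate if the stabilisers of the darts are the stabilisers of the vertices -/
theorem key_of_stab {G : Type} [Group G] {k : Subring ℂ} {D A : Type} [MulAction G D]
    [MulAction G A] {a : D → A} (ha : Eqv G a) (hst : ∀ (g : G) (δ : D), g • a δ = a δ → g • δ = δ)
    {ι : Type} [Fintype ι] (d : ι → D) {P : Submodule ℂ (L2 ι G)} (hP : CI P)
    (hl : Loc (pV d) P) (u : ℝ) {Y : Submodule ℂ (L2 ι G)} (hY : Rat k (fun i => a (d i)) Y)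
    {ε : ℝ} (hε : 0 < ε) :
    ∃ S, Rat k d S ∧ dm (P ⊓ Y) - u * dm Y - ε ≤ dm (P ⊓ S) - u * dm S := by
  refine key a ha d (fun i => ?_) hP hl u hY hε
  have h2 : (MulAction.stabilizer G (d i)).relIndex (MulAction.stabilizer G (a (d i))) = 1 := by
    rw [Subgroup.relIndex_eq_one]
    intro g hg
    exact hst g _ hg
  rw [h2]
  exact one_ne_zero

section Trivial

variable {G : Type} [Group G]

/-- the standard orthonormal basis over a trivial group -/
lemma H17_orthonormal (ι : Type) [Fintype ι] :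
    Orthonormal ℂ (fun i : ι => (dl (i, (1 : G)) : L2 ι G)) := by
  rw [orthonormal_iff_ite]
  intro i j
  rw [inner_dl_left, dl_apply]
  simp only [Prod.mk.injEq, and_true]

lemma H17_span [Subsingleton G] (ι : Type) [Fintype ι] :
    ⊤ ≤ Submodule.span ℂ (Set.range fun i : ι => (dl (i, (1 : G)) : L2 ι G)) := by
  intro x _
  have h : x = ∑ i : ι, x (i, (1 : G)) • (dl (i, (1 : G)) : L2 ι G) := by
    ext ⟨j, g⟩
    have hg : g = 1 := Subsingleton.elim _ _
    subst hg
    rw [lp.coeFn_sum, Finset.sum_apply, Finset.sum_eq_single j]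
    · rw [lp.coeFn_smul, Pi.smul_apply, dl_self, smul_eq_mul, mul_one]
    · intro i _ hij
      rw [lp.coeFn_smul, Pi.smul_apply, dl_apply, if_neg, smul_zero]
      intro he
      exact hij (Prod.mk.inj he).1.symm
    · intro h
      exact absurd (Finset.mem_univ j) h
  rw [h]
  exact Submodule.sum_mem _ fun i _ => Submodule.smul_mem _ _ (Submodule.subset_span ⟨i, rfl⟩)

/-- dimensions over a trivial group are integers -/
lemma H17_vdim [Subsingleton G] {ι : Type} [Fintype ι] (K : Submodule ℂ (L2 ι G))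
    [K.HasOrthogonalProjection] :
    vdim (K : Set (L2 ι G)) = (Module.finrank ℂ K : ℝ) := by
  set bs : OrthonormalBasis ι ℂ (L2 ι G) := OrthonormalBasis.mk (H17_orthonormal ι) (H17_span ι)
    with hbs
  have hfd : FiniteDimensional ℂ (L2 ι G) := bs.toBasis.finiteDimensional_of_finite
  have hproj : LinearMap.IsProj K (K.starProjection : L2 ι G →ₗ[ℂ] L2 ι G) := by
    constructor
    · intro x
      exact K.starProjection_apply_mem x
    · intro x hx
      exact K.starProjection_eq_self_iff.mpr hx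
  have h1 := hproj.trace
  rw [LinearMap.trace_eq_sum_inner _ bs] at h1
  have h2 := tr_proj K
  unfold tr at h2
  have h3 : ∀ i, bs i = dl (i, (1 : G)) := by
    intro i
    rw [hbs, OrthonormalBasis.coe_mk]
  simp only [h3] at h1
  have h4 : ((vdim (K : Set (L2 ι G)) : ℝ) : ℂ) = ((Module.finrank ℂ K : ℝ) : ℂ) := by
    rw [← h2]
    push_cast
    rw [← h1]
    rfl
  exact_mod_cast h4

/-- the Atiyah property of a trivial group -/
lemma H17_atiyah (k : Subring ℂ) (G : Type) [Group G] [Subsingleton G] : AtiyahOver k G := by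
  intro m n A _
  rw [kerDim_eq]
  have c1 : CompleteSpace (Sol (Set.range (colF A))) := (Sol_closed _).completeSpace_coe
  exact ⟨_, H17_vdim _⟩

end Trivial

/-- H17: integrality over free sets -/
theorem int_free {k : Subring ℂ} {Γ G W U : Type} [Group Γ] [Group G] [MulAction G W]
    [MulAction Γ U] (hW : ∀ (g : G) (w : W), g • w = w → g = 1) {π : Γ →* G} (hπ : LIKer π) :
    Int0 k Γ (Via π W × U) := by
  intro ι _ lab X hX
  refine Rat.int ?_ hX
  rintro ⟨w, u⟩
  apply Pool.Agent.HX.atiyah_of_fg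
  intro H hH hf
  have hk : ∀ h ∈ H.map (MulAction.stabilizer Γ ((w, u) : Via π W × U)).subtype, π h = 1 := by
    rintro _ ⟨g, _, rfl⟩
    have h1 : (g : Γ) • ((w, u) : Via π W × U) = (w, u) := g.2
    have h2 : (g : Γ) • w = w := (Prod.mk.inj h1).1
    exact hW _ _ h2
  have hbot : H.map (MulAction.stabilizer Γ ((w, u) : Via π W × U)).subtype = ⊥ := by
    by_contra hne
    have hfg : (H.map (MulAction.stabilizer Γ ((w, u) : Via π W × U)).subtype).FG := by
      obtain ⟨S, hS⟩ := hH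
      refine ⟨S.image (MulAction.stabilizer Γ ((w, u) : Via π W × U)).subtype, ?_⟩
      rw [Finset.coe_image, ← MonoidHom.map_closure, hS]
    obtain ⟨f, hf1⟩ := hπ _ hfg hk hne
    apply hf1
    have h1 := hf (f.comp (H.equivMapOfInjective _ (Subgroup.subtype_injective _)).toMonoidHom)
    ext x
    obtain ⟨y, rfl⟩ := (H.equivMapOfInjective _ (Subgroup.subtype_injective _)).surjective x
    have h2 := DFunLike.congr_fun h1 y
    exact congrArg _ h2
  have hH' : H = ⊥ := (Subgroup.map_eq_bot_iff_of_injective _ (Subgroup.subtype_injective _)).mp hbot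
  subst hH'
  exact H17_atiyah k _

/-- H17: free sets are good -/
theorem good_free {k : Subring ℂ} {G W : Type} [Group G] [MulAction G W]
    (hW : ∀ (g : G) (w : W), g • w = w → g = 1) : Good k G W := by
  intro Γ _ π hπ
  refine ⟨fun U _ => int_free hW hπ, ?_⟩
  intro X _ hX U _
  have hr : ∀ (g : Sd X Γ) (w : Via (π.comp (rh X Γ)) W), g • w = w → ∀ x : X, g.right • x = x := by
    intro g w h x
    apply hX
    exact hW _ _ h
  have hphi : ∀ (g : Sd X Γ), (∀ x : X, g.right • x = x) → ∀ f : FreeGroup X,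
      phi X Γ g.right f = f := by
    intro g h f
    have h1 : (phi X Γ g.right).toMonoidHom = MonoidHom.id (FreeGroup X) := by
      apply FreeGroup.ext_hom
      intro x
      show phi X Γ g.right (FreeGroup.of x) = FreeGroup.of x
      rw [phi_of, h]
    exact DFunLike.congr_fun h1 f
  have hfix : ∀ (g : Sd X Γ) (w : Via (π.comp (rh X Γ)) W) (f : FreeGroup X), g • w = w →
      g.left * phi X Γ g.right f = f → g.left = 1 := by
    intro g w f h1 h2
    rw [hphi g (hr g w h1)] at h2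
    exact mul_eq_right.mp h2
  have hdart : ∀ (g : Sd X Γ) (w : Via (π.comp (rh X Γ)) W) (f : FreeGroup X), g • w = w →
      g.left * phi X Γ g.right f = f → ∀ δ : TD X Γ, g • δ = δ := by
    rintro g w f h1 h2 ⟨f', x, c⟩
    show ((g.left * phi X Γ g.right f', g.right • x, c) : FreeGroup X × X × Bool) = (f', x, c)
    rw [hfix g w f h1 h2, hphi g (hr g w h1), hr g w h1, one_mul]
  refine af_of_keys ?_ ?_ (Half.prod (t_half X Γ) _) ?_ ?_
  · rintro g ⟨δ, c⟩
    rfl
  · rintro g ⟨δ, c⟩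
    show ((tb X Γ (g • δ), g • c) : TB X Γ × (Via (π.comp (rh X Γ)) W × U)) = (g • tb X Γ δ, g • c)
    rw [tb_smul]
  · intro ι _ d P hP hl u Y hY ε hε
    refine key_of_stab (a := (Prod.map (ta X Γ) id : TD X Γ × (Via (π.comp (rh X Γ)) W × U) →
            TA X Γ × (Via (π.comp (rh X Γ)) W × U))) ?_ ?_ d hP hl u hY hε
    · rintro g ⟨δ, c⟩
      rfl
    · rintro g ⟨δ, w, c⟩ h
      have h1 : g • ta X Γ δ = ta X Γ δ := (Prod.mk.inj h).1
      have h2 : g • ((w, c) : Via (π.comp (rh X Γ)) W × U) = (w, c) := (Prod.mk.inj h).2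
      have h3 : g • w = w := (Prod.mk.inj h2).1
      have h4 : g • δ = δ := hdart g w δ.1 h3 h1 δ
      exact Prod.ext h4 h2
  · intro ι _ d P hP hl u Y hY ε hε
    refine key_of_stab (a := (Prod.map (tb X Γ) id : TD X Γ × (Via (π.comp (rh X Γ)) W × U) →
            TB X Γ × (Via (π.comp (rh X Γ)) W × U))) ?_ ?_ d hP hl u hY hε
    · rintro g ⟨δ, c⟩
      show ((tb X Γ (g • δ), g • c) : TB X Γ × (Via (π.comp (rh X Γ)) W × U))
        = (g • tb X Γ δ, g • c)
      rw [tb_smul]
    · rintro g ⟨δ, w, c⟩ h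
      have h1 : g • tb X Γ δ = tb X Γ δ := (Prod.mk.inj h).1
      have h2 : g • ((w, c) : Via (π.comp (rh X Γ)) W × U) = (w, c) := (Prod.mk.inj h).2
      have h3 : g • w = w := (Prod.mk.inj h2).1
      have h5 : g.left * phi X Γ g.right (tb X Γ δ).1 = (tb X Γ δ).1 := (Prod.mk.inj h1).1
      have h4 : g • δ = δ := hdart g w _ h3 h5 δ
      exact Prod.ext h4 h2

end Pool.Agent.HI
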