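import Pool.Agent.HI.Defs

set_option autoImplicit false
set_option linter.unusedSectionVars false

noncomputable section

open scoped InnerProductSpace ENNReal Topology
open Classical Filter ContinuousLinearMap

namespace Pool.Agent.HI

open Pool.Agent.VN Pool.Agent.LFT

section Dm

variable {G : Type} [Group G] {ι κ : Type} [Fintype ι] [Fintype κ]

/-- H2 -/
theorem CI.comap {T : L2 ι G →L[ℂ] L2 κ G} (hT : Equivar T) {K : Submodule ℂ (L2 κ G)}
    (hK : CI K) : CI (K.comap T.toLinearMap) := by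
  refine ⟨hK.cl.preimage T.continuous, fun s x hx => ?_⟩
  show T (lt s x) ∈ K
  rw [hT s x]
  exact hK.inv s _ hx

/-- H2 -/
theorem dm_comap {T : L2 ι G →L[ℂ] L2 κ G} (hT : Equivar T) {X : Submodule ℂ (L2 ι G)}
    {K : Submodule ℂ (L2 κ G)} (hX : CI X) (hK : CI K) :
    dm (X ⊓ K.comap T.toLinearMap) = dm (X ⊓ kr T) + dm (imc T X ⊓ K) := by
  have c1 : CompleteSpace K := hK.cl.completeSpace_coe
  have hP : Equivar K.starProjection := Invar.proj hK.inv
  set Q : L2 κ G →L[ℂ] L2 κ G := ContinuousLinearMap.id ℂ (L2 κ G) - K.starProjection with hQdef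
  have hQa : ∀ y, Q y = y - K.starProjection y := fun y => rfl
  have hQ : Equivar Q := by
    intro s x
    rw [hQa, hQa, hP s x, map_sub]
  have hkQ : kr Q = K := by
    ext y
    rw [mem_kr, hQa, sub_eq_zero]
    constructor
    · intro h
      rw [h]
      exact Submodule.starProjection_apply_mem _ _
    · intro h
      exact (Submodule.starProjection_eq_self_iff.mpr h).symm
  have hkQT : kr (Q ∘L T) = K.comap T.toLinearMap := by
    ext x
    rw [mem_kr, ContinuousLinearMap.comp_apply]
    have h1 : Q (T x) = 0 ↔ T x ∈ K := by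
      rw [← hkQ]
      rfl
    rw [h1]
    rfl
  have h1 := dm_imc (hQ.comp hT) hX
  rw [hkQT, ← imc_imc Q T X] at h1
  have h2 := dm_imc hQ (CI.imc hT hX.inv)
  rw [hkQ] at h2
  have h3 := dm_imc hT hX
  linarith

/-- H2 -/
theorem rat_comap {k : Subring ℂ} {M : Type} [MulAction G M] {lab : ι → M} {lab' : κ → M}
    {T : L2 ι G →L[ℂ] L2 κ G} (hT : LocOp k lab lab' T) {X : Submodule ℂ (L2 κ G)}
    (hX : Rat k lab' X) : Rat k lab (X.comap T.toLinearMap) := by
  obtain ⟨ν, μ, _, _, labν, labμ, S, R, hS, hR, rfl⟩ := hX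
  have hD : LocOp k (Sum.elim lab labν) lab'
      (T ∘L prL (κ' := ν) - R ∘L prR (κ := ι) : L2 (ι ⊕ ν) G →L[ℂ] L2 κ G) :=
    (hT.comp (LocOp.prL _ _)).sub (hR.comp (LocOp.prR _ _))
  have hSz : LocOp k (Sum.elim lab labν) labμ
      (S ∘L prR (κ := ι) : L2 (ι ⊕ ν) G →L[ℂ] L2 μ G) := hS.comp (LocOp.prR _ _)
  have hPL : LocOp k (Sum.elim lab labν) lab (prL : L2 (ι ⊕ ν) G →L[ℂ] L2 ι G) :=
    LocOp.prL _ _
  set D : L2 (ι ⊕ ν) G →L[ℂ] L2 κ G := T ∘L prL - R ∘L prR with hDdef
  set Sz : L2 (ι ⊕ ν) G →L[ℂ] L2 μ G := S ∘L prR with hSzdef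
  have cS : CI (kr S) := CI.kr hS.equivar
  have cR : CI (kr R) := CI.kr hR.equivar
  have cX : CI (imc R (kr S)) := CI.imc hR.equivar cS.inv
  have cT : CI (imc T (⊤ : Submodule ℂ (L2 ι G))) := CI.imc hT.equivar CI.top.inv
  have hrat : Rat k lab (imc prL (kr (pairOp D Sz))) := Rat.imc hPL (Rat.kr (hD.pairOp hSz))
  have hDa : ∀ z, D z = T (prL z) - R (prR z) := fun z => rfl
  have hSa : ∀ z, Sz z = S (prR z) := fun z => rfl
  set Z : Submodule ℂ (L2 (ι ⊕ ν) G) := LF1_both (⊤ : Submodule ℂ (L2 ι G)) (kr S) with hZdef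
  have cZ : CI Z := LF1_ci_both CI.top cS
  have hH : kr (pairOp D Sz) = Z ⊓ kr D := by
    rw [kr_pairOp]
    ext z
    rw [Submodule.mem_inf, Submodule.mem_inf, hZdef, LF1_mem_both, mem_kr (T := Sz), hSa, mem_kr,
      mem_kr]
    constructor
    · rintro ⟨h1, h2⟩
      exact ⟨⟨trivial, h2⟩, h1⟩
    · rintro ⟨⟨_, h2⟩, h1⟩
      exact ⟨h1, h2⟩
  have cH : CI (Z ⊓ kr D) := cZ.inf (CI.kr hD.equivar)
  have key : imc prL (Z ⊓ kr D) = (imc R (kr S)).comap T.toLinearMap := by
    apply eq_of_le_of_dm (CI.imc hPL.equivar cH.inv) (CI.comap hT.equivar cX)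
    · apply imc_le (CI.comap hT.equivar cX).cl
      rintro z ⟨hz, hz2⟩
      have hz3 : D z = 0 := hz2
      rw [hDa, sub_eq_zero] at hz3
      have hz4 := (LF1_mem_both.mp hz).2
      show T (prL z) ∈ imc R (kr S)
      rw [hz3]
      exact mem_imc R hz4
    · have a1 := dm_imc hD.equivar cZ
      have a2 : dm Z = dm (⊤ : Submodule ℂ (L2 ι G)) + dm (kr S) := LF1_dm_both CI.top cS
      have e1 : imc D Z = csup (imc T (⊤ : Submodule ℂ (L2 ι G))) (imc R (kr S)) := by
        apply le_antisymm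
        · apply imc_le (Submodule.isClosed_topologicalClosure _)
          intro z hz
          rw [hDa]
          rw [hZdef, LF1_mem_both] at hz
          exact Submodule.sub_mem _ (le_csup_left _ _ (mem_imc T hz.1))
            (le_csup_right _ _ (mem_imc R hz.2))
        · apply csup_le (Submodule.isClosed_topologicalClosure _)
          · apply imc_le (Submodule.isClosed_topologicalClosure _)
            intro x hx
            have h := mem_imc D (X := Z) (x := inL x) (LF1_mem_both.mpr
              ⟨trivial, by rw [prR_inL]; exact Submodule.zero_mem _⟩)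
            rw [hDa, prL_inL, prR_inL, map_zero, sub_zero] at h
            exact h
          · apply imc_le (Submodule.isClosed_topologicalClosure _)
            intro x hx
            have h := mem_imc D (X := Z) (x := inR x) (LF1_mem_both.mpr
              ⟨trivial, by rw [prR_inR]; exact hx⟩)
            rw [hDa, prL_inR, prR_inR, map_zero, zero_sub] at h
            have h2 := Submodule.neg_mem _ h
            rwa [neg_neg] at h2
      have a3 := dm_imc hPL.equivar cH
      have e2 : (Z ⊓ kr D) ⊓ kr (prL : L2 (ι ⊕ ν) G →L[ℂ] L2 ι G) =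
          LF1_both (⊥ : Submodule ℂ (L2 ι G)) (kr S ⊓ kr R) := by
        ext z
        constructor
        · rintro ⟨⟨hz, hz2⟩, hz3⟩
          have hz2' : D z = 0 := hz2
          have hz3' : prL z = 0 := hz3
          rw [hDa, hz3', map_zero, zero_sub, neg_eq_zero] at hz2'
          have hz := (LF1_mem_both.mp hz).2
          exact LF1_mem_both.mpr ⟨by rw [Submodule.mem_bot]; exact hz3', ⟨hz, hz2'⟩⟩
        · intro hz
          rw [LF1_mem_both] at hz
          obtain ⟨h1, ⟨h3, h4⟩⟩ := hz
          have h1' : prL z = 0 := by rwa [Submodule.mem_bot] at h1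
          have h4' : R (prR z) = 0 := h4
          refine ⟨⟨LF1_mem_both.mpr ⟨trivial, h3⟩, ?_⟩, ?_⟩
          · show D z = 0
            rw [hDa, h1', h4', map_zero, sub_zero]
          · show prL z = 0
            exact h1'
      have a4 : dm (LF1_both (⊥ : Submodule ℂ (L2 ι G)) (kr S ⊓ kr R)) =
          dm (⊥ : Submodule ℂ (L2 ι G)) + dm (kr S ⊓ kr R) := LF1_dm_both CI.bot (cS.inf cR)
      have a5 := dm_imc hR.equivar cS
      have a6 := dm_csup cT cX
      have a7 := dm_comap hT.equivar CI.top cX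
      have a8 := dm_imc hT.equivar CI.top
      rw [e1] at a1
      rw [e2, a4, dm_bot] at a3
      simp only [top_inf_eq] at a7 a8
      linarith
  rw [← key, ← hH]
  exact hrat

end Dm

end Pool.Agent.HI
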