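import Pool.Agent.HI.Defs

set_option autoImplicit false
set_option linter.unusedSectionVars false

noncomputable section

open scoped InnerProductSpace ENNReal Topology
open Classical Filter ContinuousLinearMap

namespace Pool.Agent.HI

open Pool.Agent.VN Pool.Agent.LFT

lemma A6_fin {G D : Type} [Group G] [MulAction G D] (δ m : D)
    (h : Finite (MulAction.stabilizer G δ)) : {g : G | g • δ = m}.Finite := by
  by_cases hne : ∃ g0 : G, g0 • δ = m
  · obtain ⟨g0, hg0⟩ := hne
    have h1 : ((MulAction.stabilizer G δ : Subgroup G) : Set G).Finite := Set.toFinite _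
    refine (h1.image fun s => g0 * s).subset ?_
    intro g hg
    refine ⟨g0⁻¹ * g, ?_, by simp⟩
    show (g0⁻¹ * g) • δ = δ
    rw [mul_smul, (show g • δ = m from hg), ← hg0, inv_smul_smul]
  · convert Set.finite_empty
    ext g
    simp only [Set.mem_setOf_eq, Set.mem_empty_iff_false, iff_false]
    exact fun hg => hne ⟨g, hg⟩

lemma A6_fin2 {G D : Type} [Group G] [MulAction G D] {ι : Type} [Fintype ι] (d : ι → D)
    (hfin : ∀ i, Finite (MulAction.stabilizer G (d i))) (m : D) :
    {p : ι × G | p.2⁻¹ • d p.1 = m}.Finite := by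
  have h1 : (⋃ j : ι, (fun g : G => (j, g⁻¹)) '' {g : G | g • d j = m}).Finite :=
    Set.finite_iUnion fun j => (A6_fin (d j) m (hfin j)).image _
  refine h1.subset ?_
  rintro ⟨j, g⟩ hg
  rw [Set.mem_iUnion]
  exact ⟨j, g⁻¹, hg, by simp⟩

/-- A6: invariant local subspaces are rational over `ℂ` if the stabilisers are finite -/
theorem rat_of_finite {G D : Type} [Group G] [MulAction G D] {ι : Type} [Fintype ι] (d : ι → D)
    (hfin : ∀ i, Finite (MulAction.stabilizer G (d i))) {P : Submodule ℂ (L2 ι G)} (hP : CI P)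
    (hPl : Loc (pV d) P) : Rat ⊤ d P := by
  have c1 : CompleteSpace P := hP.cl.completeSpace_coe
  have c2 : CompleteSpace (Pᗮ : Submodule ℂ (L2 ι G)) :=
    (Submodule.isClosed_orthogonal P).completeSpace_coe
  have hPl' : Loc (pV d) Pᗮ := by
    intro x hx w
    rw [Submodule.mem_orthogonal] at hx ⊢
    intro z hz
    rw [← inner_cut]
    exact hx _ (hPl z hz w)
  set b : ι → L2 ι G := fun i => (Pᗮ : Submodule ℂ (L2 ι G)).starProjection (dl (i, (1 : G))) with hb
  have hbs : ∀ i q, b i q ≠ 0 → pV d q = d i := by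
    intro i q hq
    by_contra hne
    apply hq
    have h1 : cutF (pV d) (d i) (dl (i, (1 : G))) = (dl (i, (1 : G)) : L2 ι G) := by
      ext r
      rw [cutF_apply]
      split_ifs with h
      · rfl
      · rw [dl_apply, if_neg]
        rintro rfl
        apply h
        show (1 : G) • d i = d i
        rw [one_smul]
    have h2 := hPl'.proj (d i) (dl (i, (1 : G)) : L2 ι G)
    rw [h1] at h2
    show ((Pᗮ : Submodule ℂ (L2 ι G)).starProjection (dl (i, (1 : G)))) q = 0
    rw [h2, cutF_apply, if_neg hne]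
  have hsf : ∀ i, (Function.support fun p : ι × G => star (b i (p.1, p.2⁻¹))).Finite := by
    intro i
    refine (A6_fin2 d hfin (d i)).subset ?_
    intro p hp
    have h1 : b i (p.1, p.2⁻¹) ≠ 0 := by
      intro h
      apply hp
      show star (b i (p.1, p.2⁻¹)) = 0
      rw [h, star_zero]
    exact hbs i _ h1
  set c : ι → (ι × G →₀ ℂ) := fun i => Finsupp.ofSupportFinite _ (hsf i) with hc
  have hcapp : ∀ i p, c i p = star (b i (p.1, p.2⁻¹)) := fun i p => rfl
  have hev : ∀ i (x : L2 ι G) (g : G), ev (c i) x g = ⟪lt g (b i), x⟫_ℂ := by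
    intro i x g
    have h1 := hasSum_inner' (lt g (b i)) x
    let e : ι × G ≃ ι × G := (Equiv.refl ι).prodCongr ((Equiv.inv G).trans (Equiv.mulLeft g))
    have h2 := (e.hasSum_iff).mpr h1
    have h3 : ∀ p : ι × G, ((fun a => star ((lt g (b i)) a) * x a) ∘ e) p =
        c i p * x (p.1, g * p.2⁻¹) := by
      intro p
      rw [hcapp]
      show star ((lt g (b i)) (p.1, g * p.2⁻¹)) * x (p.1, g * p.2⁻¹) = _
      rw [lt_apply]
      simp
    have h4 : HasSum (fun p : ι × G => c i p * x (p.1, g * p.2⁻¹)) ⟪lt g (b i), x⟫_ℂ := by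
      convert h2 using 1
      funext p
      exact (h3 p).symm
    have h5 : HasSum (fun p : ι × G => c i p * x (p.1, g * p.2⁻¹))
        (∑ p ∈ (c i).support, c i p * x (p.1, g * p.2⁻¹)) := by
      apply hasSum_sum_of_ne_finset_zero
      intro p hp
      rw [Finsupp.notMem_support_iff.mp hp, zero_mul]
    rw [ev_def]
    exact h5.unique h4
  have hPeq : P = Sol (Set.range c) := by
    ext x
    have h1 : x ∈ P ↔ (Pᗮ : Submodule ℂ (L2 ι G)).starProjection x = 0 := by
      rw [Submodule.starProjection_apply_eq_zero_iff, Submodule.orthogonal_orthogonal]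
    have h2 : ∀ i g, ev (c i) x g = ((Pᗮ : Submodule ℂ (L2 ι G)).starProjection x) (i, g) := by
      intro i g
      have h3 : lt g (b i) = (Pᗮ : Submodule ℂ (L2 ι G)).starProjection (dl (i, g)) := by
        have h4 := (Invar.proj hP.inv.orthogonal) g (dl (i, (1 : G)) : L2 ι G)
        rw [lt_dl, mul_one] at h4
        exact h4.symm
      rw [hev, h3, ← inner_dl_left (i, g) ((Pᗮ : Submodule ℂ (L2 ι G)).starProjection x)]
      exact Submodule.inner_starProjection_left_eq_right _ _ _
    rw [h1, mem_Sol]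
    constructor
    · rintro h _ ⟨i, rfl⟩ g
      rw [h2, h]
      rfl
    · intro h
      ext ⟨i, g⟩
      rw [← h2]
      exact h _ ⟨i, rfl⟩ g
  rw [hPeq]
  refine Rat.sol _ (Set.finite_range _) ?_ ?_
  · rintro _ ⟨i, rfl⟩ p
    exact Subring.mem_top _
  · rintro _ ⟨i, rfl⟩ g q hq q' hq'
    have key : ∀ r ∈ (c i).support, pV d (r.1, g * r.2⁻¹) = g • d i := by
      intro r hr
      have h1 : b i (r.1, r.2⁻¹) ≠ 0 := by
        intro h
        apply Finsupp.mem_support_iff.mp hr
        rw [hcapp, h, star_zero]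
      have h2 : r.2⁻¹ • d r.1 = d i := hbs i _ h1
      show (g * r.2⁻¹) • d r.1 = g • d i
      rw [mul_smul, h2]
    rw [key q hq, key q' hq']

end Pool.Agent.HI
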