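import Pool.Agent.HI.Defs

set_option autoImplicit false
set_option linter.unusedSectionVars false

noncomputable section

open scoped InnerProductSpace ENNReal Topology
open Classical Filter ContinuousLinearMap

namespace Pool.Agent.HI

open Pool.Agent.VN Pool.Agent.LFT

/-- finitely many local equations are the kernel of a local matrix, over every image -/
theorem A2_kr {G : Type} [Group G] {k : Subring ℂ} {M : Type} [MulAction G M] {ι : Type}
    [Fintype ι] {lab : ι → M} (C : Set (ι × G →₀ ℂ)) (hC : C.Finite) (hk : ∀ c ∈ C, CoefIn k c)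
    (hl : ∀ c ∈ C, LocF (pV lab) c) :
    ∃ (μ : Type) (_ : Fintype μ) (lab' : μ → M) (B : μ → (ι × G →₀ ℂ)),
      (∀ j, CoefIn k (B j)) ∧ (∀ j, ∀ p ∈ (B j).support, p.2⁻¹ • lab p.1 = lab' j) ∧
      ∀ (H : Type) [Group H] (π : G →* H),
        (kr (mulR fun j => mapF π (B j)) : Submodule ℂ (L2 ι H)) = Sol (mapF π '' C) := by
  set C' : Set (ι × G →₀ ℂ) := {c | c ∈ C ∧ c ≠ 0} with hC'
  have hfin : C'.Finite := hC.subset fun c hc => hc.1
  let _ : Fintype C' := hfin.fintype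
  have hne : ∀ c : C', ∃ q, q ∈ c.1.support := fun c => by
    have h := c.2.2
    exact Finsupp.support_nonempty_iff.mpr h
  choose q0 hq0 using hne
  refine ⟨C', inferInstance, fun c => (q0 c).2⁻¹ • lab (q0 c).1, fun c => c.1,
    fun c => hk c.1 c.2.1, fun c p hp => ?_, ?_⟩
  · have h := hl c.1 c.2.1 1 p hp (q0 c) (hq0 c)
    simpa [pV] using h
  · intro H _ π
    have h2 : (kr (mulR fun c : C' => mapF π c.1) : Submodule ℂ (L2 ι H))
        = Sol (Set.range (fun c : C' => mapF π c.1)) := ker_mulR _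
    rw [h2]
    ext x
    rw [mem_Sol, mem_Sol]
    constructor
    · rintro h _ ⟨c, hc, rfl⟩
      by_cases h0 : c = 0
      · subst h0
        intro g
        rw [ev_mapF]
        simp
      · exact h _ ⟨⟨c, hc, h0⟩, rfl⟩
    · rintro h _ ⟨c, rfl⟩
      exact h _ ⟨c.1, c.2.1, rfl⟩

/-- the equations identifying the coordinates at darts with the same end, over an image -/
theorem A2_D_sol {Δ V : Type} {G H : Type} [Group G] [Group H] (π : G →* H) (α : Δ → V)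
    (ι₀ : Type) (F : Finset Δ) (x : L2 (JJ ι₀ F) H) : x ∈ Sol (mapF π '' LF5_D G α ι₀ F) ↔
      ∀ (i : ι₀) (u v : F), α u.1 = α v.1 → ∀ g, x ((i, u), g) = x ((i, v), g) := by
  rw [mem_Sol]
  constructor
  · intro h i u v huv g
    have h1 := h _ ⟨_, ⟨⟨(i, u, v), huv⟩, rfl⟩, rfl⟩ g
    rw [mapF_sub, mapF_single, mapF_single, ev_sub', ev_single, ev_single] at h1
    simpa [sub_eq_zero] using h1
  · rintro h _ ⟨_, ⟨a, rfl⟩, rfl⟩ g
    rw [mapF_sub, mapF_single, mapF_single, ev_sub', ev_single, ev_single]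
    have h1 := h a.1.1 a.1.2.1 a.1.2.2 a.2 g
    simp [h1]

/-- A2: functorial linearisation along a tree -/
theorem exists_linH {G : Type} [Group G] (k : Subring ℂ) {D A B : Type} [MulAction G D]
    [MulAction G A] [MulAction G B] {a : D → A} {b : D → B} (ha : Eqv G a) (hb : Eqv G b)
    (δ0 : D) (hconn : ∀ δ, Conn a b δ0 δ) {ι₀ : Type} [Fintype ι₀] (C : Set (ι₀ × G →₀ ℂ))
    (hC : C.Finite) (hk : ∀ c ∈ C, CoefIn k c) :
    ∃ (ι : Type) (_ : Fintype ι) (d : ι → D) (μ0 μ1 : Type) (_ : Fintype μ0) (_ : Fintype μ1)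
      (lab0 : μ0 → A) (lab1 : μ1 → B) (B0 : μ0 → (ι × G →₀ ℂ)) (B1 : μ1 → (ι × G →₀ ℂ)),
      (∀ j, CoefIn k (B0 j)) ∧ (∀ j, CoefIn k (B1 j)) ∧
      (∀ j, ∀ p ∈ (B0 j).support, p.2⁻¹ • a (d p.1) = lab0 j) ∧
      (∀ j, ∀ p ∈ (B1 j).support, p.2⁻¹ • b (d p.1) = lab1 j) ∧
      ∀ (H : Type) [Group H] (π : G →* H),
        dm ((kr (mulR fun j => mapF π (B0 j)) : Submodule ℂ (L2 ι H)) ⊓
          kr (mulR fun j => mapF π (B1 j)))
          = vdim (Sol (mapF π '' C) : Set (L2 ι₀ H)) := by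
  obtain ⟨T, hadj⟩ : ∃ T : SimpleGraph D, ∀ e e', T.Adj e e' ↔
      (e ≠ e' ∧ (a e = a e' ∨ b e = b e')) :=
    ⟨{ Adj := fun e e' => e ≠ e' ∧ (a e = a e' ∨ b e = b e')
       symm := ⟨fun e e' h => ⟨h.1.symm, h.2.imp Eq.symm Eq.symm⟩⟩
       loopless := ⟨fun e h => h.1 rfl⟩ }, fun _ _ => Iff.rfl⟩
  have hreach : ∀ δ : D, T.Reachable δ0 δ := by
    intro δ
    have hδ := hconn δ
    unfold Conn at hδ
    induction hδ with
    | refl => exact SimpleGraph.Reachable.refl _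
    | @tail b' c' _ h ih =>
      by_cases hbc : b' = c'
      · exact hbc ▸ ih
      · exact ih.trans (SimpleGraph.Adj.reachable ((hadj _ _).mpr ⟨hbc, h⟩))
  have hT : T.Preconnected := fun u v => (hreach u).symm.trans (hreach v)
  obtain ⟨F, hF, hA⟩ := exists_connF hT δ0
    (hC.toFinset.biUnion fun c => c.support.image fun p => p.2 • δ0)
  have hcF : ∀ c ∈ C, ∀ p ∈ c.support, p.2 • δ0 ∈ F := by
    intro c hc p hp
    apply hA
    rw [Finset.mem_biUnion]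
    exact ⟨c, hC.mem_toFinset.mpr hc, Finset.mem_image.mpr ⟨p, hp, rfl⟩⟩
  have hcoef : ∀ c ∈ scF hF.1 '' C, CoefIn k c := by
    rintro _ ⟨c, hc, rfl⟩
    exact coefIn_sum _ _ _ fun p _ => coefIn_single _ _ _ (hk c hc p)
  have hlift : ∀ {V : Type} [MulAction G V] (α : D → V) (_ : ∀ (g : G) δ, α (g • δ) = g • α δ),
      ∀ c ∈ scF hF.1 '' C, LocF (pV (fun i => α (sJ ι₀ F i))) c := by
    rintro V _ α hα _ ⟨c, hc, rfl⟩ g q hq q' hq'
    have h2 := scF_loc hF.1 c (hcF c hc) g q hq q' hq'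
    have e : ∀ r : JJ ι₀ F × G, pV (fun i => α (sJ ι₀ F i)) r = α (pV (sJ ι₀ F) r) := by
      intro r
      show r.2 • α (sJ ι₀ F r.1) = α (r.2 • sJ ι₀ F r.1)
      rw [hα]
    rw [e, e, h2]
  obtain ⟨μ0, f0, lab0, B0, hB0, hL0, hS0⟩ := A2_kr (k := k)
    (lab := fun i => a (sJ ι₀ F i)) (scF hF.1 '' C ∪ LF5_D G a ι₀ F)
    ((hC.image _).union (LF5_D_finite G a ι₀ F))
    (by
      rintro c (hc | hc)
      · exact hcoef c hc
      · exact LF5_D_coef k a ι₀ F c hc)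
    (by
      rintro c (hc | hc)
      · exact hlift a ha c hc
      · exact LF5_D_loc a ι₀ F c hc)
  obtain ⟨μ1, f1, lab1, B1, hB1, hL1, hS1⟩ := A2_kr (k := k)
    (lab := fun i => b (sJ ι₀ F i)) (LF5_D G b ι₀ F) (LF5_D_finite G b ι₀ F)
    (LF5_D_coef k b ι₀ F) (LF5_D_loc b ι₀ F)
  refine ⟨JJ ι₀ F, inferInstance, sJ ι₀ F, μ0, μ1, f0, f1, lab0, lab1, B0, B1, hB0, hB1, hL0, hL1,
    ?_⟩
  intro H _ π
  rw [hS0 H π, hS1 H π]
  have h2 := vdim_scF π hF C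
  rw [← h2]
  unfold dm
  congr 2
  ext x
  have hx0 := A2_D_sol π a ι₀ F x
  have hx1 := A2_D_sol π b ι₀ F x
  rw [Submodule.mem_inf, Submodule.mem_inf, hx1, mem_Sol, mem_Sol]
  constructor
  · rintro ⟨ha', hb'⟩
    refine ⟨?_, ?_⟩
    · rintro _ ⟨c, hc, rfl⟩
      exact ha' _ ⟨c, Or.inl hc, rfl⟩
    have ha2 := hx0.mp (mem_Sol.mpr (by
      rintro _ ⟨c, hc, rfl⟩
      exact ha' _ ⟨c, Or.inr hc, rfl⟩))
    rw [LinearMap.mem_ker]
    change bd H (e1 ι₀ T F) (e2 ι₀ T F) x = 0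
    ext q
    rw [bd_apply]
    have h3 : x (e1 ι₀ T F q.1, q.2) = x (e2 ι₀ T F q.1, q.2) := by
      obtain ⟨⟨⟨i, u, v⟩, huv⟩, g⟩ := q
      rcases ((hadj _ _).mp huv).2 with h | h
      · exact ha2 i u v h g
      · exact hb' i u v h g
    rw [h3, sub_self]
    rfl
  · rintro ⟨ha', hb'⟩
    have hb2 : bd H (e1 ι₀ T F) (e2 ι₀ T F) x = 0 := LinearMap.mem_ker.mp hb'
    have hall : ∀ (i : ι₀) (u v : F), (a u.1 = a v.1 ∨ b u.1 = b v.1) →
        ∀ g, x ((i, u), g) = x ((i, v), g) := by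
      intro i u v huv g
      by_cases h3 : u = v
      · rw [h3]
      · have h4 : T.Adj u.1 v.1 := (hadj _ _).mpr ⟨fun h => h3 (Subtype.ext h), huv⟩
        have h5 := bd_apply (G := H) (e1 ι₀ T F) (e2 ι₀ T F) x
          ((⟨(i, u, v), h4⟩ : EE ι₀ T F), g)
        rw [hb2] at h5
        have h6 : x ((i, u), g) - x ((i, v), g) = 0 := h5.symm
        exact sub_eq_zero.mp h6
    refine ⟨?_, fun i u v huv g => hall i u v (Or.inr huv) g⟩
    rintro _ ⟨c, hc | hc, rfl⟩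
    · exact ha' _ ⟨c, hc, rfl⟩
    · exact mem_Sol.mp (hx0.mpr fun i u v huv g => hall i u v (Or.inl huv) g) _ ⟨c, hc, rfl⟩

end Pool.Agent.HI
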