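import Pool.Agent.HI.A1
import Pool.Agent.HI.A2
import Pool.Agent.HI.H2

set_option autoImplicit false
set_option linter.unusedSectionVars false

noncomputable section

open scoped InnerProductSpace ENNReal Topology
open Classical Filter ContinuousLinearMap

namespace Pool.Agent.HI

open Pool.Agent.VN Pool.Agent.LFT Pool.Agent.HX

section Aux

/-- pushing a product of matrices along a homomorphism -/
lemma A3_mapF_compF {G H : Type} [Group G] [Group H] (π : G →* H) {ι κ μ : Type}
    [Fintype κ] [Fintype μ] (B : μ → (κ × G →₀ ℂ)) (A : κ → (ι × G →₀ ℂ)) :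
    (mulR fun j => mapF π (compF B A j))
      = (mulR fun j => mapF π (B j)) ∘L (mulR fun q => mapF π (A q)) := by
  ext x q
  rw [ContinuousLinearMap.comp_apply, mulR_apply, mulR_apply]
  have h1 : mapF π (compF B A q.1) = ∑ p ∈ (B q.1).support, ∑ r ∈ (A p.1).support,
      Finsupp.single ((r.1, π (r.2 * p.2)) : ι × H) (B q.1 p * A p.1 r) := by
    unfold compF
    rw [mapF_eq, Finsupp.mapDomain_finsetSum]
    refine Finset.sum_congr rfl fun p _ => ?_
    rw [Finsupp.mapDomain_finsetSum]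
    refine Finset.sum_congr rfl fun r _ => ?_
    rw [Finsupp.mapDomain_single]
  rw [h1, ev_finsetSum, ev_mapF]
  refine Finset.sum_congr rfl fun p _ => ?_
  rw [ev_finsetSum, mulR_apply, ev_mapF, Finset.mul_sum]
  refine Finset.sum_congr rfl fun r _ => ?_
  rw [ev_single]
  simp only [map_mul, mul_inv_rev, mul_assoc]

/-- the kernel of two families of equations together -/
lemma A3_kr_sum {H : Type} [Group H] {ι κ μ : Type} [Fintype κ] [Fintype μ]
    (A : κ → (ι × H →₀ ℂ)) (B : μ → (ι × H →₀ ℂ)) :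
    (kr (mulR (Sum.elim A B)) : Submodule ℂ (L2 ι H)) = kr (mulR A) ⊓ kr (mulR B) := by
  ext x
  rw [Submodule.mem_inf, mem_kr, mem_kr, mem_kr]
  constructor
  · intro h
    constructor
    · ext q
      have h1 : (mulR (Sum.elim A B) x) (Sum.inl q.1, q.2) = 0 := by rw [h]; rfl
      rw [mulR_apply] at h1
      rw [mulR_apply]
      exact h1
    · ext q
      have h1 : (mulR (Sum.elim A B) x) (Sum.inr q.1, q.2) = 0 := by rw [h]; rfl
      rw [mulR_apply] at h1
      rw [mulR_apply]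
      exact h1
  · rintro ⟨h1, h2⟩
    ext q
    obtain ⟨j, g⟩ := q
    rw [mulR_apply]
    rcases j with j | j
    · have h3 : (mulR A x) (j, g) = 0 := by rw [h1]; rfl
      rw [mulR_apply] at h3
      exact h3
    · have h3 : (mulR B x) (j, g) = 0 := by rw [h2]; rfl
      rw [mulR_apply] at h3
      exact h3

lemma A3_kr_sum' {G H : Type} [Group G] [Group H] (π : G →* H) {ι κ μ : Type} [Fintype κ]
    [Fintype μ] (A : κ → (ι × G →₀ ℂ)) (B : μ → (ι × G →₀ ℂ)) :
    (kr (mulR fun j => mapF π (Sum.elim A B j)) : Submodule ℂ (L2 ι H))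
      = kr (mulR fun j => mapF π (A j)) ⊓ kr (mulR fun j => mapF π (B j)) := by
  rw [← A3_kr_sum]
  congr 2
  funext j
  rcases j with j | j <;> rfl

lemma A3_mapF_id {G : Type} [Group G] {ι κ : Type} (A : κ → (ι × G →₀ ℂ)) :
    (fun j => mapF (MonoidHom.id G) (A j)) = A := by
  funext j
  exact mapF_eq' _

/-- the quantity which converges -/
def A3_Phi {G H : Type} [Group G] [Group H] (π : G →* H) {ι κ μ μ0 μ1 : Type} [Fintype ι]
    [Fintype κ] [Fintype μ] [Fintype μ0] [Fintype μ1] (R : μ → (κ × G →₀ ℂ))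
    (T : ι → (κ × G →₀ ℂ)) (B0 : μ0 → (ι × G →₀ ℂ)) (B1 : μ1 → (ι × G →₀ ℂ)) : ℝ :=
  dm (kr (mulR fun j => mapF π (Sum.elim R (compF B0 T) j)) : Submodule ℂ (L2 κ H))
    + dm (kr (mulR fun j => mapF π (Sum.elim R (compF B1 T) j)) : Submodule ℂ (L2 κ H))
    - dm (kr (mulR fun j => mapF π (Sum.elim R T j)) : Submodule ℂ (L2 κ H))
    - dm (kr (mulR fun j => mapF π (R j)) : Submodule ℂ (L2 κ H))

lemma A3_Phi_eq {G H : Type} [Group G] [Group H] (π : G →* H) {ι κ μ μ0 μ1 : Type} [Fintype ι]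
    [Fintype κ] [Fintype μ] [Fintype μ0] [Fintype μ1] (R : μ → (κ × G →₀ ℂ))
    (T : ι → (κ × G →₀ ℂ)) (B0 : μ0 → (ι × G →₀ ℂ)) (B1 : μ1 → (ι × G →₀ ℂ)) :
    A3_Phi π R T B0 B1
      = dm ((kr (mulR fun j => mapF π (B0 j)) : Submodule ℂ (L2 ι H)) ⊓
          imc (mulR fun j => mapF π (T j)) (kr (mulR fun j => mapF π (R j))))
      + dm ((kr (mulR fun j => mapF π (B1 j)) : Submodule ℂ (L2 ι H)) ⊓
          imc (mulR fun j => mapF π (T j)) (kr (mulR fun j => mapF π (R j))))
      - dm (imc (mulR fun j => mapF π (T j)) (kr (mulR fun j => mapF π (R j))) :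
          Submodule ℂ (L2 ι H)) := by
  unfold A3_Phi
  set r : L2 κ H →L[ℂ] L2 μ H := mulR fun j => mapF π (R j) with hr
  set t : L2 κ H →L[ℂ] L2 ι H := mulR fun j => mapF π (T j) with ht
  set b0 : L2 ι H →L[ℂ] L2 μ0 H := mulR fun j => mapF π (B0 j) with hb0
  set b1 : L2 ι H →L[ℂ] L2 μ1 H := mulR fun j => mapF π (B1 j) with hb1
  have et : Equivar t := mulR_equivar _
  have er : CI (kr r) := CI.kr (mulR_equivar _)
  have e0 : CI (kr b0) := CI.kr (mulR_equivar _)
  have e1 : CI (kr b1) := CI.kr (mulR_equivar _)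
  have c0 : (kr (mulR fun j => mapF π (compF B0 T j)) : Submodule ℂ (L2 κ H))
      = (kr b0).comap t.toLinearMap := by
    rw [A3_mapF_compF]
    rfl
  have c1 : (kr (mulR fun j => mapF π (compF B1 T j)) : Submodule ℂ (L2 κ H))
      = (kr b1).comap t.toLinearMap := by
    rw [A3_mapF_compF]
    rfl
  rw [A3_kr_sum', A3_kr_sum', A3_kr_sum', c0, c1, dm_comap et er e0, dm_comap et er e1,
    inf_comm (kr b0), inf_comm (kr b1)]
  have h := dm_imc et er
  linarith

lemma A3_Phi_le {G H : Type} [Group G] [Group H] (π : G →* H) {ι κ μ μ0 μ1 : Type} [Fintype ι]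
    [Fintype κ] [Fintype μ] [Fintype μ0] [Fintype μ1] (R : μ → (κ × G →₀ ℂ))
    (T : ι → (κ × G →₀ ℂ)) (B0 : μ0 → (ι × G →₀ ℂ)) (B1 : μ1 → (ι × G →₀ ℂ)) :
    A3_Phi π R T B0 B1 ≤ dm ((kr (mulR fun j => mapF π (B0 j)) : Submodule ℂ (L2 ι H)) ⊓
      kr (mulR fun j => mapF π (B1 j))) := by
  rw [A3_Phi_eq]
  set r : L2 κ H →L[ℂ] L2 μ H := mulR fun j => mapF π (R j) with hr
  set t : L2 κ H →L[ℂ] L2 ι H := mulR fun j => mapF π (T j) with ht
  set b0 : L2 ι H →L[ℂ] L2 μ0 H := mulR fun j => mapF π (B0 j) with hb0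
  set b1 : L2 ι H →L[ℂ] L2 μ1 H := mulR fun j => mapF π (B1 j) with hb1
  have et : Equivar t := mulR_equivar _
  have er : CI (kr r) := CI.kr (mulR_equivar _)
  have e0 : CI (kr b0) := CI.kr (mulR_equivar _)
  have e1 : CI (kr b1) := CI.kr (mulR_equivar _)
  have eS : CI (imc t (kr r)) := CI.imc et er.inv
  have h := dm_csup (e0.inf eS) (e1.inf eS)
  have h1 : csup (kr b0 ⊓ imc t (kr r)) (kr b1 ⊓ imc t (kr r)) ≤ imc t (kr r) :=
    csup_le eS.cl inf_le_right inf_le_right
  have h2 : (kr b0 ⊓ imc t (kr r)) ⊓ (kr b1 ⊓ imc t (kr r)) ≤ kr b0 ⊓ kr b1 :=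
    inf_le_inf inf_le_left inf_le_left
  have h3 := dm_mono h1
  have h4 := dm_mono h2
  linarith

lemma A3_coefIn_compF {G : Type} [Group G] {k : Subring ℂ} {ι κ μ : Type}
    (B : μ → (κ × G →₀ ℂ)) (A : κ → (ι × G →₀ ℂ)) (hB : ∀ j, CoefIn k (B j))
    (hA : ∀ j, CoefIn k (A j)) (j : μ) : CoefIn k (compF B A j) :=
  coefIn_sum _ _ _ fun p _ => coefIn_sum _ _ _ fun q _ =>
    coefIn_single _ _ _ (k.mul_mem (hB j p) (hA p.1 q))

lemma A3_loc_compF {G M : Type} [Group G] [MulAction G M] {ι κ μ : Type} {lab : ι → M}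
    {lab' : κ → M} {lab'' : μ → M} (B : μ → (κ × G →₀ ℂ)) (A : κ → (ι × G →₀ ℂ))
    (hB : ∀ j, ∀ p ∈ (B j).support, p.2⁻¹ • lab' p.1 = lab'' j)
    (hA : ∀ j, ∀ p ∈ (A j).support, p.2⁻¹ • lab p.1 = lab' j) (j : μ) :
    ∀ p ∈ (compF B A j).support, p.2⁻¹ • lab p.1 = lab'' j := by
  intro r hr
  obtain ⟨p, hp, q, hq, rfl⟩ := support_compF B A j hr
  simp only
  rw [mul_inv_rev, mul_smul, hA p.1 q hq, hB j p hp]

/-- all places of a matrix pushed along an injective homomorphism -/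
lemma A3_kerDim_inj {G K : Type} [Group G] [Group K] (f : K →* G) (hf : Function.Injective f)
    {m n : ℕ} (A : Matrix (Fin m) (Fin n) (K →₀ ℂ)) : kerDim (pushMat f A) = kerDim A := by
  rw [kerDim_pushMat, vdim_induced f hf, kerDim_eq]

lemma A3_pushMat_comp {G K H : Type} [Group G] [Group K] [Group H] (f : K →* G) (π : G →* H)
    {m n : ℕ} (A : Matrix (Fin m) (Fin n) (K →₀ ℂ)) :
    pushMat π (pushMat f A) = pushMat (π.comp f) A := by
  funext a b
  unfold pushMat
  rw [← Finsupp.mapDomain_comp]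
  rfl

/-- a matrix with entries supported in a subgroup comes from the subgroup -/
lemma A3_restrict {G : Type} [Group G] {m n : ℕ} (K : Subgroup G)
    (A : Matrix (Fin m) (Fin n) (G →₀ ℂ)) (h : ∀ i j, ∀ g ∈ (A i j).support, g ∈ K) :
    ∃ A' : Matrix (Fin m) (Fin n) (K →₀ ℂ), (∀ i j (g : K), A' i j g = A i j (g : G)) ∧
      A = pushMat K.subtype A' := by
  refine ⟨fun i j => Finsupp.comapDomain K.subtype (A i j) (Subtype.val_injective.injOn),
    fun i j g => rfl, ?_⟩
  funext i j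
  symm
  apply Finsupp.mapDomain_comapDomain _ Subtype.val_injective
  intro g hg
  exact ⟨⟨g, h i j g hg⟩, rfl⟩

end Aux

/-- A3: approximation for a group acting on a tree, from the approximate formula and
approximation for the stabilisers -/
theorem approx_of_af {G : Type} [Group G] (k : Subring ℂ) {D A B : Type} [MulAction G D]
    [MulAction G A] [MulAction G B] {a : D → A} {b : D → B} (ha : Eqv G a) (hb : Eqv G b)
    (δ0 : D) (hconn : ∀ δ, Conn a b δ0 δ) (hAF : AF k G a b) {I : Type}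
    (l : Filter I) {H : I → Type} [∀ i, Group (H i)] (π : ∀ i, G →* H i)
    (hπ : ∀ g : G, g ≠ 1 → ∀ᶠ i in l, π i g ≠ 1)
    (h0 : ∀ v : A, ApproxAlong k l (fun i => (π i).comp (MulAction.stabilizer G v).subtype))
    (h1 : ∀ e : B, ApproxAlong k l (fun i => (π i).comp (MulAction.stabilizer G e).subtype)) :
    ApproxAlong k l π := by
  intro m n M hM
  have hCf : (Set.range (colF M)).Finite := Set.finite_range _
  have hCk : ∀ c ∈ Set.range (colF M), CoefIn k c := by
    rintro _ ⟨j, rfl⟩ ⟨i, g⟩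
    rw [colF_apply]
    exact hM i j g
  obtain ⟨ι, _, d, μ0, μ1, _, _, lab0, lab1, B0, B1, hk0, hk1, hl0, hl1, hdim⟩ :=
    exists_linH k ha hb δ0 hconn (Set.range (colF M)) hCf hCk
  have hG := hdim G (MonoidHom.id G)
  rw [A3_mapF_id, A3_mapF_id, mapF_id_image, ← kerDim_eq] at hG
  have hHi : ∀ i, dm ((kr (mulR fun j => mapF (π i) (B0 j)) : Submodule ℂ (L2 ι (H i))) ⊓
      kr (mulR fun j => mapF (π i) (B1 j))) = kerDim (pushMat (π i) M) := by
    intro i
    rw [hdim (H i) (π i), kerDim_pushMat]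
  rw [Metric.tendsto_nhds]
  intro ε hε
  have hK0 : Rat k (fun i => a (d i)) (kr (mulR B0) : Submodule ℂ (L2 ι G)) :=
    Rat.kr (lab' := lab0) ⟨B0, hk0, hl0, rfl⟩
  have hK1 : Rat k (fun i => b (d i)) (kr (mulR B1) : Submodule ℂ (L2 ι G)) :=
    Rat.kr (lab' := lab1) ⟨B1, hk1, hl1, rfl⟩
  obtain ⟨S, ⟨κ, μ, _, _, labκ, labμ, R, T, ⟨AR, hR1, hR2, hR3⟩, ⟨AT, hT1, hT2, hT3⟩, hS⟩, hS2⟩ :=
    hAF ι _ d _ _ hK0 hK1 (ε / 2) (half_pos hε)
  have hphi : kerDim M - ε / 2 ≤ A3_Phi (MonoidHom.id G) AR AT B0 B1 := by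
    rw [A3_Phi_eq, A3_mapF_id, A3_mapF_id, A3_mapF_id, A3_mapF_id, ← hR3, ← hT3, ← hS, ← hG]
    exact hS2
  -- convergence of the four terms
  have ca : ∀ (g : G) (x : D), a (g • x) = g • a x := ha
  have cb : ∀ (g : G) (x : D), b (g • x) = g • b x := hb
  have lim : Tendsto (fun i => A3_Phi (π i) AR AT B0 B1) l
      (𝓝 (A3_Phi (MonoidHom.id G) AR AT B0 B1)) := by
    unfold A3_Phi
    refine Tendsto.sub (Tendsto.sub (Tendsto.add ?_ ?_) ?_) ?_
    · rw [A3_mapF_id]
      refine approx_local k l π h0 (lab := fun x => a (labκ x))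
        (lab' := Sum.elim (fun x => a (labμ x)) lab0) _ ?_ ?_
      · rintro (j | j)
        · exact hR1 j
        · exact A3_coefIn_compF B0 AT hk0 hT1 j
      · rintro (j | j) p hp
        · show p.2⁻¹ • a (labκ p.1) = a (labμ j)
          rw [← ca, hR2 j p hp]
        · refine A3_loc_compF (lab := fun x => a (labκ x)) (lab' := fun x => a (d x)) B0 AT
            hl0 ?_ j p hp
          intro j p hp
          rw [← ca, hT2 j p hp]
    · rw [A3_mapF_id]
      refine approx_local k l π h1 (lab := fun x => b (labκ x))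
        (lab' := Sum.elim (fun x => b (labμ x)) lab1) _ ?_ ?_
      · rintro (j | j)
        · exact hR1 j
        · exact A3_coefIn_compF B1 AT hk1 hT1 j
      · rintro (j | j) p hp
        · show p.2⁻¹ • b (labκ p.1) = b (labμ j)
          rw [← cb, hR2 j p hp]
        · refine A3_loc_compF (lab := fun x => b (labκ x)) (lab' := fun x => b (d x)) B1 AT
            hl1 ?_ j p hp
          intro j p hp
          rw [← cb, hT2 j p hp]
    · rw [A3_mapF_id]
      refine approx_local k l π h0 (lab := fun x => a (labκ x))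
        (lab' := Sum.elim (fun x => a (labμ x)) (fun x => a (d x))) _ ?_ ?_
      · rintro (j | j)
        · exact hR1 j
        · exact hT1 j
      · rintro (j | j) p hp
        · show p.2⁻¹ • a (labκ p.1) = a (labμ j)
          rw [← ca, hR2 j p hp]
        · show p.2⁻¹ • a (labκ p.1) = a (d j)
          rw [← ca, hT2 j p hp]
    · rw [A3_mapF_id]
      refine approx_local k l π h0 (lab := fun x => a (labκ x))
        (lab' := fun x => a (labμ x)) _ hR1 ?_
      intro j p hp
      rw [← ca, hR2 j p hp]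
  have hlow : ∀ᶠ i in l, A3_Phi (MonoidHom.id G) AR AT B0 B1 - ε / 4
      ≤ A3_Phi (π i) AR AT B0 B1 := by
    have h2 : ∀ᶠ x in 𝓝 (A3_Phi (MonoidHom.id G) AR AT B0 B1),
        A3_Phi (MonoidHom.id G) AR AT B0 B1 - ε / 4 < x :=
      lt_mem_nhds (by linarith)
    filter_upwards [lim.eventually h2] with i hi
    exact hi.le
  filter_upwards [hlow, eventually_le_add π hπ M (half_pos hε)] with i h2 h3
  have h4 := A3_Phi_le (π i) AR AT B0 B1
  rw [hHi i] at h4
  rw [Real.dist_eq, abs_lt]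
  constructor <;> linarith

/-- A3: approximation passes to subgroups -/
theorem approx_of_injective (k : Subring ℂ) {G K : Type} [Group G] [Group K] {I : Type}
    (l : Filter I) {H : I → Type} [∀ i, Group (H i)] (π : ∀ i, G →* H i) (f : K →* G)
    (hf : Function.Injective f) (h : ApproxAlong k l π) :
    ApproxAlong k l (fun i => (π i).comp f) := by
  intro m n M hM
  have h1 := h m n (pushMat f M) (pushMat_coef k _ M hM)
  rw [A3_kerDim_inj f hf] at h1
  refine h1.congr fun i => ?_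
  rw [A3_pushMat_comp]

/-- A3: approximation is a local property -/
theorem approx_of_union (k : Subring ℂ) {G : Type} [Group G] {I : Type}
    (l : Filter I) {H : I → Type} [∀ i, Group (H i)] (π : ∀ i, G →* H i)
    (K : Finset G → Subgroup G) (hK : ∀ F, ∀ g ∈ F, g ∈ K F)
    (h : ∀ F, ApproxAlong k l (fun i => (π i).comp (K F).subtype)) : ApproxAlong k l π := by
  intro m n A hA
  set F : Finset G :=
    Finset.univ.biUnion fun i => Finset.univ.biUnion fun j => (A i j).support with hF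
  obtain ⟨A', hA', e⟩ := A3_restrict (K F) A (fun i j g hg => hK F g
    (Finset.mem_biUnion.2 ⟨i, Finset.mem_univ _, Finset.mem_biUnion.2 ⟨j, Finset.mem_univ _, hg⟩⟩))
  have h1 := h F m n A' (fun i j g => by rw [hA' i j g]; exact hA i j _)
  rw [← A3_kerDim_inj (K F).subtype (Subgroup.subtype_injective _), ← e] at h1
  refine h1.congr fun i => ?_
  rw [← A3_pushMat_comp, ← e]

/-- A3: approximation for the trivial group -/
theorem approx_triv (k : Subring ℂ) {G : Type} [Group G] [Subsingleton G] {I : Type}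
    (l : Filter I) {H : I → Type} [∀ i, Group (H i)] (π : ∀ i, G →* H i) :
    ApproxAlong k l π := by
  intro m n A _
  have e : (fun i => kerDim (pushMat (π i) A)) = fun _ => kerDim A := by
    funext i
    exact A3_kerDim_inj (π i) (fun _ _ _ => Subsingleton.elim _ _) A
  rw [e]
  exact tendsto_const_nhds

end Pool.Agent.HI
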