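import Pool.Agent.HI.Defs
import Pool.Agent.HX.ApMain

set_option autoImplicit false
set_option linter.unusedSectionVars false

noncomputable section

open scoped InnerProductSpace ENNReal Topology
open Classical Filter ContinuousLinearMap

namespace Pool.Agent.HI

open Pool.Agent.VN Pool.Agent.LFT Pool.Agent.HX

section A1

variable {G : Type} [Group G] {k : Subring ℂ} {M : Type} [MulAction G M]

/-- the coordinates of a local system at the places in the orbit of a base point, functorially -/
lemma A1_base {κ μ : Type} [Fintype κ] [Fintype μ] {lab : κ → M} {lab' : μ → M}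
    (A : μ → (κ × G →₀ ℂ)) (hk : ∀ j, CoefIn k (A j))
    (hA : ∀ j, ∀ p ∈ (A j).support, p.2⁻¹ • lab p.1 = lab' j) (b : M) :
    ∃ C : Set ({i : κ // ∃ g : G, g • b = lab i} × MulAction.stabilizer G b →₀ ℂ),
      C.Finite ∧ (∀ c ∈ C, ∀ p, c p ∈ k) ∧
      ∀ (H : Type) [Group H] (π : G →* H)
        (_ : (Sol (mapF (π.comp (MulAction.stabilizer G b).subtype) '' C)).HasOrthogonalProjection)
        (_ : (Sol (Set.range fun j => mapF π (A j))).HasOrthogonalProjection)
        (i : {i : κ // ∃ g : G, g • b = lab i}),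
        ‖(Sol (Set.range fun j => mapF π (A j))).starProjection (dl (i.1, (1 : H)))‖ ^ 2
          = ‖(Sol (mapF (π.comp (MulAction.stabilizer G b).subtype) '' C)).starProjection
              (dl (i, (1 : H)))‖ ^ 2 := by
  choose h hh using fun i : {i : κ // ∃ g : G, g • b = lab i} => i.2
  choose h' hh' using fun j : {j : μ // ∃ g : G, g • b = lab' j} => j.2
  have hP : ∀ (j : {j : μ // ∃ g : G, g • b = lab' j}) (p : κ × G), p ∈ (A j.1).support →
      ∃ g : G, g • b = lab p.1 := by
    intro j p hp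
    refine ⟨p.2 * h' j, ?_⟩
    rw [mul_smul, hh' j, ← hA j.1 p hp, smul_inv_smul]
  have hmem : ∀ (j : {j : μ // ∃ g : G, g • b = lab' j}) (p : κ × G) (hp : p ∈ (A j.1).support),
      (h ⟨p.1, hP j p hp⟩)⁻¹ * p.2 * h' j ∈ MulAction.stabilizer G b := by
    intro j p hp
    rw [MulAction.mem_stabilizer_iff, mul_smul, mul_smul, hh' j, ← hA j.1 p hp, smul_inv_smul,
      inv_smul_eq_iff]
    exact (hh ⟨p.1, hP j p hp⟩).symm
  set c : {j : μ // ∃ g : G, g • b = lab' j} →
      ({i : κ // ∃ g : G, g • b = lab i} × MulAction.stabilizer G b →₀ ℂ) := fun j =>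
    ∑ p ∈ (A j.1).support.attach, Finsupp.single
      (⟨p.1.1, hP j p.1 p.2⟩, ⟨(h ⟨p.1.1, hP j p.1 p.2⟩)⁻¹ * p.1.2 * h' j, hmem j p.1 p.2⟩)
      (A j.1 p.1) with hc
  refine ⟨Set.range c, Set.finite_range c, ?_, ?_⟩
  · rintro _ ⟨j, rfl⟩
    exact coefIn_sum _ _ _ fun p _ => coefIn_single _ _ _ (hk j.1 p.1)
  intro H _ π i1 i2 i
  have hev : ∀ (j : {j : μ // ∃ g : G, g • b = lab' j})
      (x : {i : κ // ∃ g : G, g • b = lab i} × H → ℂ)
      (η : H), ev (mapF (π.comp (MulAction.stabilizer G b).subtype) (c j)) x η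
        = ∑ p ∈ (A j.1).support.attach, A j.1 p.1 * x (⟨p.1.1, hP j p.1 p.2⟩,
          η * (π ((h ⟨p.1.1, hP j p.1 p.2⟩)⁻¹ * p.1.2 * h' j))⁻¹) := by
    intro j x η
    rw [hc, mapF_eq]
    simp only
    rw [Finsupp.mapDomain_finsetSum, ev_finsetSum]
    refine Finset.sum_congr rfl fun p _ => ?_
    rw [Finsupp.mapDomain_single, ev_single]
    rfl
  set J : {i : κ // ∃ g : G, g • b = lab i} × H → κ × H :=
    fun q => (q.1.1, q.2 * (π (h q.1))⁻¹) with hJ
  have hJi : Function.Injective J := by
    rintro ⟨i, g⟩ ⟨i', g'⟩ he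
    simp only [hJ, Prod.mk.injEq] at he
    obtain ⟨h1, h2⟩ := he
    have h3 : i = i' := Subtype.ext h1
    subst h3
    rw [mul_right_cancel h2]
  have hpull : ∀ z ∈ Sol (Set.range fun j => mapF π (A j)),
      pull J hJi z ∈ Sol (mapF (π.comp (MulAction.stabilizer G b).subtype) '' Set.range c) := by
    rintro z hz _ ⟨_, ⟨j, rfl⟩, rfl⟩ η
    rw [hev, ← hz (mapF π (A j.1)) ⟨j.1, rfl⟩ (η * (π (h' j))⁻¹), ev_mapF]
    refine Eq.trans ?_ (Finset.sum_attach (A j.1).support
      (fun p => A j.1 p * z (p.1, η * (π (h' j))⁻¹ * (π p.2)⁻¹)))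
    refine Finset.sum_congr rfl fun p _ => ?_
    rw [pull_apply]
    congr 2
    simp only [hJ]
    rw [map_mul, map_mul, map_inv]
    group
  have hpush : ∀ x ∈ Sol (mapF (π.comp (MulAction.stabilizer G b).subtype) '' Set.range c),
      push J hJi x ∈ Sol (Set.range fun j => mapF π (A j)) := by
    rintro x hx _ ⟨j, rfl⟩ g
    simp only
    rw [ev_mapF]
    by_cases hj : ∃ g : G, g • b = lab' j
    · rw [← hx (mapF (π.comp (MulAction.stabilizer G b).subtype) (c ⟨j, hj⟩))
        ⟨_, ⟨_, rfl⟩, rfl⟩ (g * π (h' ⟨j, hj⟩)), hev]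
      refine Eq.trans (Finset.sum_attach (A j).support
        (fun p => A j p * (push J hJi x) (p.1, g * (π p.2)⁻¹))).symm ?_
      refine Finset.sum_congr rfl fun p _ => ?_
      rw [← push_apply J hJi]
      congr 2
      simp only [hJ]
      rw [map_mul, map_mul, map_inv]
      group
    · refine Finset.sum_eq_zero fun p hp => ?_
      rw [push_apply_of_notMem, mul_zero]
      rintro ⟨i, η⟩ he
      simp only [hJ, Prod.mk.injEq] at he
      obtain ⟨h1, h2⟩ := he
      apply hj
      refine ⟨p.2⁻¹ * h i, ?_⟩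
      rw [mul_smul, hh i, h1]
      exact hA j p hp
  have hdl : (dl (i.1, (1 : H)) : L2 κ H)
      = lt (π (h i)) (push J hJi (dl (i, (1 : H)))) := by
    rw [push_dl]
    show _ = lt (π (h i)) (dl (i.1, (1 : H) * (π (h i))⁻¹))
    rw [lt_dl]
    congr 2
    simp
  have hw : (Sol (Set.range fun j => mapF π (A j))).starProjection (dl (i.1, (1 : H)))
      = lt (π (h i)) (push J hJi
          ((Sol (mapF (π.comp (MulAction.stabilizer G b).subtype) '' Set.range c)).starProjection
          (dl (i, (1 : H))))) := by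
    apply Submodule.eq_starProjection_of_mem_of_inner_eq_zero
    · exact Sol_invar _ _ _ (hpush _ (Submodule.starProjection_apply_mem _ _))
    · intro z hz
      rw [hdl, ← map_sub, ← map_sub, inner_lt_left, push, ContinuousLinearMap.adjoint_inner_left]
      exact (Sol (mapF (π.comp (MulAction.stabilizer G b).subtype) ''
        Set.range c)).starProjection_inner_eq_zero _ _ (hpull _ (Sol_invar _ _ _ hz))
  rw [hw, norm_lt]
  have h1 : ∀ x, ‖push J hJi x‖ ^ 2 = ‖x‖ ^ 2 := by
    intro x
    have h2 : ⟪push J hJi x, push J hJi x⟫_ℂ = ⟪x, x⟫_ℂ := by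
      conv_lhs => rw [push]
      rw [ContinuousLinearMap.adjoint_inner_left]
      congr 1
      ext p
      rw [pull_apply]
      exact push_apply J hJi x p
    rw [inner_self_eq_norm_sq_to_K, inner_self_eq_norm_sq_to_K] at h2
    exact_mod_cast h2
  exact h1 _

/-- the dimension of the solutions of a local system is a finite sum of dimensions over the
stabilisers, functorially -/
lemma A1_sum {κ μ : Type} [Fintype κ] [Fintype μ] {lab : κ → M} {lab' : μ → M}
    (A : μ → (κ × G →₀ ℂ)) (hk : ∀ j, CoefIn k (A j))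
    (hA : ∀ j, ∀ p ∈ (A j).support, p.2⁻¹ • lab p.1 = lab' j) :
    ∃ (s : Finset (MulAction.orbitRel.Quotient G M))
      (C : ∀ y : MulAction.orbitRel.Quotient G M,
        Set ({i : κ // ∃ g : G, g • Quotient.out y = lab i}
          × MulAction.stabilizer G (Quotient.out y) →₀ ℂ)),
      (∀ y, (C y).Finite) ∧ (∀ y, ∀ c ∈ C y, ∀ p, c p ∈ k) ∧
      ∀ (H : Type) [Group H] (π : G →* H),
        vdim (Sol (Set.range fun j => mapF π (A j)) : Set (L2 κ H))
          = ∑ y ∈ s, vdim (Sol (mapF (π.comp (MulAction.stabilizer G (Quotient.out y)).subtype) ''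
              C y) : Set (L2 {i : κ // ∃ g : G, g • Quotient.out y = lab i} H)) := by
  choose C hC1 hC2 hC3 using fun y : MulAction.orbitRel.Quotient G M =>
    A1_base (k := k) A hk hA (Quotient.out y)
  set o : κ → MulAction.orbitRel.Quotient G M := fun i => Quotient.mk'' (lab i) with ho
  refine ⟨Finset.univ.image o, C, hC1, hC2, ?_⟩
  intro H _ π
  have c1 : CompleteSpace (Sol (Set.range fun j => mapF π (A j))) :=
    (Sol_closed _).completeSpace_coe
  rw [vdim_eq_sum]
  rw [← Finset.sum_fiberwise_of_maps_to (s := Finset.univ) (t := Finset.univ.image o) (g := o)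
    (fun i _ => Finset.mem_image_of_mem _ (Finset.mem_univ i))]
  refine Finset.sum_congr rfl fun y _ => ?_
  have c2 : CompleteSpace (Sol (mapF (π.comp
      (MulAction.stabilizer G (Quotient.out y)).subtype) '' C y)) :=
    (Sol_closed _).completeSpace_coe
  rw [vdim_eq_sum]
  rw [← Finset.sum_congr rfl (fun i _ => hC3 y H π inferInstance inferInstance i)]
  refine Finset.sum_subtype _ ?_ (fun i =>
    ‖(Sol (Set.range fun j => mapF π (A j))).starProjection (dl (i, (1 : H)))‖ ^ 2)
  intro i
  rw [Finset.mem_filter]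
  constructor
  · rintro ⟨_, h1⟩
    have h2 : (Quotient.mk'' (lab i) : MulAction.orbitRel.Quotient G M)
        = Quotient.mk'' (Quotient.out y) := by
      rw [Quotient.out_eq']
      exact h1
    have h3 := Quotient.exact h2
    exact h3
  · rintro ⟨g, hg⟩
    refine ⟨Finset.mem_univ _, ?_⟩
    show (Quotient.mk'' (lab i) : MulAction.orbitRel.Quotient G M) = y
    rw [← Quotient.out_eq' y]
    exact Quotient.sound ⟨g, hg⟩

end A1

/-- A1: approximation for local systems of equations, if it holds for the stabilisers -/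
theorem approx_local (k : Subring ℂ) {G M : Type} [Group G] [MulAction G M] {I : Type}
    (l : Filter I) {H : I → Type} [∀ i, Group (H i)] (π : ∀ i, G →* H i)
    (hA : ∀ m : M, ApproxAlong k l (fun i => (π i).comp (MulAction.stabilizer G m).subtype))
    {κ μ : Type} [Fintype κ] [Fintype μ] {lab : κ → M} {lab' : μ → M} (A : μ → (κ × G →₀ ℂ))
    (hk : ∀ j, CoefIn k (A j)) (hloc : ∀ j, ∀ p ∈ (A j).support, p.2⁻¹ • lab p.1 = lab' j) :
    Tendsto (fun i => dm (kr (mulR fun j => mapF (π i) (A j)) : Submodule ℂ (L2 κ (H i)))) l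
      (𝓝 (dm (kr (mulR A) : Submodule ℂ (L2 κ G)))) := by
  obtain ⟨s, C, hC1, hC2, hC3⟩ := A1_sum (k := k) A hk hloc
  have e1 : ∀ i, dm (kr (mulR fun j => mapF (π i) (A j)) : Submodule ℂ (L2 κ (H i)))
      = ∑ y ∈ s, vdim (Sol (mapF ((π i).comp (MulAction.stabilizer G (Quotient.out y)).subtype) ''
              C y) : Set (L2 {i : κ // ∃ g : G, g • Quotient.out y = lab i} (H i))) := by
    intro i
    rw [← hC3 (H i) (π i)]
    have hkr : kr (mulR fun j => mapF (π i) (A j)) = Sol (Set.range fun j => mapF (π i) (A j)) :=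
      ker_mulR _
    rw [hkr]
    rfl
  have e2 : dm (kr (mulR A) : Submodule ℂ (L2 κ G))
      = ∑ y ∈ s, vdim (Sol (C y) : Set (L2 {i : κ // ∃ g : G, g • Quotient.out y = lab i}
          (MulAction.stabilizer G (Quotient.out y)))) := by
    have h1 := hC3 G (MonoidHom.id G)
    have h2 : (fun j => mapF (MonoidHom.id G) (A j)) = A := by
      funext j
      exact mapF_eq' _
    rw [h2] at h1
    have hkr : kr (mulR A) = Sol (Set.range A) := ker_mulR A
    rw [hkr]
    refine Eq.trans h1 (Finset.sum_congr rfl fun y _ => ?_)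
    have h3 : (MonoidHom.id G).comp (MulAction.stabilizer G (Quotient.out y)).subtype
        = (MulAction.stabilizer G (Quotient.out y)).subtype := rfl
    rw [h3, vdim_induced _ (Subgroup.subtype_injective _)]
  rw [e2]
  simp only [e1]
  exact tendsto_finsetSum _ fun y _ => approx_forms k l (hA _) (C y) (hC1 y) (hC2 y)

end Pool.Agent.HI
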