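import Pool.Agent.HI.H1
import Pool.Agent.HI.H2

set_option autoImplicit false
set_option linter.unusedSectionVars false

noncomputable section

open scoped InnerProductSpace ENNReal Topology
open Classical Filter ContinuousLinearMap

namespace Pool.Agent.HI

open Pool.Agent.VN Pool.Agent.LFT

section A5aux

variable {G : Type} [Group G] {ι : Type} [Fintype ι]

lemma A5_inc_equivar (s : ι → Prop) : Equivar (H1_inc (G := G) s) := by
  unfold H1_inc
  exact mulR_equivar _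

lemma A5_res_equivar (s : ι → Prop) : Equivar (H1_res (G := G) s) := by
  unfold H1_res crd
  exact mulR_equivar _

lemma A5_res_inc_not {s t : ι → Prop} (hst : ∀ i, s i ↔ ¬ t i) (y : L2 {p : ι // t p} G) :
    H1_res s (H1_inc t y) = 0 := by
  ext q
  rw [H1_res_apply, H1_inc_not _ _ _ (fun h => ((hst q.1.1).mp q.1.2) h)]
  rfl

lemma A5_add {s t : ι → Prop} (hst : ∀ i, s i ↔ ¬ t i) (x : L2 ι G) :
    H1_inc s (H1_res s x) + H1_inc t (H1_res t x) = x := by
  ext q
  rw [lp.coeFn_add, Pi.add_apply]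
  by_cases h : t q.1
  · rw [H1_inc_of t _ _ h, H1_res_apply, H1_inc_not s _ _ (fun h' => ((hst q.1).mp h') h),
      zero_add]
  · rw [H1_inc_of s _ _ ((hst q.1).mpr h), H1_res_apply, H1_inc_not t _ _ h, add_zero]

/-- the vectors in the kernel of the restriction to the other coordinates -/
lemma A5_kr {s t : ι → Prop} (hst : ∀ i, s i ↔ ¬ t i) {X : Submodule ℂ (L2 ι G)} (hX : CI X) :
    dm (X ⊓ kr (H1_res s)) = dm (X.comap (H1_inc (G := G) t).toLinearMap) := by
  have hY : CI (X.comap (H1_inc (G := G) t).toLinearMap) := CI.comap (A5_inc_equivar t) hX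
  have h1 := dm_imc (A5_inc_equivar t) hY
  have e1 : (X.comap (H1_inc (G := G) t).toLinearMap) ⊓ kr (H1_inc t) = ⊥ := by
    rw [eq_bot_iff]
    rintro y ⟨_, hy⟩
    have hy2 : H1_inc t y = 0 := hy
    rw [Submodule.mem_bot, ← H1_res_inc t y, hy2, map_zero]
  have e2 : imc (H1_inc t) (X.comap (H1_inc (G := G) t).toLinearMap) = X ⊓ kr (H1_res s) := by
    apply le_antisymm
    · apply imc_le (hX.inf (CI.kr (A5_res_equivar s))).cl
      intro y hy
      exact ⟨hy, A5_res_inc_not hst y⟩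
    · rintro x ⟨hx, hx2⟩
      have hx3 : H1_res s x = 0 := hx2
      have h := A5_add hst x
      rw [hx3, map_zero, zero_add] at h
      rw [← h]
      refine mem_imc _ ?_
      show H1_inc t (H1_res t x) ∈ X
      rw [h]
      exact hx
  rw [e1, dm_bot, add_zero, e2] at h1
  exact h1

/-- the dimension of a direct sum -/
lemma A5_dm {s t : ι → Prop} (hst : ∀ i, s i ↔ ¬ t i) {X : Submodule ℂ (L2 {p : ι // s p} G)}
    {Y : Submodule ℂ (L2 {p : ι // t p} G)} (hX : CI X) (hY : CI Y) :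
    dm (X.comap (H1_res s).toLinearMap ⊓ Y.comap (H1_res t).toLinearMap) = dm X + dm Y := by
  have hts : ∀ i, t i ↔ ¬ s i := fun i => by rw [hst i, not_not]
  have hW : CI (X.comap (H1_res s).toLinearMap ⊓ Y.comap (H1_res t).toLinearMap) :=
    (CI.comap (A5_res_equivar s) hX).inf (CI.comap (A5_res_equivar t) hY)
  have h1 := dm_imc (A5_res_equivar s) hW
  rw [A5_kr hst hW] at h1
  have e1 : imc (H1_res s) (X.comap (H1_res s).toLinearMap ⊓ Y.comap (H1_res t).toLinearMap)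
      = X := by
    apply le_antisymm
    · exact imc_le hX.cl fun x hx => hx.1
    · intro x hx
      have h := mem_imc (H1_res s)
        (X := X.comap (H1_res s).toLinearMap ⊓ Y.comap (H1_res t).toLinearMap) (x := H1_inc s x)
        ⟨by
          show H1_res s (H1_inc s x) ∈ X
          rw [H1_res_inc]
          exact hx, by
          show H1_res t (H1_inc s x) ∈ Y
          rw [A5_res_inc_not hts]
          exact Y.zero_mem⟩
      rwa [H1_res_inc] at h
  have e2 : (X.comap (H1_res s).toLinearMap ⊓ Y.comap (H1_res t).toLinearMap).comap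
      (H1_inc (G := G) t).toLinearMap = Y := by
    ext y
    constructor
    · rintro ⟨_, h⟩
      have h2 : H1_res t (H1_inc t y) ∈ Y := h
      rwa [H1_res_inc] at h2
    · intro h
      refine ⟨?_, ?_⟩
      · show H1_res s (H1_inc t y) ∈ X
        rw [A5_res_inc_not hst]
        exact X.zero_mem
      · show H1_res t (H1_inc t y) ∈ Y
        rwa [H1_res_inc]
  rw [e1, e2] at h1
  exact h1.symm

/-- a local subspace is stable under the restriction to the coordinates in an invariant set -/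
lemma A5_stable {D : Type} [MulAction G D] (q : Set D) (hq : ∀ (g : G) δ, g • δ ∈ q ↔ δ ∈ q)
    (d : ι → D) {s : ι → Prop} (hs : ∀ i, s i ↔ d i ∈ q) {P : Submodule ℂ (L2 ι G)} (hP : CI P)
    (hPl : Loc (pV d) P) {x : L2 ι G} (hx : x ∈ P) : H1_inc s (H1_res s x) ∈ P := by
  apply mem_of_pieces hP.cl hPl
  intro w
  have h1 : cutF (pV d) w (H1_inc s (H1_res s x)) =
      if w ∈ q then cutF (pV d) w x else 0 := by
    ext r
    rw [cutF_apply]
    by_cases h2 : pV d r = w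
    · have h3 : s r.1 ↔ w ∈ q := by
        rw [← h2, hs]
        exact (hq r.2 (d r.1)).symm
      rw [if_pos h2]
      by_cases h4 : w ∈ q
      · rw [if_pos h4, cutF_apply, if_pos h2, H1_inc_of _ _ _ (h3.mpr h4), H1_res_apply]
      · rw [if_neg h4, H1_inc_not _ _ _ (fun h => h4 (h3.mp h))]
        rfl
    · rw [if_neg h2]
      split_ifs
      · rw [cutF_apply, if_neg h2]
      · rfl
  rw [h1]
  split_ifs
  · exact hPl x hx w
  · exact P.zero_mem

lemma A5_loc {D : Type} [MulAction G D] (s : ι → Prop) (d : ι → D) {P : Submodule ℂ (L2 ι G)}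
    (hPl : Loc (pV d) P) : Loc (pV fun i : {i : ι // s i} => d i.1)
      (P.comap (H1_inc (G := G) s).toLinearMap) := by
  intro y hy w
  show H1_inc s (cutF (pV fun i : {i : ι // s i} => d i.1) w y) ∈ P
  rw [(H1_loc_inc (k := ⊤) s d).cut w y]
  exact hPl _ hy w

end A5aux

/-- A5: the key estimate for two kinds of coordinates: on the darts in `q` the space `P` is
rational, on the other darts the estimate is known -/
theorem key_mixed {k : Subring ℂ} {G D A : Type} [Group G] [MulAction G D] [MulAction G A]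
    {a : D → A} (ha : Eqv G a) (q : Set D) (hq : ∀ (g : G) δ, g • δ ∈ q ↔ δ ∈ q)
    (hrat : ∀ (κ : Type) (_ : Fintype κ) (d : κ → D) (P : Submodule ℂ (L2 κ G)), (∀ i, d i ∈ q) →
      CI P → Loc (pV d) P → Rat k d P)
    (hkey : ∀ (κ : Type) (_ : Fintype κ) (d : κ → D) (P : Submodule ℂ (L2 κ G)),
      (∀ i, d i ∉ q) → CI P → Loc (pV d) P → ∀ u : ℝ, ∀ Y, Rat k (fun i => a (d i)) Y →
      ∀ ε : ℝ, 0 < ε → ∃ S, Rat k d S ∧ dm (P ⊓ Y) - u * dm Y - ε ≤ dm (P ⊓ S) - u * dm S)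
    (ι : Type) (_ : Fintype ι) (d : ι → D) (P : Submodule ℂ (L2 ι G)) (hP : CI P)
    (hPl : Loc (pV d) P) (u : ℝ) (Y : Submodule ℂ (L2 ι G)) (hY : Rat k (fun i => a (d i)) Y)
    (ε : ℝ) (hε : 0 < ε) :
    ∃ S, Rat k d S ∧ dm (P ⊓ Y) - u * dm Y - ε ≤ dm (P ⊓ S) - u * dm S := by
  rcases lt_or_ge u 0 with hu0 | hu0
  · refine ⟨⊤, Rat.top d, ?_⟩
    have h1 : dm (P ⊓ Y) ≤ dm (P ⊓ ⊤) := dm_mono (inf_le_inf_left _ le_top)
    have h2 : dm Y ≤ dm (⊤ : Submodule ℂ (L2 ι G)) := dm_mono le_top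
    nlinarith
  rcases lt_or_ge 1 u with hu1 | hu1
  · refine ⟨⊥, Rat.bot d, ?_⟩
    have h1 : dm (P ⊓ Y) ≤ dm Y := dm_mono inf_le_right
    have h2 := dm_nonneg Y
    have h3 : P ⊓ (⊥ : Submodule ℂ (L2 ι G)) = ⊥ := inf_bot_eq _
    rw [h3, dm_bot]
    nlinarith
  obtain ⟨s, hs⟩ : ∃ s : ι → Prop, ∀ i, s i ↔ d i ∈ q := ⟨_, fun _ => Iff.rfl⟩
  obtain ⟨t, ht⟩ : ∃ t : ι → Prop, ∀ i, t i ↔ d i ∉ q := ⟨_, fun _ => Iff.rfl⟩
  have hst : ∀ i, s i ↔ ¬ t i := fun i => by rw [hs, ht, not_not]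
  have hYc : CI Y := hY.ci
  set Pf : Submodule ℂ (L2 {i : ι // s i} G) := P.comap (H1_inc (G := G) s).toLinearMap with hPf
  set Pb : Submodule ℂ (L2 {i : ι // t i} G) := P.comap (H1_inc (G := G) t).toLinearMap with hPb
  set Yb : Submodule ℂ (L2 {i : ι // t i} G) := Y.comap (H1_inc (G := G) t).toLinearMap with hYb
  set Z : Submodule ℂ (L2 {i : ι // s i} G) := imc (H1_res (G := G) s) Y with hZ
  have cPf : CI Pf := CI.comap (A5_inc_equivar s) hP
  have cPb : CI Pb := CI.comap (A5_inc_equivar t) hP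
  have cZ : CI Z := CI.imc (A5_res_equivar s) hYc.inv
  have rPf : Rat k (fun i : {i : ι // s i} => d i.1) Pf :=
    hrat _ inferInstance _ _ (fun i => (hs i.1).mp i.2) cPf (A5_loc s d hPl)
  have rYb : Rat k (fun i : {i : ι // t i} => a (d i.1)) Yb :=
    rat_comap (H1_loc_inc t fun i => a (d i)) hY
  obtain ⟨Sb, rSb, hSb⟩ := hkey _ inferInstance (fun i : {i : ι // t i} => d i.1) Pb
    (fun i => (ht i.1).mp i.2) cPb (A5_loc t d hPl) u Yb rYb ε hε
  have cSb : CI Sb := rSb.ci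
  -- membership in `P`
  have hmem : ∀ x : L2 ι G, x ∈ P ↔ H1_res s x ∈ Pf ∧ H1_res t x ∈ Pb := by
    intro x
    constructor
    · intro hx
      have h1 : H1_inc s (H1_res s x) ∈ P := A5_stable q hq d hs hP hPl hx
      refine ⟨h1, ?_⟩
      show H1_inc t (H1_res t x) ∈ P
      have h2 : H1_inc t (H1_res t x) = x - H1_inc s (H1_res s x) := by
        rw [eq_sub_iff_add_eq, add_comm]
        exact A5_add hst x
      rw [h2]
      exact P.sub_mem hx h1
    · rintro ⟨h1, h2⟩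
      rw [← A5_add hst x]
      exact P.add_mem h1 h2
  have d1 : dm (P ⊓ Y) ≤ dm (Pf ⊓ Z) + dm (Pb ⊓ Yb) := by
    have h1 := dm_imc (A5_res_equivar s) (hP.inf hYc)
    rw [A5_kr hst (hP.inf hYc)] at h1
    have h2 : imc (H1_res s) (P ⊓ Y) ≤ Pf ⊓ Z := by
      apply imc_le (cPf.inf cZ).cl
      rintro x ⟨hx, hx2⟩
      exact ⟨((hmem x).mp hx).1, mem_imc _ hx2⟩
    have h3 := dm_mono h2
    have h4 : (P ⊓ Y).comap (H1_inc (G := G) t).toLinearMap = Pb ⊓ Yb := rfl
    rw [h4] at h1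
    linarith
  have d2 : dm Y = dm Z + dm Yb := by
    have h1 := dm_imc (A5_res_equivar s) hYc
    rw [A5_kr hst hYc] at h1
    exact h1.symm
  refine ⟨Pf.comap (H1_res s).toLinearMap ⊓ Sb.comap (H1_res t).toLinearMap,
    Rat.inf (rat_comap (H1_loc_res s d) rPf) (rat_comap (H1_loc_res t d) rSb), ?_⟩
  have e1 : P ⊓ (Pf.comap (H1_res s).toLinearMap ⊓ Sb.comap (H1_res t).toLinearMap) =
      Pf.comap (H1_res s).toLinearMap ⊓ (Pb ⊓ Sb).comap (H1_res t).toLinearMap := by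
    ext x
    constructor
    · rintro ⟨hx, h1, h2⟩
      exact ⟨h1, ((hmem x).mp hx).2, h2⟩
    · rintro ⟨h1, h2, h3⟩
      exact ⟨(hmem x).mpr ⟨h1, h2⟩, h1, h3⟩
  rw [e1, A5_dm hst cPf (cPb.inf cSb), A5_dm hst cPf cSb, d2]
  have d3 : dm (Pf ⊓ Z) ≤ dm Z := dm_mono inf_le_right
  have d4 : dm (Pf ⊓ Z) ≤ dm Pf := dm_mono inf_le_left
  have d5 : dm (Pf ⊓ Z) - u * dm Z ≤ (1 - u) * dm Pf := by
    have h1 : u * dm (Pf ⊓ Z) ≤ u * dm Z := mul_le_mul_of_nonneg_left d3 hu0
    have h2 : (1 - u) * dm (Pf ⊓ Z) ≤ (1 - u) * dm Pf :=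
      mul_le_mul_of_nonneg_left d4 (by linarith)
    linarith
  linarith

end Pool.Agent.HI
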