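import Pool.Agent.HI.A4
import Pool.Agent.HI.A5
import Pool.Agent.HI.A6

set_option autoImplicit false
set_option linter.unusedSectionVars false

noncomputable section

open scoped InnerProductSpace ENNReal Topology
open Classical Filter ContinuousLinearMap

/-!
Approximation for groups acting on trees whose edge stabilisers are of finite index or finite.
-/

namespace Pool.Agent.HI

open Pool.Agent.VN Pool.Agent.LFT Pool.Agent.HX

section Tree

variable {B V : Type} [Group B] [MulAction B V]

/-- the formula for trees whose edge stabilisers have finite index in the vertex stabilisers, or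
are finite if `k = ℂ` -/
theorem af_mixed {k : Subring ℂ} (T : SimpleGraph V) (hT : T.IsTree)
    (hadj : ∀ (g : B) (u v : V), T.Adj u v → T.Adj (g • u) (g • v))
    (hinv : ∀ (g : B) (u v : V), T.Adj u v → ¬ (g • u = v ∧ g • v = u))
    (hfin : ∀ u v : V, T.Adj u v →
      (MulAction.stabilizer B v).relIndex (MulAction.stabilizer B u) ≠ 0 ∨
        (k = ⊤ ∧ {g : B | g • u = u ∧ g • v = v}.Finite)) :
    @AF k B _ T.Dart V {e : Sym2 V // e ∈ T.edgeSet} (dartAct T hadj) _ (edgeAct T hadj)
      (fun e : T.Dart => e.fst)
      (fun e : T.Dart => (⟨e.edge, e.edge_mem⟩ : {e : Sym2 V // e ∈ T.edgeSet})) := by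
  let i1 : MulAction B T.Dart := dartAct T hadj
  let i2 : MulAction B {e : Sym2 V // e ∈ T.edgeSet} := edgeAct T hadj
  refine af_of_keys (fun g δ => rfl) (fun g δ => rfl) (tree_half T hT) ?_ ?_
  · intro ι iι d P hP hl u Y hY ε hε
    refine key_mixed (a := fun e : T.Dart => e.fst) (fun g δ => rfl)
      {δ : T.Dart | k = ⊤ ∧ {g : B | g • δ = δ}.Finite} ?_ ?_ ?_ ι iι d P hP hl u Y hY ε hε
    · intro g δ
      have h1 : {h : B | h • g • δ = g • δ} = (fun h => g * h * g⁻¹) '' {h : B | h • δ = δ} := by
        ext h
        constructor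
        · intro hh
          refine ⟨g⁻¹ * h * g, ?_, by group⟩
          have hh' : h • g • δ = g • δ := hh
          show (g⁻¹ * h * g) • δ = δ
          rw [mul_smul, mul_smul, hh', inv_smul_smul]
        · rintro ⟨h', hh, rfl⟩
          have hh' : h' • δ = δ := hh
          show (g * h' * g⁻¹) • g • δ = g • δ
          rw [mul_smul, mul_smul, inv_smul_smul, hh']
      have hinj : Function.Injective (fun h : B => g * h * g⁻¹) := by
        intro x y hxy
        simpa using hxy
      show (k = ⊤ ∧ {h : B | h • g • δ = g • δ}.Finite) ↔ (k = ⊤ ∧ {h : B | h • δ = δ}.Finite)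
      rw [h1, Set.finite_image_iff hinj.injOn]
    · intro κ _ d P hd hP hl
      rcases isEmpty_or_nonempty κ with hκ | ⟨⟨i0⟩⟩
      · have h1 : P = ⊤ := by
          rw [eq_top_iff]
          intro x _
          have h2 : x = 0 := by
            apply lp.ext
            funext p
            exact (hκ.false p.1).elim
          rw [h2]
          exact P.zero_mem
        rw [h1]
        exact Rat.top d
      · have hk : k = ⊤ := (hd i0).1
        subst hk
        refine rat_of_finite d (fun i => ?_) hP hl
        exact (hd i).2.to_subtype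
    · intro κ _ d P hd hP hl u Y hY ε hε
      refine key (fun e : T.Dart => e.fst) (fun g δ => rfl) d ?_ hP hl u hY hε
      intro i
      have h2 : MulAction.stabilizer B (d i)
          = MulAction.stabilizer B (d i).snd ⊓ MulAction.stabilizer B (d i).fst := by
        ext g
        rw [Subgroup.mem_inf, MulAction.mem_stabilizer_iff, MulAction.mem_stabilizer_iff,
          MulAction.mem_stabilizer_iff]
        constructor
        · intro h
          exact ⟨congrArg (fun e : T.Dart => e.snd) h, congrArg (fun e : T.Dart => e.fst) h⟩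
        · rintro ⟨h3, h2⟩
          exact SimpleGraph.Dart.ext _ _ (Prod.ext h2 h3)
      rw [h2]
      show (MulAction.stabilizer B (d i).snd ⊓ MulAction.stabilizer B (d i).fst).relIndex
        (MulAction.stabilizer B (d i).fst) ≠ 0
      rw [Subgroup.inf_relIndex_right]
      rcases hfin _ _ (d i).adj with h3 | ⟨h3, h4⟩
      · exact h3
      · exfalso
        apply hd i
        refine ⟨h3, h4.subset ?_⟩
        intro g hg
        exact ⟨congrArg (fun e : T.Dart => e.fst) hg, congrArg (fun e : T.Dart => e.snd) hg⟩
  · intro ι _ d P hP hl u Y hY ε hε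
    refine key_of_stab (a := fun e : T.Dart =>
      (⟨e.edge, e.edge_mem⟩ : {e : Sym2 V // e ∈ T.edgeSet})) (fun g m => rfl) ?_ d hP hl u hY hε
    exact fun g δ h => dart_of_edge T hadj hinv g δ h

end Tree

end Pool.Agent.HI
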