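import Pool.Agent.LFT.Final

set_option autoImplicit false
set_option linter.unusedSectionVars false

noncomputable section

open scoped InnerProductSpace ENNReal Topology
open Classical Filter ContinuousLinearMap

/-!
Basic definitions: the approximate formula for forests, the trees of semidirect products with free
groups.
-/

namespace Pool.Agent.HI

open Pool.Agent.VN Pool.Agent.LFT

section Basic

/-- rational subspaces over a set of places have integral dimension -/
def Int0 (k : Subring ℂ) (G M : Type) [Group G] [MulAction G M] : Prop :=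
  ∀ (ι : Type) (_ : Fintype ι) (lab : ι → M) (X : Submodule ℂ (L2 ι G)), Rat k lab X →
    ∃ z : ℤ, dm X = z

/-- the approximate formula for the darts `D`, the vertices `A` and the edges `B` -/
def AF (k : Subring ℂ) (G : Type) [Group G] {D A B : Type} [MulAction G D] [MulAction G A]
    [MulAction G B] (a : D → A) (b : D → B) : Prop :=
  ∀ (ι : Type) (_ : Fintype ι) (d : ι → D) (K0 K1 : Submodule ℂ (L2 ι G)),
    Rat k (fun i => a (d i)) K0 → Rat k (fun i => b (d i)) K1 → ∀ ε : ℝ, 0 < ε →
      ∃ S, Rat k d S ∧ dm (K0 ⊓ K1) - ε ≤ dm (K0 ⊓ S) + dm (K1 ⊓ S) - dm S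

/-- equivariant maps -/
def Eqv (G : Type) [Group G] {M N : Type} [MulAction G M] [MulAction G N] (f : M → N) : Prop :=
  ∀ (g : G) (m : M), f (g • m) = g • f m

/-- the halves of a forest -/
def Half {D A B : Type} (a : D → A) (b : D → B) : Prop :=
  ∀ δ : D, ∃ Y : Set D, δ ∈ Y ∧ (∀ ε ε', a ε = a ε' → (ε ∈ Y ↔ ε' ∈ Y)) ∧
      (∀ ε ε', b ε = b ε' → ((ε ∈ Y ∧ ε ≠ δ) ↔ (ε' ∈ Y ∧ ε' ≠ δ)))

/-- connectedness by darts -/
def Conn {D A B : Type} (a : D → A) (b : D → B) : D → D → Prop :=
  Relation.ReflTransGen (fun ε ε' : D => a ε = a ε' ∨ b ε = b ε')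

/-- connectedness inside a set of darts -/
def ConnIn {D A B : Type} (𝒮 : Set D) (a : D → A) (b : D → B) : D → D → Prop :=
  Relation.ReflTransGen (fun ε ε' : D => ε' ∈ 𝒮 ∧ (a ε = a ε' ∨ b ε = b ε'))

/-- subspaces of a direct sum of coordinate spaces which are given by the right summand -/
def cmR {G : Type} [Group G] {κ κ' : Type} [Fintype κ] [Fintype κ']
    (X : Submodule ℂ (L2 κ' G)) : Submodule ℂ (L2 (κ ⊕ κ') G) :=
  X.comap (prR : L2 (κ ⊕ κ') G →L[ℂ] L2 κ' G).toLinearMap

/-- subspaces of a direct sum of coordinate spaces which are given by the left summand -/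
def cmL {G : Type} [Group G] {κ κ' : Type} [Fintype κ] [Fintype κ']
    (X : Submodule ℂ (L2 κ G)) : Submodule ℂ (L2 (κ ⊕ κ') G) :=
  X.comap (prL : L2 (κ ⊕ κ') G →L[ℂ] L2 κ G).toLinearMap

end Basic

section Via

variable {Γ G : Type} [Group Γ] [Group G]

/-- a `G`-set as a `Γ`-set -/
def Via (_ : Γ →* G) (W : Type) : Type := W

instance (π : Γ →* G) (W : Type) [MulAction G W] : MulAction Γ (Via π W) :=
  MulAction.compHom W π

/-- an element of a `G`-set as an element of the corresponding `Γ`-set -/
def toVia (π : Γ →* G) {W : Type} (w : W) : Via π W := w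

/-- an element of a `Γ`-set coming from a `G`-set as an element of the `G`-set -/
def ofVia {π : Γ →* G} {W : Type} (w : Via π W) : W := w

@[simp] lemma toVia_ofVia {π : Γ →* G} {W : Type} (w : Via π W) : toVia π (ofVia w) = w := rfl

@[simp] lemma ofVia_toVia (π : Γ →* G) {W : Type} (w : W) : ofVia (toVia π w) = w := rfl

lemma via_smul {π : Γ →* G} {W : Type} [MulAction G W] (γ : Γ) (w : Via π W) :
    γ • w = toVia π (π γ • ofVia w) := rfl

/-- finitely generated subgroups of the kernel map onto `ℤ` -/
def LIKer (π : Γ →* G) : Prop :=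
  ∀ H : Subgroup Γ, H.FG → (∀ h ∈ H, π h = 1) → H ≠ ⊥ → ∃ f : H →* Multiplicative ℤ, f ≠ 1

end Via

section Semi

variable (X Γ : Type) [Group Γ] [MulAction Γ X]

/-- the action on the free group -/
def phi : Γ →* MulAut (FreeGroup X) where
  toFun γ := FreeGroup.freeGroupCongr (MulAction.toPerm γ)
  map_one' := by
    apply MulEquiv.toMonoidHom_injective
    apply FreeGroup.ext_hom
    intro x
    simp
  map_mul' γ γ' := by
    apply MulEquiv.toMonoidHom_injective
    apply FreeGroup.ext_hom
    intro x
    simp [mul_smul]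

lemma phi_of (γ : Γ) (x : X) : phi X Γ γ (FreeGroup.of x) = FreeGroup.of (γ • x) := by
  simp [phi]

/-- the semidirect product of a free group with a group which permutes its basis -/
abbrev Sd : Type := SemidirectProduct (FreeGroup X) Γ (phi X Γ)

/-- the projection of the semidirect product -/
abbrev rh : Sd X Γ →* Γ := SemidirectProduct.rightHom

/-- the inclusion of the group -/
abbrev ir : Γ →* Sd X Γ := SemidirectProduct.inr

/-- the vertices of the tree of the free group -/
def TA (X _Γ : Type) : Type := FreeGroup X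

/-- the edges of the tree of the free group -/
def TB (X _Γ : Type) : Type := FreeGroup X × X

/-- the darts of the tree of the free group -/
def TD (X _Γ : Type) : Type := FreeGroup X × X × Bool

instance : MulAction (Sd X Γ) (TA X Γ) where
  smul g f := (g.left * phi X Γ g.right (f : FreeGroup X) : FreeGroup X)
  one_smul f := by
    show (1 : FreeGroup X) * phi X Γ 1 (f : FreeGroup X) = f
    simp
  mul_smul g g' f := by
    show (g * g').left * phi X Γ (g * g').right (f : FreeGroup X)
      = g.left * phi X Γ g.right (g'.left * phi X Γ g'.right (f : FreeGroup X))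
    rw [SemidirectProduct.mul_left, SemidirectProduct.mul_right, map_mul, map_mul, mul_assoc]
    rfl

instance : MulAction (Sd X Γ) (TB X Γ) where
  smul g f := ((g.left * phi X Γ g.right f.1, g.right • f.2) : FreeGroup X × X)
  one_smul f := by
    show ((1 : FreeGroup X) * phi X Γ 1 f.1, (1 : Γ) • f.2) = f
    simp
  mul_smul g g' f := by
    show ((g * g').left * phi X Γ (g * g').right f.1, (g * g').right • f.2)
      = (g.left * phi X Γ g.right (g'.left * phi X Γ g'.right f.1), g.right • g'.right • f.2)
    rw [SemidirectProduct.mul_left, SemidirectProduct.mul_right, map_mul, map_mul, mul_assoc,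
      mul_smul]
    rfl

instance : MulAction (Sd X Γ) (TD X Γ) where
  smul g f := ((g.left * phi X Γ g.right f.1, g.right • f.2.1, f.2.2) : FreeGroup X × X × Bool)
  one_smul f := by
    show ((1 : FreeGroup X) * phi X Γ 1 f.1, (1 : Γ) • f.2.1, f.2.2) = f
    simp
  mul_smul g g' f := by
    show ((g * g').left * phi X Γ (g * g').right f.1, (g * g').right • f.2.1, f.2.2)
      = (g.left * phi X Γ g.right (g'.left * phi X Γ g'.right f.1),
        g.right • g'.right • f.2.1, f.2.2)
    rw [SemidirectProduct.mul_left, SemidirectProduct.mul_right, map_mul, map_mul, mul_assoc,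
      mul_smul]
    rfl

/-- the vertex of a dart -/
def ta (p : TD X Γ) : TA X Γ := (p.1 : FreeGroup X)

/-- the edge of a dart: the dart `(f, x, true)` is the beginning of the edge from `f` to `f * x`,
the dart `(f, x, false)` is the end of the edge from `f * x⁻¹` to `f` -/
def tb (p : TD X Γ) : TB X Γ :=
  ((if p.2.2 then p.1 else p.1 * (FreeGroup.of p.2.1)⁻¹, p.2.1) : FreeGroup X × X)

lemma ta_smul (g : Sd X Γ) (p : TD X Γ) : ta X Γ (g • p) = g • ta X Γ p := rfl

lemma tb_smul (g : Sd X Γ) (p : TD X Γ) : tb X Γ (g • p) = g • tb X Γ p := by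
  obtain ⟨f, x, c⟩ := p
  cases c
  · show ((g.left * phi X Γ g.right f) * (FreeGroup.of (g.right • x))⁻¹, g.right • x)
      = (g.left * phi X Γ g.right (f * (FreeGroup.of x)⁻¹), g.right • x)
    rw [map_mul, map_inv, phi_of, mul_assoc]
  · rfl

end Semi

section Letters

variable {X Γ : Type} [Group Γ] [MulAction Γ X]

lemma ir_injective : Function.Injective (ir X Γ) := SemidirectProduct.inr_injective

/-- right multiplication of the coordinate `i` by the letter `x i` -/
def Uop {ι : Type} [Fintype ι] (x : ι → X) : L2 ι (Sd X Γ) →L[ℂ] L2 ι (Sd X Γ) :=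
  mulR fun i => Finsupp.single (i, (SemidirectProduct.inl (FreeGroup.of (x i)) : Sd X Γ)) 1

/-- right multiplication of the coordinate `i` by the inverse of the letter `x i` -/
def Uop' {ι : Type} [Fintype ι] (x : ι → X) : L2 ι (Sd X Γ) →L[ℂ] L2 ι (Sd X Γ) :=
  mulR fun i => Finsupp.single (i, (SemidirectProduct.inl (FreeGroup.of (x i))⁻¹ : Sd X Γ)) 1

end Letters

section Good

/-- the inductive property of a `G`-set: for all groups `Γ` over `G` with locally indicable kernel,
dimensions are integral over `W` and the approximate formula holds for the trees of the semidirect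
products of `Γ` with free groups -/
def Good (k : Subring ℂ) (G W : Type) [Group G] [MulAction G W] : Prop :=
  ∀ (Γ : Type) [Group Γ] (π : Γ →* G), LIKer π →
    (∀ (U : Type) [MulAction Γ U], Int0 k Γ (Via π W × U)) ∧
    ∀ (X : Type) [MulAction Γ X], (∀ γ : Γ, π γ = 1 → ∀ x : X, γ • x = x) →
      ∀ (U : Type) [MulAction (Sd X Γ) U],
        AF k (Sd X Γ)
          (Prod.map (ta X Γ) id : TD X Γ × (Via (π.comp (rh X Γ)) W × U) →
            TA X Γ × (Via (π.comp (rh X Γ)) W × U))
          (Prod.map (tb X Γ) id : TD X Γ × (Via (π.comp (rh X Γ)) W × U) →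
            TB X Γ × (Via (π.comp (rh X Γ)) W × U))

/-- the letters: infinitely many copies -/
def Lett (Ξ : Type) : Type := Ξ × ℕ

instance {Γ Ξ : Type} [Group Γ] [MulAction Γ Ξ] : MulAction Γ (Lett Ξ) where
  smul g x := (g • x.1, x.2)
  one_smul x := by
    show ((1 : Γ) • x.1, x.2) = x
    simp
  mul_smul g g' x := by
    show ((g * g') • x.1, x.2) = (g • g' • x.1, x.2)
    rw [mul_smul]

end Good

end Pool.Agent.HI
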