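import Pool.Agent.HI.Defs

set_option autoImplicit false
set_option linter.unusedSectionVars false

noncomputable section

open scoped InnerProductSpace ENNReal Topology
open Classical Filter ContinuousLinearMap

namespace Pool.Agent.HI

open Pool.Agent.VN Pool.Agent.LFT

section InjAux

variable {G : Type} [Group G] {k : Subring ℂ}

/-- extension by zero -/
def H1_inc {κ : Type} [Fintype κ] (s : κ → Prop) : L2 {p : κ // s p} G →L[ℂ] L2 κ G :=
  mulR fun p => if h : s p then Finsupp.single ((⟨p, h⟩ : {p : κ // s p}), (1 : G)) 1 else 0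

lemma H1_inc_of {κ : Type} [Fintype κ] (s : κ → Prop) (x : L2 {p : κ // s p} G) (q : κ × G)
    (h : s q.1) : H1_inc s x q = x ((⟨q.1, h⟩ : {p : κ // s p}), q.2) := by
  unfold H1_inc
  rw [mulR_apply, dif_pos h, ev_single]
  simp

lemma H1_inc_not {κ : Type} [Fintype κ] (s : κ → Prop) (x : L2 {p : κ // s p} G) (q : κ × G)
    (h : ¬ s q.1) : H1_inc s x q = 0 := by
  unfold H1_inc
  rw [mulR_apply, dif_neg h, ev_zero]

/-- restriction -/
def H1_res {κ : Type} [Fintype κ] (s : κ → Prop) : L2 κ G →L[ℂ] L2 {p : κ // s p} G :=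
  crd Subtype.val Set.univ

lemma H1_res_apply {κ : Type} [Fintype κ] (s : κ → Prop) (x : L2 κ G)
    (q : {p : κ // s p} × G) : H1_res s x q = x (q.1.1, q.2) := by
  unfold H1_res
  rw [crd_apply, if_pos (Set.mem_univ _)]

lemma H1_loc_inc {M : Type} [MulAction G M] {κ : Type} [Fintype κ] (s : κ → Prop) (lab : κ → M) :
    LocOp k (fun p : {p : κ // s p} => lab p.1) lab (H1_inc (G := G) s) := by
  refine ⟨_, fun p r => ?_, fun p r hr => ?_, rfl⟩
  · by_cases h : s p
    · rw [dif_pos h]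
      exact coefIn_single k _ _ k.one_mem r
    · rw [dif_neg h, Finsupp.coe_zero, Pi.zero_apply]
      exact k.zero_mem
  · by_cases h : s p
    · rw [dif_pos h] at hr
      have h1 := Finset.mem_singleton.mp (Finsupp.support_single_subset hr)
      subst h1
      simp
    · rw [dif_neg h] at hr
      simp at hr

lemma H1_loc_res {M : Type} [MulAction G M] {κ : Type} [Fintype κ] (s : κ → Prop) (lab : κ → M) :
    LocOp k lab (fun p : {p : κ // s p} => lab p.1) (H1_res (G := G) s) :=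
  LocOp.crd _ _ fun _ _ => rfl

lemma H1_locOp_of_inj {M M' : Type} [MulAction G M] [MulAction G M'] (j : M → M') (hj : Eqv G j)
    (hi : Function.Injective j) {ι κ : Type} [Fintype κ] {lab : ι → M} {lab' : κ → M}
    {T : L2 ι G →L[ℂ] L2 κ G} (hT : LocOp k (fun i => j (lab i)) (fun i => j (lab' i)) T) :
    LocOp k lab lab' T := by
  obtain ⟨A, hA1, hA2, rfl⟩ := hT
  refine ⟨A, hA1, fun i p hp => hi ?_, rfl⟩
  rw [hj]
  exact hA2 i p hp

/-- a local operator only connects coordinates with labels in the same invariant part -/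
lemma H1_eval {M' : Type} [MulAction G M'] (R : Set M') (hR : ∀ (g : G) m, g • m ∈ R ↔ m ∈ R)
    {κ μ : Type} [Fintype κ] [Fintype μ] {labκ : κ → M'} {labμ : μ → M'}
    {T : L2 κ G →L[ℂ] L2 μ G} (hT : LocOp k labκ labμ T) (x : L2 κ G) :
    T (H1_inc (fun p => labκ p ∈ R) (H1_res (fun p => labκ p ∈ R) x)) =
      H1_inc (fun q => labμ q ∈ R) (H1_res (fun q => labμ q ∈ R) (T x)) := by
  obtain ⟨A, _, hA2, rfl⟩ := hT
  ext q
  have e : ∀ p ∈ (A q.1).support, (labκ p.1 ∈ R ↔ labμ q.1 ∈ R) := by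
    intro p hp
    rw [← hA2 q.1 p hp, hR]
  rw [mulR_apply, ev_def]
  by_cases h : labμ q.1 ∈ R
  · rw [H1_inc_of _ _ _ h, H1_res_apply, mulR_apply, ev_def]
    refine Finset.sum_congr rfl fun p hp => ?_
    rw [H1_inc_of _ _ _ ((e p hp).mpr h), H1_res_apply]
  · rw [H1_inc_not _ _ _ h]
    refine Finset.sum_eq_zero fun p hp => ?_
    rw [H1_inc_not _ _ _ (fun h' => h ((e p hp).mp h')), mul_zero]

lemma H1_res_inc {κ : Type} [Fintype κ] (s : κ → Prop) (x : L2 {p : κ // s p} G) :
    H1_res s (H1_inc s x) = x := by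
  ext q
  rw [H1_res_apply, H1_inc_of s x (q.1.1, q.2) q.1.2]

lemma H1_inc_res {κ : Type} [Fintype κ] (s : κ → Prop) (hs : ∀ p, s p) (x : L2 κ G) :
    H1_inc s (H1_res s x) = x := by
  ext q
  rw [H1_inc_of _ _ _ (hs q.1), H1_res_apply]

end InjAux

section Inj

variable {G : Type} [Group G] {k : Subring ℂ}

/-- H1 -/
theorem rat_of_inj {M M' : Type} [MulAction G M] [MulAction G M'] (j : M → M') (hj : Eqv G j)
    (hi : Function.Injective j) {ι : Type} [Fintype ι] {lab : ι → M} {X : Submodule ℂ (L2 ι G)}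
    (hX : Rat k (fun i => j (lab i)) X) : Rat k lab X := by
  obtain ⟨κ, μ, _, _, labκ, labμ, S, T, hS, hT, rfl⟩ := hX
  have hR : ∀ (g : G) m, g • m ∈ Set.range j ↔ m ∈ Set.range j := by
    intro g m
    constructor
    · rintro ⟨n, hn⟩
      refine ⟨g⁻¹ • n, ?_⟩
      rw [hj, hn, inv_smul_smul]
    · rintro ⟨n, rfl⟩
      exact ⟨g • n, hj g n⟩
  set sκ : κ → Prop := fun p => labκ p ∈ Set.range j with hsκ
  set sμ : μ → Prop := fun q => labμ q ∈ Set.range j with hsμ
  have eT : ∀ x, T (H1_inc sκ (H1_res sκ x)) = T x := by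
    intro x
    rw [H1_eval (Set.range j) hR hT x]
    exact H1_inc_res _ (fun i => ⟨lab i, rfl⟩) _
  have eS : ∀ x, S (H1_inc sκ (H1_res sκ x)) = H1_inc sμ (H1_res sμ (S x)) :=
    fun x => H1_eval (Set.range j) hR hS x
  choose cκ hcκ using fun p : {p : κ // sκ p} => p.2
  choose cμ hcμ using fun q : {q : μ // sμ q} => q.2
  have hlκ : (fun p : {p : κ // sκ p} => labκ p.1) = fun p => j (cκ p) :=
    funext fun p => (hcκ p).symm
  have hlμ : (fun p : {q : μ // sμ q} => labμ p.1) = fun p => j (cμ p) :=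
    funext fun p => (hcμ p).symm
  have hS' : LocOp k (fun p => j (cκ p)) (fun p => j (cμ p)) (H1_res sμ ∘L S ∘L H1_inc sκ) := by
    rw [← hlκ, ← hlμ]
    exact (H1_loc_res sμ labμ).comp (hS.comp (H1_loc_inc sκ labκ))
  have hT' : LocOp k (fun p => j (cκ p)) (fun i => j (lab i)) (T ∘L H1_inc sκ) := by
    rw [← hlκ]
    exact hT.comp (H1_loc_inc sκ labκ)
  refine ⟨{p : κ // sκ p}, {q : μ // sμ q}, inferInstance, inferInstance, cκ, cμ,
    H1_res sμ ∘L S ∘L H1_inc sκ, T ∘L H1_inc sκ, H1_locOp_of_inj j hj hi hS',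
    H1_locOp_of_inj j hj hi hT', ?_⟩
  apply le_antisymm
  · apply imc_le (Submodule.isClosed_topologicalClosure _)
    intro x hx
    rw [mem_kr] at hx
    have h1 : H1_res sκ x ∈ kr (H1_res sμ ∘L S ∘L H1_inc sκ) := by
      rw [mem_kr]
      show H1_res sμ (S (H1_inc sκ (H1_res sκ x))) = 0
      rw [eS, hx, map_zero, map_zero, map_zero]
    have h2 := mem_imc (T ∘L H1_inc sκ) h1
    have h3 : (T ∘L H1_inc sκ) (H1_res sκ x) = T x := eT x
    rwa [h3] at h2
  · apply imc_le (Submodule.isClosed_topologicalClosure _)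
    intro y hy
    rw [mem_kr] at hy
    have hy' : H1_res sμ (S (H1_inc sκ y)) = 0 := hy
    have h1 : H1_inc sκ y ∈ kr S := by
      rw [mem_kr]
      have h2 := eS (H1_inc sκ y)
      rw [H1_res_inc, hy', map_zero] at h2
      exact h2
    exact mem_imc T h1

/-- H1 -/
theorem loc_of_inj {M M' : Type} [MulAction G M] [MulAction G M'] (j : M → M') (hj : Eqv G j)
    (hi : Function.Injective j) {ι : Type} [Fintype ι] {lab : ι → M} {X : Submodule ℂ (L2 ι G)}
    (hX : Loc (pV lab) X) : Loc (pV fun i => j (lab i)) X := by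
  intro x hx m'
  have e1 : ∀ q : ι × G, pV (fun i => j (lab i)) q = j (pV lab q) := by
    intro q
    show q.2 • j (lab q.1) = j (q.2 • lab q.1)
    rw [hj]
  by_cases h : ∃ m, j m = m'
  · obtain ⟨m, rfl⟩ := h
    have h2 : cutF (pV fun i => j (lab i)) (j m) x = cutF (pV lab) m x := by
      ext q
      rw [cutF_apply, cutF_apply, e1]
      by_cases h3 : pV lab q = m
      · rw [if_pos h3, if_pos (congrArg j h3)]
      · rw [if_neg h3, if_neg (fun h4 => h3 (hi h4))]
    rw [h2]
    exact hX x hx m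
  · have h2 : cutF (pV fun i => j (lab i)) m' x = 0 := by
      ext q
      rw [cutF_apply, e1, if_neg (fun h3 => h ⟨_, h3⟩)]
      rfl
    rw [h2]
    exact X.zero_mem

/-- H1 -/
theorem loc_map {M M' : Type} [MulAction G M] [MulAction G M'] (j : M → M') (hj : Eqv G j)
    {ι : Type} [Fintype ι] {lab : ι → M} {X : Submodule ℂ (L2 ι G)} (hX : CI X)
    (hl : Loc (pV lab) X) : Loc (pV fun i => j (lab i)) X := by
  intro x hx m'
  apply mem_of_pieces hX.cl hl
  intro m
  have e1 : ∀ q : ι × G, pV (fun i => j (lab i)) q = j (pV lab q) := by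
    intro q
    show q.2 • j (lab q.1) = j (q.2 • lab q.1)
    rw [hj]
  have h1 : cutF (pV lab) m (cutF (pV fun i => j (lab i)) m' x) =
      if j m = m' then cutF (pV lab) m x else 0 := by
    ext q
    rw [cutF_apply, cutF_apply, e1]
    by_cases h1 : pV lab q = m
    · rw [if_pos h1, h1]
      by_cases h2 : j m = m'
      · rw [if_pos h2, if_pos h2, cutF_apply, if_pos h1]
      · rw [if_neg h2, if_neg h2]
        rfl
    · rw [if_neg h1]
      split_ifs
      · rw [cutF_apply, if_neg h1]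
      · rfl
  rw [h1]
  split_ifs
  · exact hl x hx m
  · exact X.zero_mem

/-- H1 -/
theorem AF.of_inj {D A B D' A' B' : Type} [MulAction G D] [MulAction G A] [MulAction G B]
    [MulAction G D'] [MulAction G A'] [MulAction G B'] {a : D → A} {b : D → B} {a' : D' → A'}
    {b' : D' → B'} (jD : D → D') (jA : A → A') (jB : B → B') (hD : Eqv G jD) (hA : Eqv G jA)
    (hB : Eqv G jB) (hDi : Function.Injective jD)
    (hja : ∀ δ, a' (jD δ) = jA (a δ)) (hjb : ∀ δ, b' (jD δ) = jB (b δ))
    (h : AF k G a' b') : AF k G a b := by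
  intro ι _ d K0 K1 hK0 hK1 ε hε
  have h0 : Rat k (fun i => a' (jD (d i))) K0 := by
    have h1 := hK0.mapLab jA hA
    simpa only [hja] using h1
  have h1 : Rat k (fun i => b' (jD (d i))) K1 := by
    have h1 := hK1.mapLab jB hB
    simpa only [hjb] using h1
  obtain ⟨S, hS, hS2⟩ := h ι _ (fun i => jD (d i)) K0 K1 h0 h1 ε hε
  exact ⟨S, rat_of_inj jD hD hDi hS, hS2⟩

/-- H1 -/
theorem Int0.of_map {M M' : Type} [MulAction G M] [MulAction G M'] (j : M → M') (hj : Eqv G j)
    (h : Int0 k G M') : Int0 k G M := fun ι _ lab X hX =>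
  h ι _ (fun i => j (lab i)) X (hX.mapLab j hj)

end Inj

end Pool.Agent.HI
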