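import Pool.Agent.HI.H2

set_option autoImplicit false
set_option linter.unusedSectionVars false

noncomputable section

open scoped InnerProductSpace ENNReal Topology
open Classical Filter ContinuousLinearMap

namespace Pool.Agent.HI

open Pool.Agent.VN Pool.Agent.LFT

section H10aux

variable {G : Type} [Group G]

lemma H10_eqL {κ κ' : Type} [Fintype κ] [Fintype κ'] :
    Equivar (prL : L2 (κ ⊕ κ') G →L[ℂ] L2 κ G) := by
  unfold prL crd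
  exact mulR_equivar _

lemma H10_eqR {κ κ' : Type} [Fintype κ] [Fintype κ'] :
    Equivar (prR : L2 (κ ⊕ κ') G →L[ℂ] L2 κ' G) := by
  unfold prR crd
  exact mulR_equivar _

lemma H10_einL {κ κ' : Type} [Fintype κ] [Fintype κ'] :
    Equivar (inL : L2 κ G →L[ℂ] L2 (κ ⊕ κ') G) := by
  unfold inL
  exact mulR_equivar _

lemma H10_einR {κ κ' : Type} [Fintype κ] [Fintype κ'] :
    Equivar (inR : L2 κ' G →L[ℂ] L2 (κ ⊕ κ') G) := by
  unfold inR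
  exact mulR_equivar _

lemma H10_ciL {κ κ' : Type} [Fintype κ] [Fintype κ'] {X : Submodule ℂ (L2 κ G)} (hX : CI X) :
    CI (cmL (κ' := κ') X) := CI.comap H10_eqL hX

lemma H10_ciR {κ κ' : Type} [Fintype κ] [Fintype κ'] {X : Submodule ℂ (L2 κ' G)} (hX : CI X) :
    CI (cmR (κ := κ) X) := CI.comap H10_eqR hX

lemma H10_imc_le {κ κ' : Type} [Fintype κ] [Fintype κ'] {T : L2 κ G →L[ℂ] L2 κ' G}
    (hT : Equivar T) {X : Submodule ℂ (L2 κ G)} (hX : CI X) : dm (imc T X) ≤ dm X := by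
  have h1 := dm_imc hT hX
  have h2 := dm_nonneg (X ⊓ kr T)
  linarith

/-- the dimension of a product, upper bound -/
lemma H10_prod_le {κ κ' : Type} [Fintype κ] [Fintype κ'] {P : Submodule ℂ (L2 κ G)}
    {Q : Submodule ℂ (L2 κ' G)} (hP : CI P) (hQ : CI Q) :
    dm (cmL P ⊓ cmR Q : Submodule ℂ (L2 (κ ⊕ κ') G)) ≤ dm P + dm Q := by
  have cF : CI (cmL P ⊓ cmR Q : Submodule ℂ (L2 (κ ⊕ κ') G)) := (H10_ciL hP).inf (H10_ciR hQ)
  have h1 := dm_imc H10_eqL cF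
  have h2 : dm (imc (prL : L2 (κ ⊕ κ') G →L[ℂ] L2 κ G) (cmL P ⊓ cmR Q)) ≤ dm P :=
    dm_mono (imc_le hP.cl fun x hx => hx.1)
  have cF' : CI ((cmL P ⊓ cmR Q) ⊓ kr (prL : L2 (κ ⊕ κ') G →L[ℂ] L2 κ G)) :=
    cF.inf (CI.kr H10_eqL)
  have h3 := dm_imc H10_eqR cF'
  have h4 : dm (imc (prR : L2 (κ ⊕ κ') G →L[ℂ] L2 κ' G)
      ((cmL P ⊓ cmR Q) ⊓ kr (prL : L2 (κ ⊕ κ') G →L[ℂ] L2 κ G))) ≤ dm Q :=
    dm_mono (imc_le hQ.cl fun x hx => hx.1.2)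
  have h5 : ((cmL P ⊓ cmR Q) ⊓ kr (prL : L2 (κ ⊕ κ') G →L[ℂ] L2 κ G)) ⊓
      kr (prR : L2 (κ ⊕ κ') G →L[ℂ] L2 κ' G) = ⊥ := by
    rw [eq_bot_iff]
    intro x hx
    have e1 : prL x = 0 := hx.1.2
    have e2 : prR x = 0 := hx.2
    rw [Submodule.mem_bot, ← inL_prL_add x, e1, e2, map_zero, map_zero, add_zero]
  rw [h5, dm_bot] at h3
  linarith

/-- the dimension of a product, lower bound -/
lemma H10_prod_ge {κ κ' : Type} [Fintype κ] [Fintype κ'] {P : Submodule ℂ (L2 κ G)}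
    {Q : Submodule ℂ (L2 κ' G)} (hP : CI P) (hQ : CI Q) :
    dm P + dm Q ≤ dm (cmL P ⊓ cmR Q : Submodule ℂ (L2 (κ ⊕ κ') G)) := by
  have cF : CI (cmL P ⊓ cmR Q : Submodule ℂ (L2 (κ ⊕ κ') G)) := (H10_ciL hP).inf (H10_ciR hQ)
  have h1 := dm_imc H10_eqL cF
  have h2 : dm P ≤ dm (imc (prL : L2 (κ ⊕ κ') G →L[ℂ] L2 κ G) (cmL P ⊓ cmR Q)) := by
    refine dm_mono fun p hp => ?_
    have h := mem_imc (prL : L2 (κ ⊕ κ') G →L[ℂ] L2 κ G) (X := cmL P ⊓ cmR Q) (x := inL p)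
      ⟨by show prL (inL p) ∈ P; rw [prL_inL]; exact hp,
        by show prR (inL p) ∈ Q; rw [prR_inL]; exact Q.zero_mem⟩
    rwa [prL_inL] at h
  have cF' : CI ((cmL P ⊓ cmR Q) ⊓ kr (prL : L2 (κ ⊕ κ') G →L[ℂ] L2 κ G)) :=
    cF.inf (CI.kr H10_eqL)
  have h3 := H10_imc_le H10_eqR cF'
  have h4 : dm Q ≤ dm (imc (prR : L2 (κ ⊕ κ') G →L[ℂ] L2 κ' G)
      ((cmL P ⊓ cmR Q) ⊓ kr (prL : L2 (κ ⊕ κ') G →L[ℂ] L2 κ G))) := by
    refine dm_mono fun p hp => ?_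
    have h := mem_imc (prR : L2 (κ ⊕ κ') G →L[ℂ] L2 κ' G)
      (X := (cmL P ⊓ cmR Q) ⊓ kr (prL : L2 (κ ⊕ κ') G →L[ℂ] L2 κ G)) (x := inR p)
      ⟨⟨by show prL (inR p) ∈ P; rw [prL_inR]; exact P.zero_mem,
        by show prR (inR p) ∈ Q; rw [prR_inR]; exact hp⟩,
        by show prL (inR p) = 0; rw [prL_inR]⟩
    rwa [prR_inR] at h
  linarith

variable {ι ν : Type} [Fintype ι] [Fintype ν]

/-- the operator `(x, z, y, z2) ↦ y - U x` -/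
def H10_psi (U : L2 ι G →L[ℂ] L2 ι G) : L2 ((ι ⊕ ν) ⊕ (ι ⊕ ν)) G →L[ℂ] L2 ι G :=
  prL ∘L prR - U ∘L (prL ∘L prL)

lemma H10_psi_apply (U : L2 ι G →L[ℂ] L2 ι G) (w : L2 ((ι ⊕ ν) ⊕ (ι ⊕ ν)) G) :
    H10_psi U w = prL (prR w) - U (prL (prL w)) := rfl

lemma H10_psi_equivar {U : L2 ι G →L[ℂ] L2 ι G} (hU : Equivar U) :
    Equivar (H10_psi (ν := ν) U) := by
  intro s w
  rw [H10_psi_apply, H10_psi_apply, H10_eqR s w, H10_eqL s w, H10_eqL, H10_eqL, hU, map_sub]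

/-- lower bound -/
lemma H10_low {U : L2 ι G →L[ℂ] L2 ι G} (hU : Equivar U) {K0 : Submodule ℂ (L2 (ι ⊕ ν) G)}
    {K1 : Submodule ℂ (L2 ν G)} (c0 : CI K0) (c1 : CI K1) {Z : Submodule ℂ (L2 ι G)}
    (hZ : Z = imc (prL : L2 (ι ⊕ ν) G →L[ℂ] L2 ι G) (K0 ⊓ cmR K1))
    (hZU : ∀ x ∈ Z, U x ∈ Z) :
    2 * dm ((K0 ⊓ cmR K1) ⊓ kr (prL : L2 (ι ⊕ ν) G →L[ℂ] L2 ι G)) + dm Z ≤
      dm ((cmL K0 ⊓ cmR K0) ⊓ ((cmL (cmR K1) ⊓ cmR (cmR K1)) ⊓ kr (H10_psi (ν := ν) U))) := by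
  have cK : CI (K0 ⊓ cmR (κ := ι) K1) := c0.inf (H10_ciR c1)
  have cZ : CI Z := by
    rw [hZ]
    exact CI.imc H10_eqL cK.inv
  have e1 : (cmL K0 ⊓ cmR K0) ⊓ ((cmL (cmR K1) ⊓ cmR (cmR K1)) ⊓ kr (H10_psi (ν := ν) U)) =
      (cmL (K0 ⊓ cmR K1) ⊓ cmR (K0 ⊓ cmR K1)) ⊓ kr (H10_psi (ν := ν) U) := by
    ext w
    constructor
    · rintro ⟨⟨h1, h2⟩, ⟨h3, h4⟩, h5⟩
      exact ⟨⟨⟨h1, h3⟩, ⟨h2, h4⟩⟩, h5⟩
    · rintro ⟨⟨⟨h1, h3⟩, ⟨h2, h4⟩⟩, h5⟩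
      exact ⟨⟨h1, h2⟩, ⟨h3, h4⟩, h5⟩
  rw [e1]
  have cF : CI (cmL (K0 ⊓ cmR K1) ⊓ cmR (K0 ⊓ cmR K1) :
      Submodule ℂ (L2 ((ι ⊕ ν) ⊕ (ι ⊕ ν)) G)) := (H10_ciL cK).inf (H10_ciR cK)
  have h1 := dm_imc (H10_psi_equivar (ν := ν) hU) cF
  have h2 : dm (imc (H10_psi (ν := ν) U) (cmL (K0 ⊓ cmR K1) ⊓ cmR (K0 ⊓ cmR K1))) ≤ dm Z := by
    refine dm_mono (imc_le cZ.cl ?_)
    rintro w ⟨hw1, hw2⟩
    rw [H10_psi_apply]
    refine Z.sub_mem ?_ (hZU _ ?_)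
    · rw [hZ]
      exact mem_imc _ hw2
    · rw [hZ]
      exact mem_imc _ hw1
  have h3 := H10_prod_ge cK cK
  have h4 := dm_imc H10_eqL cK
  rw [← hZ] at h4
  linarith

/-- upper bound -/
lemma H10_up {U U' : L2 ι G →L[ℂ] L2 ι G} (hU : Equivar U) (hU' : Equivar U')
    (hUU : ∀ x, U (U' x) = x) (hUU' : ∀ x, U' (U x) = x) {K0 : Submodule ℂ (L2 (ι ⊕ ν) G)}
    {K1 : Submodule ℂ (L2 ν G)} (c0 : CI K0) (c1 : CI K1) {Z : Submodule ℂ (L2 ι G)}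
    (hZ : Z = imc (prL : L2 (ι ⊕ ν) G →L[ℂ] L2 ι G) (K0 ⊓ cmR K1))
    (hZU' : ∀ x ∈ Z, U' x ∈ Z) {X : Submodule ℂ (L2 ((ι ⊕ ν) ⊕ (ι ⊕ ν)) G)} (cX : CI X)
    (hx : ∀ w ∈ X, inL (inL (prL (prL w))) ∈ X) (hy : ∀ w ∈ X, inR (inL (prL (prR w))) ∈ X)
    {Xx Xy : Submodule ℂ (L2 ι G)}
    (hXx : Xx = X.comap (inL ∘L inL : L2 ι G →L[ℂ] L2 ((ι ⊕ ν) ⊕ (ι ⊕ ν)) G).toLinearMap)
    (hXy : Xy = X.comap (inR ∘L inL : L2 ι G →L[ℂ] L2 ((ι ⊕ ν) ⊕ (ι ⊕ ν)) G).toLinearMap) :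
    dm ((cmL K0 ⊓ cmR K0) ⊓ X) +
      dm (((cmL (cmR K1) ⊓ cmR (cmR K1)) ⊓ kr (H10_psi (ν := ν) U)) ⊓ X) - dm X ≤
      2 * dm ((K0 ⊓ cmR K1) ⊓ kr (prL : L2 (ι ⊕ ν) G →L[ℂ] L2 ι G)) + dm (Z ⊓ Xx) +
        dm (Z ⊓ Xy.comap U.toLinearMap) - dm (csup Xx (Xy.comap U.toLinearMap)) := by
  have cK : CI (K0 ⊓ cmR (κ := ι) K1) := c0.inf (H10_ciR c1)
  have cZ : CI Z := by
    rw [hZ]
    exact CI.imc H10_eqL cK.inv
  have cXx : CI Xx := by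
    rw [hXx]
    exact CI.comap (H10_einL.comp H10_einL) cX
  have cXy : CI Xy := by
    rw [hXy]
    exact CI.comap (H10_einR.comp H10_einL) cX
  have mXx : ∀ x, x ∈ Xx ↔ inL (inL x) ∈ X := by
    intro x
    rw [hXx]
    rfl
  have mXy : ∀ x, x ∈ Xy ↔ inR (inL x) ∈ X := by
    intro x
    rw [hXy]
    rfl
  have cM : CI (cmL (cmR K1) ⊓ cmR (cmR K1) : Submodule ℂ (L2 ((ι ⊕ ν) ⊕ (ι ⊕ ν)) G)) :=
    (H10_ciL (H10_ciR c1)).inf (H10_ciR (H10_ciR c1))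
  have cL0 : CI (cmL K0 ⊓ cmR K0 : Submodule ℂ (L2 ((ι ⊕ ν) ⊕ (ι ⊕ ν)) G)) :=
    (H10_ciL c0).inf (H10_ciR c0)
  set M : Submodule ℂ (L2 ((ι ⊕ ν) ⊕ (ι ⊕ ν)) G) := cmL (cmR K1) ⊓ cmR (cmR K1) with hM
  set L0 : Submodule ℂ (L2 ((ι ⊕ ν) ⊕ (ι ⊕ ν)) G) := cmL K0 ⊓ cmR K0 with hL0
  have cW : CI (X ⊓ M) := cX.inf cM
  -- A1
  have A1 : dm ((M ⊓ kr (H10_psi (ν := ν) U)) ⊓ X) + dm (csup Xx (Xy.comap U.toLinearMap)) ≤
      dm (X ⊓ M) := by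
    have h1 := dm_imc (H10_psi_equivar (ν := ν) hU) cW
    have h2 : (M ⊓ kr (H10_psi (ν := ν) U)) ⊓ X = (X ⊓ M) ⊓ kr (H10_psi (ν := ν) U) := by
      rw [inf_comm (M ⊓ kr (H10_psi (ν := ν) U)) X, ← inf_assoc]
    have h3 : csup Xx (Xy.comap U.toLinearMap) ≤
        imc U' (imc (H10_psi (ν := ν) U) (X ⊓ M)) := by
      rw [imc_imc]
      apply csup_le (Submodule.isClosed_topologicalClosure _)
      · intro x hx
        have hxM : inL (inL (-x)) ∈ X ⊓ M := by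
          refine ⟨(mXx _).1 (Xx.neg_mem hx), ?_, ?_⟩
          · show prR (prL (inL (inL (-x)))) ∈ K1
            rw [prL_inL, prR_inL]
            exact K1.zero_mem
          · show prR (prR (inL (inL (-x)))) ∈ K1
            rw [prR_inL, map_zero]
            exact K1.zero_mem
        have h := mem_imc (U' ∘L H10_psi (ν := ν) U) hxM
        rw [ContinuousLinearMap.comp_apply, H10_psi_apply, prR_inL, prL_inL, prL_inL, map_zero,
          zero_sub, map_neg U, neg_neg, hUU'] at h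
        exact h
      · intro x hx
        have hx' : inR (inL (U x)) ∈ X := (mXy _).1 hx
        have hxM : inR (inL (U x)) ∈ X ⊓ M := by
          refine ⟨hx', ?_, ?_⟩
          · show prR (prL (inR (inL (U x)))) ∈ K1
            rw [prL_inR, map_zero]
            exact K1.zero_mem
          · show prR (prR (inR (inL (U x)))) ∈ K1
            rw [prR_inR, prR_inL]
            exact K1.zero_mem
        have h := mem_imc (U' ∘L H10_psi (ν := ν) U) hxM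
        rw [ContinuousLinearMap.comp_apply, H10_psi_apply, prR_inR, prL_inR, prL_inL, map_zero,
          map_zero, sub_zero, hUU'] at h
        exact h
    have h4 := dm_mono h3
    have h5 := H10_imc_le hU' (CI.imc (H10_psi_equivar (ν := ν) hU) cW.inv)
    rw [h2]
    linarith
  -- A2
  have A2 : dm (L0 ⊓ X) + dm (X ⊓ M) ≤ dm X + dm (L0 ⊓ (X ⊓ M)) := by
    have h1 := dm_csup (cL0.inf cX) cW
    have h2 : csup (L0 ⊓ X) (X ⊓ M) ≤ X := csup_le cX.cl inf_le_right inf_le_left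
    have h3 : (L0 ⊓ X) ⊓ (X ⊓ M) ≤ L0 ⊓ (X ⊓ M) := inf_le_inf_right _ inf_le_left
    have h4 := dm_mono h2
    have h5 := dm_mono h3
    linarith
  -- A3
  have cP : CI ((K0 ⊓ cmR K1) ⊓ Xx.comap (prL : L2 (ι ⊕ ν) G →L[ℂ] L2 ι G).toLinearMap) :=
    cK.inf (CI.comap H10_eqL cXx)
  have cQ : CI ((K0 ⊓ cmR K1) ⊓ Xy.comap (prL : L2 (ι ⊕ ν) G →L[ℂ] L2 ι G).toLinearMap) :=
    cK.inf (CI.comap H10_eqL cXy)
  have A3 : dm (L0 ⊓ (X ⊓ M)) ≤
      dm ((K0 ⊓ cmR K1) ⊓ Xx.comap (prL : L2 (ι ⊕ ν) G →L[ℂ] L2 ι G).toLinearMap) +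
      dm ((K0 ⊓ cmR K1) ⊓ Xy.comap (prL : L2 (ι ⊕ ν) G →L[ℂ] L2 ι G).toLinearMap) := by
    refine le_trans (dm_mono ?_) (H10_prod_le cP cQ)
    rintro w ⟨⟨h1, h2⟩, h3, h4, h5⟩
    exact ⟨⟨⟨h1, h4⟩, (mXx _).2 (hx w h3)⟩, ⟨⟨h2, h5⟩, (mXy _).2 (hy w h3)⟩⟩
  -- A4
  have A4 := dm_comap H10_eqL cK cXx
  have A4' := dm_comap H10_eqL cK cXy
  rw [← hZ] at A4 A4'
  -- A5
  have A5 : dm (Z ⊓ Xy) ≤ dm (Z ⊓ Xy.comap U.toLinearMap) := by
    have h1 := dm_comap hU cZ cXy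
    have h2 : dm (Z ⊓ Xy) ≤ dm (imc U Z ⊓ Xy) := by
      refine dm_mono (inf_le_inf_right _ fun x hx => ?_)
      have h := mem_imc U (hZU' x hx)
      rwa [hUU] at h
    have h3 := dm_nonneg (Z ⊓ kr U)
    linarith
  linarith

end H10aux

section H10loc

variable {G : Type} [Group G] {k : Subring ℂ} {D : Type} [MulAction G D]
variable {ι ν : Type} [Fintype ι] [Fintype ν] {d1 d2 : ι → D} {e : ν → D}

lemma H10_locx {X : Submodule ℂ (L2 ((ι ⊕ ν) ⊕ (ι ⊕ ν)) G)}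
    (hX : Rat k (Sum.elim (Sum.elim d1 e) (Sum.elim d2 e)) X)
    (s12 : ∀ (g : G) (i i' : ι), g • d1 i ≠ d2 i')
    (s1 : ∀ (g : G) (i : ι) (q : ν), g • d1 i ≠ e q) :
    ∀ w ∈ X, inL (inL (prL (prL w))) ∈ X := by
  intro w hw
  apply mem_of_pieces hX.ci.cl hX.loc
  intro m
  have key : ∀ (g g' : G) (i : ι) (δ : D), g • d1 i = m → g' • δ = m → (g'⁻¹ * g) • d1 i = δ := by
    intro g g' i δ h1 h2
    rw [mul_smul, h1, ← h2, inv_smul_smul]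
  by_cases hm : ∃ (g : G) (i : ι), g • d1 i = m
  · obtain ⟨g, i, hgi⟩ := hm
    have h : cutF (pV (Sum.elim (Sum.elim d1 e) (Sum.elim d2 e))) m
        (inL (inL (prL (prL w)))) =
        cutF (pV (Sum.elim (Sum.elim d1 e) (Sum.elim d2 e))) m w := by
      ext ⟨c, g'⟩
      rw [cutF_apply, cutF_apply]
      by_cases h : pV (Sum.elim (Sum.elim d1 e) (Sum.elim d2 e)) (c, g') = m
      · rw [if_pos h, if_pos h]
        rcases c with (i' | q) | (i' | q)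
        · rw [inL_inl, inL_inl, prL_apply, prL_apply]
        · exact absurd (key g g' i (e q) hgi h) (s1 _ _ _)
        · exact absurd (key g g' i (d2 i') hgi h) (s12 _ _ _)
        · exact absurd (key g g' i (e q) hgi h) (s1 _ _ _)
      · rw [if_neg h, if_neg h]
    rw [h]
    exact hX.loc w hw m
  · have h : cutF (pV (Sum.elim (Sum.elim d1 e) (Sum.elim d2 e))) m
        (inL (inL (prL (prL w)))) = 0 := by
      ext ⟨c, g'⟩
      rw [cutF_apply]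
      by_cases h : pV (Sum.elim (Sum.elim d1 e) (Sum.elim d2 e)) (c, g') = m
      · rw [if_pos h]
        rcases c with (i' | q) | (i' | q)
        · exact absurd ⟨g', i', h⟩ hm
        · rw [inL_inl, inL_inr]
          rfl
        · rw [inL_inr]
          rfl
        · rw [inL_inr]
          rfl
      · rw [if_neg h]
        rfl
    rw [h]
    exact X.zero_mem

lemma H10_locy {X : Submodule ℂ (L2 ((ι ⊕ ν) ⊕ (ι ⊕ ν)) G)}
    (hX : Rat k (Sum.elim (Sum.elim d1 e) (Sum.elim d2 e)) X)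
    (s12 : ∀ (g : G) (i i' : ι), g • d1 i ≠ d2 i')
    (s2 : ∀ (g : G) (i : ι) (q : ν), g • d2 i ≠ e q) :
    ∀ w ∈ X, inR (inL (prL (prR w))) ∈ X := by
  intro w hw
  apply mem_of_pieces hX.ci.cl hX.loc
  intro m
  have key : ∀ (g g' : G) (i : ι) (δ : D), g • d2 i = m → g' • δ = m → (g'⁻¹ * g) • d2 i = δ := by
    intro g g' i δ h1 h2
    rw [mul_smul, h1, ← h2, inv_smul_smul]
  by_cases hm : ∃ (g : G) (i : ι), g • d2 i = m
  · obtain ⟨g, i, hgi⟩ := hm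
    have h : cutF (pV (Sum.elim (Sum.elim d1 e) (Sum.elim d2 e))) m
        (inR (inL (prL (prR w)))) =
        cutF (pV (Sum.elim (Sum.elim d1 e) (Sum.elim d2 e))) m w := by
      ext ⟨c, g'⟩
      rw [cutF_apply, cutF_apply]
      by_cases h : pV (Sum.elim (Sum.elim d1 e) (Sum.elim d2 e)) (c, g') = m
      · rw [if_pos h, if_pos h]
        rcases c with (i' | q) | (i' | q)
        · exfalso
          have h1 : g' • d1 i' = m := h
          apply s12 (g⁻¹ * g') i' i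
          rw [mul_smul, h1, ← hgi, inv_smul_smul]
        · exact absurd (key g g' i (e q) hgi h) (s2 _ _ _)
        · rw [inR_inr, inL_inl, prL_apply, prR_apply]
        · exact absurd (key g g' i (e q) hgi h) (s2 _ _ _)
      · rw [if_neg h, if_neg h]
    rw [h]
    exact hX.loc w hw m
  · have h : cutF (pV (Sum.elim (Sum.elim d1 e) (Sum.elim d2 e))) m
        (inR (inL (prL (prR w)))) = 0 := by
      ext ⟨c, g'⟩
      rw [cutF_apply]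
      by_cases h : pV (Sum.elim (Sum.elim d1 e) (Sum.elim d2 e)) (c, g') = m
      · rw [if_pos h]
        rcases c with (i' | q) | (i' | q)
        · rw [inR_inl]
          rfl
        · rw [inR_inl]
          rfl
        · exact absurd ⟨g', i', h⟩ hm
        · rw [inR_inr, inL_inr]
          rfl
      · rw [if_neg h]
        rfl
    rw [h]
    exact X.zero_mem

end H10loc

section Max

variable {G : Type} [Group G] {k : Subring ℂ}

/-- H10: the doubling argument -/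
theorem doubling {D A B M : Type} [MulAction G D] [MulAction G A] [MulAction G B] [MulAction G M]
    {a : D → A} {b : D → B} {β : D → M} (ha : Eqv G a) (hb : Eqv G b) (hβ : Eqv G β)
    (hAF : AF k G a b) (hI : Int0 k G M)
    {ι ν : Type} [Fintype ι] [Fintype ν] {v : ι → A} {lab : ι → M} {d1 d2 : ι → D} {e : ν → D}
    (h1 : ∀ i, a (d1 i) = v i) (h2 : ∀ i, a (d2 i) = v i)
    (hl1 : ∀ i, β (d1 i) = lab i) (hl2 : ∀ i, β (d2 i) = lab i)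
    (s12 : ∀ (g : G) (i i' : ι), g • d1 i ≠ d2 i') (s1 : ∀ (g : G) (i : ι) (q : ν), g • d1 i ≠ e q)
    (s2 : ∀ (g : G) (i : ι) (q : ν), g • d2 i ≠ e q)
    {U U' : L2 ι G →L[ℂ] L2 ι G} (hUU : ∀ x, U (U' x) = x) (hUU' : ∀ x, U' (U x) = x)
    (hU : LocOp k (fun i => b (d1 i)) (fun i => b (d2 i)) U)
    (hU' : LocOp k (fun i => b (d2 i)) (fun i => b (d1 i)) U')
    (hUA : LocOp k lab lab U) (hUA' : LocOp k lab lab U')
    {K0 : Submodule ℂ (L2 (ι ⊕ ν) G)} {K1 : Submodule ℂ (L2 ν G)}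
    (hK0 : Rat k (Sum.elim v fun q => a (e q)) K0) (hK1 : Rat k (fun q => b (e q)) K1)
    {Z : Submodule ℂ (L2 ι G)} (hZr : Rat k lab Z)
    (hZ : Z = imc (prL : L2 (ι ⊕ ν) G →L[ℂ] L2 ι G) (K0 ⊓ cmR K1))
    (hZU : ∀ x ∈ Z, U x ∈ Z) (hZU' : ∀ x ∈ Z, U' x ∈ Z) : Rat k d1 Z := by
  have c0 := hK0.ci
  have c1 := hK1.ci
  have eU : Equivar U := hU.equivar
  have eU' : Equivar U' := hU'.equivar
  have cK : CI (K0 ⊓ cmR (κ := ι) K1) := c0.inf (H10_ciR c1)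
  have cZ : CI Z := by
    rw [hZ]
    exact CI.imc H10_eqL cK.inv
  have ea : (fun i => a (Sum.elim (Sum.elim d1 e) (Sum.elim d2 e) i)) =
      Sum.elim (Sum.elim v fun q => a (e q)) (Sum.elim v fun q => a (e q)) := by
    funext c
    rcases c with (i | q) | (i | q)
    · exact h1 i
    · rfl
    · exact h2 i
    · rfl
  have eb : (fun i => b (Sum.elim (Sum.elim d1 e) (Sum.elim d2 e) i)) =
      Sum.elim (Sum.elim (fun i => b (d1 i)) fun q => b (e q))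
        (Sum.elim (fun i => b (d2 i)) fun q => b (e q)) := by
    funext c
    rcases c with (i | q) | (i | q) <;> rfl
  have rL0 : Rat k (fun i => a (Sum.elim (Sum.elim d1 e) (Sum.elim d2 e) i))
      (cmL K0 ⊓ cmR K0) := by
    rw [ea]
    exact (rat_comap (LocOp.prL _ _) hK0).inf (rat_comap (LocOp.prR _ _) hK0)
  have rM : Rat k (fun i => b (Sum.elim (Sum.elim d1 e) (Sum.elim d2 e) i))
      (cmL (cmR (κ := ι) K1) ⊓ cmR (cmR (κ := ι) K1)) := by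
    rw [eb]
    exact (rat_comap (LocOp.prL _ _) (rat_comap (LocOp.prR _ _) hK1)).inf
      (rat_comap (LocOp.prR _ _) (rat_comap (LocOp.prR _ _) hK1))
  have rK : Rat k (fun i => b (Sum.elim (Sum.elim d1 e) (Sum.elim d2 e) i))
      (kr (H10_psi (ν := ν) U)) := by
    rw [eb]
    exact Rat.kr (((LocOp.prL _ _).comp (LocOp.prR _ _)).sub
      (hU.comp ((LocOp.prL _ _).comp (LocOp.prL _ _))))
  have rL1 := rM.inf rK
  have low := H10_low eU c0 c1 hZ hZU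
  have step : ∀ ε : ℝ, 0 < ε → ∃ V : Submodule ℂ (L2 ι G), Rat k d1 V ∧
      dm Z - ε ≤ dm (Z ⊓ V) ∧ dm V ≤ dm Z + ε := by
    intro ε hε
    obtain ⟨X, hX, hle⟩ := hAF _ inferInstance (Sum.elim (Sum.elim d1 e) (Sum.elim d2 e)) _ _
      rL0 rL1 ε hε
    have up := H10_up eU eU' hUU hUU' c0 c1 hZ hZU' hX.ci (H10_locx hX s12 s1)
      (H10_locy hX s12 s2) rfl rfl
    refine ⟨X.comap (inL ∘L inL : L2 ι G →L[ℂ] L2 ((ι ⊕ ν) ⊕ (ι ⊕ ν)) G).toLinearMap,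
      rat_comap ((LocOp.inL (Sum.elim d1 e) (Sum.elim d2 e)).comp (LocOp.inL d1 e)) hX, ?_, ?_⟩
    · set V := X.comap (inL ∘L inL : L2 ι G →L[ℂ] L2 ((ι ⊕ ν) ⊕ (ι ⊕ ν)) G).toLinearMap
      set V' := (X.comap (inR ∘L inL : L2 ι G →L[ℂ]
        L2 ((ι ⊕ ν) ⊕ (ι ⊕ ν)) G).toLinearMap).comap U.toLinearMap
      have i1 : dm (Z ⊓ V') ≤ dm V' := dm_mono inf_le_right
      have i2 : dm V' ≤ dm (csup V V') := dm_mono (le_csup_right _ _)
      linarith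
    · set V := X.comap (inL ∘L inL : L2 ι G →L[ℂ] L2 ((ι ⊕ ν) ⊕ (ι ⊕ ν)) G).toLinearMap
      set V' := (X.comap (inR ∘L inL : L2 ι G →L[ℂ]
        L2 ((ι ⊕ ν) ⊕ (ι ⊕ ν)) G).toLinearMap).comap U.toLinearMap
      have i3 : dm (Z ⊓ V) ≤ dm Z := dm_mono inf_le_left
      have i4 : dm (Z ⊓ V') ≤ dm Z := dm_mono inf_le_left
      have i5 : dm V ≤ dm (csup V V') := dm_mono (le_csup_left _ _)
      linarith
  have hint : ∀ V : Submodule ℂ (L2 ι G), Rat k d1 V → ∃ z : ℤ, dm V = z := by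
    intro V hV
    have h := hV.mapLab β hβ
    have hv : (fun i => β (d1 i)) = lab := funext hl1
    rw [hv] at h
    exact hI ι inferInstance lab V h
  obtain ⟨V, hV, hV1, hV2⟩ := step (1 / 8) (by norm_num)
  have cV := hV.ci
  have same : ∀ ε : ℝ, 0 < ε → ε ≤ 1 / 8 → dm Z - ε ≤ dm (Z ⊓ V) ∧ dm V ≤ dm Z + ε := by
    intro ε hε hε'
    obtain ⟨V2, hR2, g1, g2⟩ := step ε hε
    have cV2 := hR2.ci
    obtain ⟨z1, hz1⟩ := hint V hV
    obtain ⟨z2, hz2⟩ := hint V2 hR2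
    obtain ⟨z3, hz3⟩ := hint (V ⊓ V2) (hV.inf hR2)
    have h3 : dm Z - 1 / 8 - ε ≤ dm (V ⊓ V2) := by
      have j1 := dm_csup (cZ.inf cV) (cZ.inf cV2)
      have j2 : dm (csup (Z ⊓ V) (Z ⊓ V2)) ≤ dm Z :=
        dm_mono (csup_le cZ.cl inf_le_left inf_le_left)
      have j3 : dm ((Z ⊓ V) ⊓ (Z ⊓ V2)) ≤ dm (V ⊓ V2) :=
        dm_mono (inf_le_inf inf_le_right inf_le_right)
      linarith
    have h4 : z1 ≤ z3 := by
      have : (z1 : ℝ) < (z3 : ℝ) + 1 := by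
        rw [← hz1, ← hz3]
        linarith
      have h : z1 < z3 + 1 := by exact_mod_cast this
      omega
    have h5 : z2 ≤ z3 := by
      have : (z2 : ℝ) < (z3 : ℝ) + 1 := by
        rw [← hz2, ← hz3]
        linarith
      have h : z2 < z3 + 1 := by exact_mod_cast this
      omega
    have e1 : V ⊓ V2 = V := eq_of_le_of_dm (cV.inf cV2) cV inf_le_left (by
      rw [hz1, hz3]
      exact_mod_cast h4)
    have e2 : V ⊓ V2 = V2 := eq_of_le_of_dm (cV.inf cV2) cV2 inf_le_right (by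
      rw [hz2, hz3]
      exact_mod_cast h5)
    have e3 : V = V2 := e1.symm.trans e2
    rw [e3]
    exact ⟨g1, g2⟩
  have f1 : dm Z ≤ dm (Z ⊓ V) := by
    by_contra hcon
    push Not at hcon
    have hp : 0 < min (1 / 8) ((dm Z - dm (Z ⊓ V)) / 2) :=
      lt_min (by norm_num) (by linarith)
    have h := (same _ hp (min_le_left _ _)).1
    have h' := min_le_right (1 / 8 : ℝ) ((dm Z - dm (Z ⊓ V)) / 2)
    linarith
  have f2 : dm V ≤ dm Z := by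
    by_contra hcon
    push Not at hcon
    have hp : 0 < min (1 / 8) ((dm V - dm Z) / 2) :=
      lt_min (by norm_num) (by linarith)
    have h := (same _ hp (min_le_left _ _)).2
    have h' := min_le_right (1 / 8 : ℝ) ((dm V - dm Z) / 2)
    linarith
  have e1 : Z ⊓ V = Z := eq_of_le_of_dm (cZ.inf cV) cZ inf_le_left f1
  have e2 : Z ≤ V := by
    rw [← e1]
    exact inf_le_right
  have e3 : Z = V := eq_of_le_of_dm cZ cV e2 f2
  rw [e3]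
  exact hV

end Max

end Pool.Agent.HI
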