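import Pool.Agent.HI.Defs

set_option autoImplicit false
set_option linter.unusedSectionVars false

noncomputable section

open scoped InnerProductSpace ENNReal Topology
open Classical Filter ContinuousLinearMap

namespace Pool.Agent.HI

open Pool.Agent.VN Pool.Agent.LFT

section IndR

variable {Γ Γ' : Type} [Group Γ] [Group Γ'] {k : Subring ℂ}

lemma H11_resF_mulR (f : Γ →* Γ') (hf : Function.Injective f) {ι κ : Type} [Fintype κ]
    (A : κ → (ι × Γ →₀ ℂ)) (z : L2 ι Γ') :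
    resF f hf (mulR (fun j => mapF f (A j)) z) = mulR A (resF f hf z) := by
  ext p
  rw [resF_apply, mulR_apply, mulR_apply, ev_mapF, ev_def]
  refine Finset.sum_congr rfl fun q _ => ?_
  rw [resF_apply]
  simp

lemma H11_ext (f : Γ →* Γ') (hf : Function.Injective f) {ι : Type} {z : L2 ι Γ'}
    (h : ∀ g : Γ', resF f hf (lt g z) = 0) : z = 0 := by
  ext p
  have h1 := congrArg (fun w : L2 ι Γ => w (p.1, 1)) (h p.2⁻¹)
  simp only [resF_apply, lt_apply, map_one, inv_inv, mul_one] at h1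
  exact h1

lemma H11_inf (f : Γ →* Γ') (hf : Function.Injective f) {ι κ : Type} [Fintype κ]
    (A : κ → (ι × Γ →₀ ℂ)) (Y : Submodule ℂ (L2 ι Γ)) :
    Ind f hf Y ⊓ kr (mulR (fun j => mapF f (A j))) = Ind f hf (Y ⊓ kr (mulR A)) := by
  ext z
  constructor
  · rintro ⟨h1, h2⟩ g
    refine ⟨h1 g, ?_⟩
    have h3 : mulR (fun j => mapF f (A j)) z = 0 := h2
    show mulR A (resF f hf (lt g z)) = 0
    rw [← H11_resF_mulR, mulR_equivar (fun j => mapF f (A j)) g z, h3, map_zero, map_zero]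
  · intro h
    refine ⟨fun g => (h g).1, ?_⟩
    show mulR (fun j => mapF f (A j)) z = 0
    apply H11_ext f hf
    intro g
    rw [← mulR_equivar (fun j => mapF f (A j)) g z, H11_resF_mulR]
    exact (h g).2

lemma H11_imc (f : Γ →* Γ') (hf : Function.Injective f) {ι κ : Type} [Fintype ι] [Fintype κ]
    (A : κ → (ι × Γ →₀ ℂ)) {Y : Submodule ℂ (L2 ι Γ)} (hY : CI Y) :
    imc (mulR (fun j => mapF f (A j))) (Ind f hf Y) = Ind f hf (imc (mulR A) Y) := by
  have hT : Equivar (mulR A) := mulR_equivar A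
  have hT' : Equivar (mulR (fun j => mapF f (A j))) := mulR_equivar _
  have hIY : CI (Ind f hf Y) := ⟨Ind_closed f hf hY.cl, Ind_invar f hf Y⟩
  have hI := CI.imc hT hY.inv
  have hII : CI (Ind f hf (imc (mulR A) Y)) := ⟨Ind_closed f hf hI.cl, Ind_invar f hf _⟩
  have hK : CI (Y ⊓ kr (mulR A)) := hY.inf (CI.kr hT)
  apply eq_of_le_of_dm (CI.imc hT' hIY.inv) hII
  · apply imc_le hII.cl
    intro z hz g
    rw [← hT' g z, H11_resF_mulR]
    exact mem_imc _ (hz g)
  · have h1 := dm_imc hT' hIY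
    have h2 := dm_imc hT hY
    rw [H11_inf] at h1
    have h3 : dm (Ind f hf (Y ⊓ kr (mulR A))) = dm (Y ⊓ kr (mulR A)) := vdim_Ind f hf hK.inv hK.cl
    have h4 : dm (Ind f hf Y) = dm Y := vdim_Ind f hf hY.inv hY.cl
    have h5 : dm (Ind f hf (imc (mulR A) Y)) = dm (imc (mulR A) Y) := vdim_Ind f hf hI.inv hI.cl
    linarith

lemma H11_loc (f : Γ →* Γ') {M M' : Type} [MulAction Γ M]
    [MulAction Γ' M'] (j : M → M') (hj : ∀ (γ : Γ) m, j (γ • m) = f γ • j m) {ι κ : Type}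
    [Fintype κ] {lab : ι → M} {lab' : κ → M} {A : κ → (ι × Γ →₀ ℂ)} (hA1 : ∀ j, CoefIn k (A j))
    (hA2 : ∀ j, ∀ p ∈ (A j).support, p.2⁻¹ • lab p.1 = lab' j) :
    LocOp k (fun i => j (lab i)) (fun i => j (lab' i)) (mulR (fun j => mapF f (A j))) := by
  refine ⟨_, fun a => coefIn_mapF f (hA1 a), fun a q hq => ?_, rfl⟩
  have h1 : ∃ p ∈ (A a).support, q = (p.1, f p.2) := by
    by_contra hcon
    push Not at hcon
    rw [Finsupp.mem_support_iff] at hq
    apply hq
    unfold mapF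
    rw [Finsupp.finsetSum_apply]
    refine Finset.sum_eq_zero fun p hp => ?_
    rw [Finsupp.single_apply, if_neg]
    exact fun h => hcon p hp h.symm
  obtain ⟨p, hp, rfl⟩ := h1
  show (f p.2)⁻¹ • j (lab p.1) = j (lab' a)
  rw [← map_inv, ← hj, hA2 a p hp]

lemma H11_kr (f : Γ →* Γ') (hf : Function.Injective f) {ι κ : Type} [Fintype ι] [Fintype κ]
    (A : κ → (ι × Γ →₀ ℂ)) :
    kr (mulR (fun j => mapF f (A j))) = Ind f hf (kr (mulR A)) := by
  have h := H11_inf f hf A ⊤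
  have h1 : Ind f hf (⊤ : Submodule ℂ (L2 ι Γ)) = ⊤ := by
    rw [eq_top_iff]
    intro z _ g
    trivial
  rw [h1, top_inf_eq, top_inf_eq] at h
  exact h

/-- H11: induced rational subspaces are rational -/
theorem rat_ind (f : Γ →* Γ') (hf : Function.Injective f) {M M' : Type} [MulAction Γ M]
    [MulAction Γ' M'] (j : M → M') (hj : ∀ (γ : Γ) m, j (γ • m) = f γ • j m) {ι : Type} [Fintype ι]
    {lab : ι → M} {X : Submodule ℂ (L2 ι Γ)} (hX : Rat k lab X) :
    Rat k (fun i => j (lab i)) (Ind f hf X) := by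
  obtain ⟨κ, μ, _, _, labκ, labμ, S, T, ⟨B, hB1, hB2, rfl⟩, ⟨A, hA1, hA2, rfl⟩, rfl⟩ := hX
  refine ⟨κ, μ, inferInstance, inferInstance, fun i => j (labκ i), fun i => j (labμ i), _, _,
    H11_loc f j hj hB1 hB2, H11_loc f j hj hA1 hA2, ?_⟩
  rw [H11_kr f hf B, H11_imc f hf A (CI.kr (mulR_equivar B))]

end IndR

end Pool.Agent.HI
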