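import Pool.Agent.HI.H11

set_option autoImplicit false
set_option linter.unusedSectionVars false

noncomputable section

open scoped InnerProductSpace ENNReal Topology
open Classical Filter ContinuousLinearMap

namespace Pool.Agent.HI

open Pool.Agent.VN Pool.Agent.LFT

section IndR

variable {Γ Γ' : Type} [Group Γ] [Group Γ'] {k : Subring ℂ}

/-- restriction commutes with right multiplications -/
lemma H12_resF_mulR (f : Γ →* Γ') (hf : Function.Injective f) {ι κ : Type} [Fintype ι]
    (A : ι → (κ × Γ →₀ ℂ)) (y : L2 κ Γ') :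
    resF f hf (mulR (fun i => mapF f (A i)) y) = mulR A (resF f hf y) := by
  ext p
  rw [resF_apply, mulR_apply, mulR_apply]
  simp only
  rw [ev_mapF, ev_def]
  refine Finset.sum_congr rfl fun q _ => ?_
  rw [resF_apply]
  simp

/-- extension by zero commutes with right multiplications -/
lemma H12_push_mulR (f : Γ →* Γ') (hf : Function.Injective f) {ι κ : Type} [Fintype ι]
    (A : ι → (κ × Γ →₀ ℂ)) (y : L2 κ Γ) :
    push _ (injIdx (ι := ι) f hf) (mulR A y)
      = mulR (fun i => mapF f (A i)) (push _ (injIdx (ι := κ) f hf) y) := by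
  ext r
  obtain ⟨i, g⟩ := r
  rw [mulR_apply]
  simp only
  rw [ev_mapF]
  by_cases hg : ∃ b, f b = g
  · obtain ⟨b, rfl⟩ := hg
    have e1 : push _ (injIdx (ι := ι) f hf) (mulR A y) (i, f b) = mulR A y (i, b) :=
      push_apply _ (injIdx (ι := ι) f hf) (mulR A y) (i, b)
    rw [e1, mulR_apply, ev_def]
    refine Finset.sum_congr rfl fun q _ => ?_
    have e : ((q.1, f b * (f q.2)⁻¹) : κ × Γ') = (fun q : κ × Γ => ((q.1, f q.2) : κ × Γ'))
        (q.1, b * q.2⁻¹) := by simp
    rw [e, push_apply]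
  · rw [push_apply_of_notMem]
    · symm
      refine Finset.sum_eq_zero fun q _ => ?_
      rw [push_apply_of_notMem, mul_zero]
      intro r hr
      apply hg
      have h2 : f r.2 = g * (f q.2)⁻¹ := congrArg Prod.snd hr
      exact ⟨r.2 * q.2, by rw [map_mul, h2]; group⟩
    · intro r hr
      exact hg ⟨r.2, congrArg Prod.snd hr⟩

lemma H12_push_mem (f : Γ →* Γ') (hf : Function.Injective f) {κ : Type}
    {N : Submodule ℂ (L2 κ Γ)} (hN : Invar N) {x : L2 κ Γ} (hx : x ∈ N) :
    push _ (injIdx (ι := κ) f hf) x ∈ Ind f hf N := by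
  intro g
  by_cases hg : ∃ b, f b = g
  · obtain ⟨b, rfl⟩ := hg
    rw [resF_lt]
    apply hN
    have : resF f hf (push _ (injIdx (ι := κ) f hf) x) = x := by
      ext p
      rw [resF_apply]
      exact push_apply _ (injIdx (ι := κ) f hf) x p
    rw [this]
    exact hx
  · have : resF f hf (lt g (push _ (injIdx (ι := κ) f hf) x)) = 0 := by
      ext p
      rw [resF_apply, lt_apply, push_apply_of_notMem]
      · rfl
      · intro q hq
        apply hg
        have h2 : f q.2 = g⁻¹ * f p.2 := congrArg Prod.snd hq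
        exact ⟨p.2 * q.2⁻¹, by rw [map_mul, map_inv, h2]; group⟩
    rw [this]
    exact N.zero_mem

/-- the coset of a point -/
def H12_p (f : Γ →* Γ') (ι : Type) (q : ι × Γ') : Γ' ⧸ f.range := QuotientGroup.mk q.2

lemma H12_p_mul (f : Γ →* Γ') {ι κ : Type} (i : ι) (i' : κ) (g : Γ') (b : Γ) :
    H12_p f ι (i, g * f b) = H12_p f κ (i', g) := by
  unfold H12_p
  simp only
  rw [QuotientGroup.eq]
  exact ⟨b⁻¹, by rw [map_inv]; group⟩

lemma H12_cut_mulR (f : Γ →* Γ') {ι κ : Type} [Fintype ι]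
    (A : ι → (κ × Γ →₀ ℂ)) (w : Γ' ⧸ f.range) (y : L2 κ Γ') :
    mulR (fun i => mapF f (A i)) (cutF (H12_p f κ) w y)
      = cutF (H12_p f ι) w (mulR (fun i => mapF f (A i)) y) := by
  ext r
  obtain ⟨i, g⟩ := r
  rw [mulR_apply, cutF_apply, mulR_apply]
  simp only
  rw [ev_mapF, ev_mapF]
  have e : ∀ q : κ × Γ, H12_p f κ (q.1, g * (f q.2)⁻¹) = H12_p f ι (i, g) := by
    intro q
    rw [← map_inv]
    exact H12_p_mul f _ _ _ _
  by_cases h : H12_p f ι (i, g) = w
  · rw [if_pos h]
    refine Finset.sum_congr rfl fun q _ => ?_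
    rw [cutF_apply, if_pos ((e q).trans h)]
  · rw [if_neg h]
    refine Finset.sum_eq_zero fun q _ => ?_
    rw [cutF_apply, if_neg (fun h' => h ((e q).symm.trans h')), mul_zero]

lemma H12_loc_Ind (f : Γ →* Γ') (hf : Function.Injective f) {κ : Type}
    (N : Submodule ℂ (L2 κ Γ)) : Loc (H12_p f κ) (Ind f hf N) := by
  intro x hx w g
  by_cases h : (QuotientGroup.mk g⁻¹ : Γ' ⧸ f.range) = w
  · have : resF f hf (lt g (cutF (H12_p f κ) w x)) = resF f hf (lt g x) := by
      ext q
      rw [resF_apply, resF_apply, lt_apply, lt_apply, cutF_apply, if_pos]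
      simp only
      rw [H12_p_mul f (ι := κ) (κ := κ) q.1 q.1]
      exact h
    rw [this]
    exact hx g
  · have : resF f hf (lt g (cutF (H12_p f κ) w x)) = 0 := by
      ext q
      rw [resF_apply, lt_apply, cutF_apply, if_neg]
      · rfl
      simp only
      rw [H12_p_mul f (ι := κ) (κ := κ) q.1 q.1]
      exact h
    rw [this]
    exact N.zero_mem

lemma H12_piece (f : Γ →* Γ') (hf : Function.Injective f) {ι : Type} (g : Γ') (z : L2 ι Γ') :
    cutF (H12_p f ι) (QuotientGroup.mk g) z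
      = lt g (push _ (injIdx (ι := ι) f hf) (resF f hf (lt g⁻¹ z))) := by
  ext r
  obtain ⟨i, h⟩ := r
  rw [cutF_apply, lt_apply]
  by_cases hh : ∃ b, f b = g⁻¹ * h
  · obtain ⟨b, hb⟩ := hh
    rw [if_pos]
    · simp only
      rw [← hb]
      have e1 : push _ (injIdx (ι := ι) f hf) (resF f hf (lt g⁻¹ z)) (i, f b)
          = (resF f hf (lt g⁻¹ z)) (i, b) :=
        push_apply _ (injIdx (ι := ι) f hf) (resF f hf (lt g⁻¹ z)) (i, b)
      rw [e1, resF_apply, lt_apply]
      simp only
      rw [hb]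
      group
    · show (QuotientGroup.mk h : Γ' ⧸ f.range) = QuotientGroup.mk g
      rw [eq_comm, QuotientGroup.eq]
      exact ⟨b, hb⟩
  · rw [if_neg, push_apply_of_notMem]
    · intro q hq
      exact hh ⟨q.2, congrArg Prod.snd hq⟩
    · intro h'
      apply hh
      have h'' : (QuotientGroup.mk h : Γ' ⧸ f.range) = QuotientGroup.mk g := h'
      rw [eq_comm, QuotientGroup.eq] at h''
      obtain ⟨b, hb⟩ := h''
      exact ⟨b, hb⟩

lemma H12_loc_imc (f : Γ →* Γ') (hf : Function.Injective f) {ι κ : Type} [Fintype ι]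
    (A : ι → (κ × Γ →₀ ℂ)) (N : Submodule ℂ (L2 κ Γ)) :
    Loc (H12_p f ι) (imc (mulR (fun i => mapF f (A i))) (Ind f hf N)) := by
  intro x hx w
  have h2 : Set.MapsTo (cutF (H12_p f ι) w : L2 ι Γ' → L2 ι Γ')
      (((Ind f hf N).map (mulR (fun i => mapF f (A i))).toLinearMap : Submodule ℂ (L2 ι Γ')) :
        Set (L2 ι Γ'))
      (((Ind f hf N).map (mulR (fun i => mapF f (A i))).toLinearMap : Submodule ℂ (L2 ι Γ')) :
        Set (L2 ι Γ')) := by
    rintro _ ⟨y, hy, rfl⟩
    exact ⟨cutF (H12_p f κ) w y, H12_loc_Ind f hf N y hy w, H12_cut_mulR f A w y⟩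
  exact h2.closure (cutF (H12_p f ι) w).continuous hx

/-- closed images commute with induction -/
lemma H12_imc_Ind (f : Γ →* Γ') (hf : Function.Injective f) {ι κ : Type} [Fintype ι]
    (A : ι → (κ × Γ →₀ ℂ)) {N : Submodule ℂ (L2 κ Γ)} (hN : Invar N) :
    imc (mulR (fun i => mapF f (A i))) (Ind f hf N) = Ind f hf (imc (mulR A) N) := by
  have hcl : IsClosed (imc (mulR (fun i => mapF f (A i))) (Ind f hf N) : Set (L2 ι Γ')) :=
    Submodule.isClosed_topologicalClosure _
  have hci : CI (imc (mulR (fun i => mapF f (A i))) (Ind f hf N)) :=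
    CI.imc (mulR_equivar _) (Ind_invar f hf N)
  apply le_antisymm
  · apply imc_le (Ind_closed f hf (Submodule.isClosed_topologicalClosure _))
    intro x hx g
    rw [← mulR_equivar (fun i => mapF f (A i)), H12_resF_mulR]
    exact mem_imc _ (hx g)
  · intro z hz
    apply mem_of_pieces (p := H12_p f ι) hcl (H12_loc_imc f hf A N)
    intro w
    obtain ⟨g, rfl⟩ := QuotientGroup.mk_surjective w
    rw [H12_piece f hf]
    apply hci.inv
    have hpush : ∀ y ∈ imc (mulR A) N, push _ (injIdx (ι := ι) f hf) y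
        ∈ imc (mulR (fun i => mapF f (A i))) (Ind f hf N) := by
      intro y hy
      have h2 : Set.MapsTo (push _ (injIdx (ι := ι) f hf) : L2 ι Γ → L2 ι Γ')
          ((N.map (mulR A).toLinearMap : Submodule ℂ (L2 ι Γ)) : Set (L2 ι Γ))
          (((Ind f hf N).map (mulR (fun i => mapF f (A i))).toLinearMap :
            Submodule ℂ (L2 ι Γ')) : Set (L2 ι Γ')) := by
        rintro _ ⟨x, hx, rfl⟩
        exact ⟨push _ (injIdx (ι := κ) f hf) x, H12_push_mem f hf hN hx,
          (H12_push_mulR f hf A x).symm⟩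
      exact h2.closure (push _ (injIdx (ι := ι) f hf)).continuous hy
    exact hpush _ (hz g⁻¹)

lemma H12_kr_Ind (f : Γ →* Γ') (hf : Function.Injective f) {κ μ : Type} [Fintype μ]
    (A : μ → (κ × Γ →₀ ℂ)) :
    LFT.kr (mulR (fun i => mapF f (A i))) = Ind f hf (LFT.kr (mulR A)) := by
  show LinearMap.ker (mulR (fun i => mapF f (A i))).toLinearMap
    = Ind f hf (LinearMap.ker (mulR A).toLinearMap)
  rw [ker_mulR, ker_mulR, ← Sol_mapF]
  congr 1
  exact Set.range_comp (mapF f) A

/-- translation of the coordinates from the right -/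
def H12_tw {κ : Type} (c : κ → Γ') : L2 κ Γ' →L[ℂ] L2 κ Γ' :=
  pull (fun q : κ × Γ' => (q.1, q.2 * (c q.1)⁻¹)) (by
    rintro ⟨a, b⟩ ⟨a', b'⟩ h
    simp only [Prod.mk.injEq] at h
    obtain ⟨rfl, h2⟩ := h
    exact Prod.ext rfl (mul_right_cancel h2))

lemma H12_tw_apply {κ : Type} (c : κ → Γ') (x : L2 κ Γ') (q : κ × Γ') :
    H12_tw c x q = x (q.1, q.2 * (c q.1)⁻¹) := rfl

/-- the pairs of an index and an element of the small group, in the large group -/
def H12_em (f : Γ →* Γ') {κ : Type} (c : κ → Γ') (d : Γ') (q : κ × Γ) : κ × Γ' :=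
  (q.1, c q.1 * f q.2 * d⁻¹)

lemma H12_em_inj (f : Γ →* Γ') (hf : Function.Injective f) {κ : Type} (c : κ → Γ') (d : Γ') :
    Function.Injective (H12_em f c d) := by
  rintro ⟨a, b⟩ ⟨a', b'⟩ h
  unfold H12_em at h
  simp only [Prod.mk.injEq] at h
  obtain ⟨rfl, h2⟩ := h
  exact Prod.ext rfl (hf (mul_left_cancel (mul_right_cancel h2)))

/-- the coefficients over the small group -/
def H12_dn (f : Γ →* Γ') (hf : Function.Injective f) {κ : Type} (c : κ → Γ') (d : Γ')
    (a : κ × Γ' →₀ ℂ) : κ × Γ →₀ ℂ :=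
  a.comapDomain (H12_em f c d) (H12_em_inj f hf c d).injOn

lemma H12_ev_dn (f : Γ →* Γ') (hf : Function.Injective f) {κ : Type} (c : κ → Γ') (d : Γ')
    (a : κ × Γ' →₀ ℂ) (ha : ∀ p ∈ a.support, ∃ q, H12_em f c d q = p) (x : L2 κ Γ') (g : Γ') :
    ev a x g = ev (mapF f (H12_dn f hf c d a)) (H12_tw c x) (g * d) := by
  rw [ev_mapF, ev_def]
  have h1 : a.support = (H12_dn f hf c d a).support.map ⟨H12_em f c d, H12_em_inj f hf c d⟩ := by
    ext p
    rw [Finset.mem_map]
    constructor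
    · intro hp
      obtain ⟨q, hq⟩ := ha p hp
      refine ⟨q, ?_, hq⟩
      unfold H12_dn
      rw [Finsupp.mem_support_iff, Finsupp.comapDomain_apply, hq]
      exact Finsupp.mem_support_iff.mp hp
    · rintro ⟨q, hq, rfl⟩
      unfold H12_dn at hq
      rw [Finsupp.mem_support_iff, Finsupp.comapDomain_apply] at hq
      exact Finsupp.mem_support_iff.mpr hq
  rw [h1, Finset.sum_map]
  refine Finset.sum_congr rfl fun q _ => ?_
  rw [H12_tw_apply]
  show a (H12_em f c d q) * x (q.1, g * (c q.1 * f q.2 * d⁻¹)⁻¹)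
    = a (H12_em f c d q) * x (q.1, g * d * (f q.2)⁻¹ * (c q.1)⁻¹)
  congr 3
  group

/-- H12: descent of rational subspaces -/
theorem rat_desc (f : Γ →* Γ') (hf : Function.Injective f) {M M' : Type} [MulAction Γ M]
    [MulAction Γ' M'] (j : M → M') (hj : ∀ (γ : Γ) m, j (γ • m) = f γ • j m)
    (hi : Function.Injective j) (hr : ∀ (g : Γ') (m m' : M), g • j m = j m' → ∃ γ, f γ = g)
    {ι : Type} [Fintype ι] {lab : ι → M} {Z : Submodule ℂ (L2 ι Γ')}
    (hZ : Rat k (fun i => j (lab i)) Z) :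
    ∃ S : Submodule ℂ (L2 ι Γ), Rat k lab S ∧ Z = Ind f hf S := by
  rcases isEmpty_or_nonempty ι with he | ⟨⟨i0⟩⟩
  · refine ⟨⊤, Rat.top lab, ?_⟩
    ext z
    have hz : z = 0 := by
      ext p
      exact (he.false p.1).elim
    constructor
    · intro _ g
      trivial
    · intro _
      rw [hz]
      exact Z.zero_mem
  obtain ⟨κ, μ, iκ, iμ, labκ, labμ, S, T, ⟨As, hAs1, hAs2, rfl⟩, ⟨At, hAt1, hAt2, rfl⟩, rfl⟩ := hZ
  -- chosen representatives
  have choose1 : ∀ {σ : Type} (l : σ → M'), ∃ (c : σ → Γ') (m : σ → M),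
      ∀ p, (∃ (g : Γ') (m : M), l p = g • j m) → l p = c p • j (m p) := by
    intro σ l
    have h : ∀ p, ∃ (c : Γ') (m : M), (∃ (g : Γ') (m : M), l p = g • j m) → l p = c • j m := by
      intro p
      by_cases hp : ∃ (g : Γ') (m : M), l p = g • j m
      · obtain ⟨g, m, h⟩ := hp
        exact ⟨g, m, fun _ => h⟩
      · exact ⟨1, lab i0, fun h => (hp h).elim⟩
    choose c m h using h
    exact ⟨c, m, h⟩
  obtain ⟨c, m, hc⟩ := choose1 labκ
  obtain ⟨d, n, hd⟩ := choose1 labμ
  set gκ : κ → Prop := fun p => ∃ (g : Γ') (m : M), labκ p = g • j m with hgκ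
  set gμ : μ → Prop := fun p => ∃ (g : Γ') (m : M), labμ p = g • j m with hgμ
  -- the new matrices
  set At' : ι → (κ × Γ →₀ ℂ) := fun i => H12_dn f hf c 1 (At i) with hAt'
  set As' : μ → (κ × Γ →₀ ℂ) := fun q => if gμ q then H12_dn f hf c (d q) (As q) else 0 with hAs'
  -- supports
  have sT : ∀ i, ∀ p ∈ (At i).support, gκ p.1 ∧ ∃ q, H12_em f c 1 q = p := by
    intro i p hp
    have h1 : p.2⁻¹ • labκ p.1 = j (lab i) := hAt2 i p hp
    have h2 : labκ p.1 = p.2 • j (lab i) := by
      rw [← h1, smul_smul, mul_inv_cancel, one_smul]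
    have h3 : gκ p.1 := ⟨_, _, h2⟩
    refine ⟨h3, ?_⟩
    have h4 := hc p.1 h3
    have h5 : ((c p.1)⁻¹ * p.2) • j (lab i) = j (m p.1) := by
      rw [mul_smul, ← h2, h4, smul_smul, inv_mul_cancel, one_smul]
    obtain ⟨γ, hγ⟩ := hr _ _ _ h5
    refine ⟨(p.1, γ), ?_⟩
    unfold H12_em
    simp only
    rw [hγ]
    ext
    · rfl
    · simp
  have sS : ∀ q, gμ q → ∀ p ∈ (As q).support, gκ p.1 ∧ ∃ r, H12_em f c (d q) r = p := by
    intro q hq p hp
    have h1 := hAs2 q p hp
    have hq' := hd q hq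
    have h2 : labκ p.1 = (p.2 * d q) • j (n q) := by
      rw [mul_smul, ← hq', ← h1, smul_smul, mul_inv_cancel, one_smul]
    have h3 : gκ p.1 := ⟨_, _, h2⟩
    refine ⟨h3, ?_⟩
    have h4 := hc p.1 h3
    have h5 : ((c p.1)⁻¹ * (p.2 * d q)) • j (n q) = j (m p.1) := by
      rw [mul_smul, ← h2, h4, smul_smul, inv_mul_cancel, one_smul]
    obtain ⟨γ, hγ⟩ := hr _ _ _ h5
    refine ⟨(p.1, γ), ?_⟩
    unfold H12_em
    simp only
    rw [hγ]
    ext
    · rfl
    · simp only
      group
  have sB : ∀ q, ¬ gμ q → ∀ p ∈ (As q).support, ¬ gκ p.1 := by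
    rintro q hq p hp ⟨g, m0, h0⟩
    apply hq
    exact ⟨p.2⁻¹ * g, m0, by rw [mul_smul, ← h0, hAs2 q p hp]⟩
  -- formulas
  have fT : ∀ (x : L2 κ Γ'), mulR At x = mulR (fun i => mapF f (At' i)) (H12_tw c x) := by
    intro x
    ext r
    rw [mulR_apply, mulR_apply]
    rw [H12_ev_dn f hf c 1 (At r.1) (fun p hp => (sT r.1 p hp).2), mul_one]
  have fS : ∀ (x : L2 κ Γ') (q : μ) (g : Γ'), gμ q →
      mulR As x (q, g) = mulR (fun i => mapF f (As' i)) (H12_tw c x) (q, g * d q) := by
    intro x q g hq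
    rw [mulR_apply, mulR_apply]
    simp only
    rw [H12_ev_dn f hf c (d q) (As q) (fun p hp => (sS q hq p hp).2)]
    have : As' q = H12_dn f hf c (d q) (As q) := if_pos hq
    rw [this]
  have fB : ∀ (y : L2 κ Γ') (q : μ) (g : Γ'), ¬ gμ q →
      mulR (fun i => mapF f (As' i)) y (q, g) = 0 := by
    intro y q g hq
    rw [mulR_apply]
    simp only
    have : As' q = 0 := if_neg hq
    rw [this, ev_mapF]
    simp
  -- supports of the new matrices
  have mT : ∀ i, ∀ q ∈ (At' i).support, H12_em f c 1 q ∈ (At i).support := by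
    intro i q hq
    rw [Finsupp.mem_support_iff] at hq ⊢
    exact hq
  have mS : ∀ i, ∀ q ∈ (As' i).support, gμ i ∧ H12_em f c (d i) q ∈ (As i).support := by
    intro i q hq
    by_cases hi' : gμ i
    · refine ⟨hi', ?_⟩
      have : As' i = H12_dn f hf c (d i) (As i) := if_pos hi'
      rw [this, Finsupp.mem_support_iff] at hq
      rw [Finsupp.mem_support_iff]
      exact hq
    · have : As' i = 0 := if_neg hi'
      rw [this] at hq
      simp at hq
  have dT : ∀ i, ∀ q ∈ (At' i).support, gκ q.1 := fun i q hq => (sT i _ (mT i q hq)).1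
  have dS : ∀ i, ∀ q ∈ (As' i).support, gκ q.1 := fun i q hq =>
    (sS i (mS i q hq).1 _ (mS i q hq).2).1
  -- first form
  have key : imc (mulR At) (LFT.kr (mulR As))
      = imc (mulR (fun i => mapF f (At' i))) (LFT.kr (mulR (fun i => mapF f (As' i)))) := by
    apply le_antisymm
    · apply imc_le (Submodule.isClosed_topologicalClosure _)
      intro x hx
      rw [fT]
      apply mem_imc
      rw [mem_kr] at hx ⊢
      ext r
      obtain ⟨q, g⟩ := r
      by_cases hq : gμ q
      · have h1 := fS x q (g * (d q)⁻¹) hq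
        rw [inv_mul_cancel_right] at h1
        rw [← h1, hx]
        rfl
      · rw [fB _ q g hq]
        rfl
    · apply imc_le (Submodule.isClosed_topologicalClosure _)
      intro y hy
      rw [mem_kr] at hy
      set y0 : L2 κ Γ' := cut {q : κ × Γ' | gκ q.1} y with hy0
      have e0 : ∀ (p : κ) (g : Γ'), gκ p → y0 (p, g) = y (p, g) := fun p g hp =>
        cut_of_mem (Y := {q : κ × Γ' | gκ q.1}) y (p := (p, g)) hp
      have e0' : ∀ (p : κ) (g : Γ'), ¬ gκ p → y0 (p, g) = 0 := fun p g hp =>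
        cut_of_notMem (Y := {q : κ × Γ' | gκ q.1}) y (p := (p, g)) hp
      have e1 : mulR (fun i => mapF f (At' i)) y = mulR (fun i => mapF f (At' i)) y0 := by
        ext r
        rw [mulR_apply, mulR_apply]
        simp only
        rw [ev_mapF, ev_mapF]
        refine Finset.sum_congr rfl fun q hq => ?_
        rw [e0 _ _ (dT _ q hq)]
      have e2 : mulR (fun i => mapF f (As' i)) y = mulR (fun i => mapF f (As' i)) y0 := by
        ext r
        rw [mulR_apply, mulR_apply]
        simp only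
        rw [ev_mapF, ev_mapF]
        refine Finset.sum_congr rfl fun q hq => ?_
        rw [e0 _ _ (dS _ q hq)]
      set x : L2 κ Γ' := H12_tw (fun p => (c p)⁻¹) y0 with hx
      have e3 : H12_tw c x = y0 := by
        ext r
        rw [H12_tw_apply, hx, H12_tw_apply]
        simp
      rw [e1, ← e3, ← fT]
      apply mem_imc
      rw [mem_kr]
      ext r
      obtain ⟨q, g⟩ := r
      by_cases hq : gμ q
      · rw [fS x q g hq, e3, ← e2, hy]
        rfl
      · rw [mulR_apply, ev_def]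
        simp only
        rw [Finset.sum_eq_zero]
        · rfl
        intro p hp
        rw [hx, H12_tw_apply, e0' _ _ (sB q hq p hp), mul_zero]
  refine ⟨imc (mulR At') (LFT.kr (mulR As')), ⟨κ, μ, iκ, iμ, m, n, mulR As', mulR At', ?_, ?_, rfl⟩,
    ?_⟩
  · refine ⟨As', ?_, ?_, rfl⟩
    · intro q p
      by_cases hq : gμ q
      · have : As' q = H12_dn f hf c (d q) (As q) := if_pos hq
        rw [this]
        exact hAs1 q _
      · have : As' q = 0 := if_neg hq
        rw [this]
        exact k.zero_mem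
    · intro q p hp
      obtain ⟨hq, h1⟩ := mS q p hp
      have h2 := hAs2 q _ h1
      have h3 := hc p.1 (dS q p hp)
      have h4 := hd q hq
      apply hi
      rw [hj, map_inv]
      have h5 : (H12_em f c (d q) p).2⁻¹ • labκ p.1 = labμ q := h2
      rw [h3, h4] at h5
      unfold H12_em at h5
      simp only at h5
      rw [smul_smul] at h5
      have h6 : (c p.1 * f p.2 * (d q)⁻¹)⁻¹ * c p.1 = d q * (f p.2)⁻¹ := by group
      rw [h6, mul_smul] at h5
      exact smul_left_cancel _ h5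
  · refine ⟨At', ?_, ?_, rfl⟩
    · intro i p
      exact hAt1 i _
    · intro i p hp
      have h1 := mT i p hp
      have h2 := hAt2 i _ h1
      have h3 := hc p.1 (dT i p hp)
      apply hi
      rw [hj, map_inv]
      have h5 : (H12_em f c 1 p).2⁻¹ • labκ p.1 = j (lab i) := h2
      rw [h3] at h5
      unfold H12_em at h5
      simp only at h5
      rw [smul_smul] at h5
      have h6 : (c p.1 * f p.2 * (1 : Γ')⁻¹)⁻¹ * c p.1 = (f p.2)⁻¹ := by group
      rw [h6] at h5
      exact h5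
  · rw [key, H12_kr_Ind f hf, H12_imc_Ind f hf At' (CI.kr (mulR_equivar As')).inv]

end IndR

end Pool.Agent.HI
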