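import Pool.Agent.HI.Defs

set_option autoImplicit false
set_option linter.unusedSectionVars false

noncomputable section

open scoped InnerProductSpace ENNReal Topology
open Classical Filter ContinuousLinearMap

namespace Pool.Agent.HI

open Pool.Agent.VN Pool.Agent.LFT

section Letters

variable {X Γ : Type} [Group Γ] [MulAction Γ X]

/-- right multiplication of the coordinate `i` by an element of the free group -/
def H13_op {ι : Type} [Fintype ι] (c : ι → FreeGroup X) :
    L2 ι (Sd X Γ) →L[ℂ] L2 ι (Sd X Γ) :=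
  mulR fun i => Finsupp.single (i, (SemidirectProduct.inl (c i) : Sd X Γ)) 1

lemma H13_apply {ι : Type} [Fintype ι] (c : ι → FreeGroup X) (z : L2 ι (Sd X Γ))
    (q : ι × Sd X Γ) :
    H13_op c z q = z (q.1, q.2 * (SemidirectProduct.inl (c q.1) : Sd X Γ)⁻¹) := by
  unfold H13_op
  rw [mulR_apply, ev_single, one_mul]

lemma H13_inv {ι : Type} [Fintype ι] (c c' : ι → FreeGroup X) (h : ∀ i, c i * c' i = 1)
    (z : L2 ι (Sd X Γ)) : H13_op c (H13_op c' z) = z := by
  ext q
  rw [H13_apply, H13_apply]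
  simp only
  rw [mul_assoc, ← mul_inv_rev, ← map_mul]
  have h' : c' q.1 * c q.1 = 1 := by
    rw [eq_inv_of_mul_eq_one_left (h q.1), mul_inv_cancel]
  rw [h', map_one, inv_one, mul_one]

lemma H13_ind {ι : Type} [Fintype ι] (c : X → FreeGroup X)
    (hc : ∀ (γ : Γ) (x : X), phi X Γ γ (c x) = c (γ • x)) (x : ι → X)
    {P : Submodule ℂ (L2 ι Γ)} (hP : CI P)
    (hl : Loc (pV x) P) (z : L2 ι (Sd X Γ)) (hz : z ∈ Ind (ir X Γ) ir_injective P) :
    H13_op (fun i => c (x i)) z ∈ Ind (ir X Γ) ir_injective P := by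
  rw [mem_Ind]
  intro g
  apply mem_of_pieces hP.cl hl
  intro ξ
  have key : cutF (pV x) ξ (resF (ir X Γ) ir_injective (lt g (H13_op (fun i => c (x i)) z))) =
      cutF (pV x) ξ (resF (ir X Γ) ir_injective
        (lt ((SemidirectProduct.inl (c ξ) : Sd X Γ) * g) z)) := by
    ext q
    rw [cutF_apply, cutF_apply]
    by_cases h : pV x q = ξ
    · rw [if_pos h, if_pos h, resF_apply, resF_apply, lt_apply, lt_apply, H13_apply]
      congr 2
      simp only
      have h1 : (SemidirectProduct.inr q.2 : Sd X Γ) * SemidirectProduct.inl (c (x q.1)) =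
          SemidirectProduct.inl (c ξ) * SemidirectProduct.inr q.2 := by
        have h2 : phi X Γ q.2 (c (x q.1)) = c ξ := by
          rw [hc]
          exact congrArg c h
        rw [← h2, SemidirectProduct.inl_aut, map_inv, inv_mul_cancel_right]
      have h3 : (SemidirectProduct.inr q.2 : Sd X Γ) * (SemidirectProduct.inl (c (x q.1)))⁻¹ =
          (SemidirectProduct.inl (c ξ))⁻¹ * SemidirectProduct.inr q.2 := by
        rw [mul_inv_eq_iff_eq_mul, mul_assoc, h1, inv_mul_cancel_left]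
      rw [mul_inv_rev, mul_assoc, mul_assoc]
      exact congrArg (fun t => z (q.1, g⁻¹ * t)) h3
    · rw [if_neg h, if_neg h]
  rw [key]
  exact hl _ (hz _) ξ

/-- H13 -/
theorem Uop_Uop' {ι : Type} [Fintype ι] (x : ι → X) (z : L2 ι (Sd X Γ)) :
    Uop x (Uop' x z) = z :=
  H13_inv (fun i => FreeGroup.of (x i)) (fun i => (FreeGroup.of (x i))⁻¹)
    (fun _ => mul_inv_cancel _) z

/-- H13 -/
theorem Uop'_Uop {ι : Type} [Fintype ι] (x : ι → X) (z : L2 ι (Sd X Γ)) :
    Uop' x (Uop x z) = z :=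
  H13_inv (fun i => (FreeGroup.of (x i))⁻¹) (fun i => FreeGroup.of (x i))
    (fun _ => inv_mul_cancel _) z

/-- H13 -/
theorem Uop_ind {ι : Type} [Fintype ι] (x : ι → X) {P : Submodule ℂ (L2 ι Γ)} (hP : CI P)
    (hl : Loc (pV x) P) (z : L2 ι (Sd X Γ)) (hz : z ∈ Ind (ir X Γ) ir_injective P) :
    Uop x z ∈ Ind (ir X Γ) ir_injective P :=
  H13_ind (fun ξ => FreeGroup.of ξ) (fun γ ξ => phi_of X Γ γ ξ) x hP hl z hz

/-- H13 -/
theorem Uop'_ind {ι : Type} [Fintype ι] (x : ι → X) {P : Submodule ℂ (L2 ι Γ)} (hP : CI P)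
    (hl : Loc (pV x) P) (z : L2 ι (Sd X Γ)) (hz : z ∈ Ind (ir X Γ) ir_injective P) :
    Uop' x z ∈ Ind (ir X Γ) ir_injective P :=
  H13_ind (fun ξ => (FreeGroup.of ξ)⁻¹) (fun γ ξ => by rw [map_inv, phi_of X Γ γ ξ]) x hP hl z hz

end Letters

end Pool.Agent.HI
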