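import Pool.Agent.HI.Defs

set_option autoImplicit false
set_option linter.unusedSectionVars false

noncomputable section

open scoped InnerProductSpace ENNReal Topology
open Classical Filter ContinuousLinearMap

namespace Pool.Agent.HI

open Pool.Agent.VN Pool.Agent.LFT

section Lin

variable {G : Type} [Group G] {k : Subring ℂ} {D A B : Type} [MulAction G D] [MulAction G A]
  [MulAction G B]

/-- finitely many darts are connected inside a finite set -/
lemma H3_chain (a : D → A) (b : D → B) (𝒮 : Set D) (c : D) (hc : c ∈ 𝒮) (R : Finset D)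
    (hR : ∀ δ ∈ R, ConnIn 𝒮 a b c δ) :
    ∃ F : Finset D, c ∈ F ∧ R ⊆ F ∧ (∀ δ ∈ F, δ ∈ 𝒮) ∧
      ∀ δ ∈ F, Relation.ReflTransGen (fun ε ε' : D => ε' ∈ F ∧ (a ε = a ε' ∨ b ε = b ε')) c δ := by
  have mono : ∀ {F F' : Finset D} (_ : F ⊆ F') {δ : D},
      Relation.ReflTransGen (fun ε ε' : D => ε' ∈ F ∧ (a ε = a ε' ∨ b ε = b ε')) c δ →
      Relation.ReflTransGen (fun ε ε' : D => ε' ∈ F' ∧ (a ε = a ε' ∨ b ε = b ε')) c δ := by
    intro F F' hF δ h
    exact Relation.ReflTransGen.mono (fun ε ε' h' => ⟨hF h'.1, h'.2⟩) _ _ h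
  have one : ∀ δ, ConnIn 𝒮 a b c δ → ∃ F : Finset D, c ∈ F ∧ δ ∈ F ∧ (∀ δ ∈ F, δ ∈ 𝒮) ∧
      ∀ δ ∈ F, Relation.ReflTransGen
        (fun ε ε' : D => ε' ∈ F ∧ (a ε = a ε' ∨ b ε = b ε')) c δ := by
    intro δ h
    induction h with
    | refl =>
      refine ⟨{c}, Finset.mem_singleton_self c, Finset.mem_singleton_self c, ?_, ?_⟩
      · intro δ hδ
        rw [Finset.mem_singleton.mp hδ]
        exact hc
      · intro δ hδ
        rw [Finset.mem_singleton.mp hδ]
    | @tail δ δ' _ h ih =>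
      obtain ⟨F, h1, h2, h3, h4⟩ := ih
      refine ⟨insert δ' F, Finset.mem_insert_of_mem h1, Finset.mem_insert_self _ _, ?_, ?_⟩
      · intro ε hε
        rcases Finset.mem_insert.mp hε with rfl | hε
        · exact h.1
        · exact h3 ε hε
      · intro ε hε
        rcases Finset.mem_insert.mp hε with rfl | hε
        · exact (mono (Finset.subset_insert _ _) (h4 δ h2)).tail
            ⟨Finset.mem_insert_self _ _, h.2⟩
        · exact mono (Finset.subset_insert _ _) (h4 ε hε)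
  induction R using Finset.induction_on with
  | empty =>
    obtain ⟨F, h1, -, h3, h4⟩ := one c Relation.ReflTransGen.refl
    exact ⟨F, h1, Finset.empty_subset _, h3, h4⟩
  | insert δ R _ ih =>
    obtain ⟨F, h1, h2, h3, h4⟩ := ih fun ε hε => hR ε (Finset.mem_insert_of_mem hε)
    obtain ⟨F', h1', h2', h3', h4'⟩ := one δ (hR δ (Finset.mem_insert_self _ _))
    refine ⟨F ∪ F', Finset.mem_union_left _ h1, ?_, ?_, ?_⟩
    · intro ε hε
      rcases Finset.mem_insert.mp hε with rfl | hε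
      · exact Finset.mem_union_right _ h2'
      · exact Finset.mem_union_left _ (h2 hε)
    · intro ε hε
      rcases Finset.mem_union.mp hε with hε | hε
      · exact h3 ε hε
      · exact h3' ε hε
    · intro ε hε
      rcases Finset.mem_union.mp hε with hε | hε
      · exact mono Finset.subset_union_left (h4 ε hε)
      · exact mono Finset.subset_union_right (h4' ε hε)

/-- the equations identifying the coordinates `q` and `q'` -/
def H3_D (G : Type) [Group G] {ν : Type} (r : ν → ν → Prop) : Set (ν × G →₀ ℂ) :=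
  Set.range fun p : {p : ν × ν // r p.1 p.2} =>
    Finsupp.single (p.1.1, (1 : G)) (1 : ℂ) - Finsupp.single (p.1.2, (1 : G)) (1 : ℂ)

lemma H3_D_finite {ν : Type} [Fintype ν] (r : ν → ν → Prop) : (H3_D G r).Finite :=
  Set.finite_range _

lemma H3_D_coef {ν : Type} (r : ν → ν → Prop) : ∀ c ∈ H3_D G r, CoefIn k c := by
  rintro _ ⟨p, rfl⟩ q
  rw [Finsupp.sub_apply]
  exact k.sub_mem (coefIn_single k _ _ k.one_mem q) (coefIn_single k _ _ k.one_mem q)

lemma H3_D_loc {M : Type} [MulAction G M] {ν : Type} {r : ν → ν → Prop} {lab : ν → M}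
    (h : ∀ q q', r q q' → lab q = lab q') : ∀ c ∈ H3_D G r, LocF (pV lab) c := by
  rintro _ ⟨p, rfl⟩
  have key : ∀ g : G, ∀ q ∈ (Finsupp.single (p.1.1, (1 : G)) (1 : ℂ) -
      Finsupp.single (p.1.2, (1 : G)) (1 : ℂ)).support,
      pV lab (q.1, g * q.2⁻¹) = g • lab p.1.1 := by
    intro g q hq
    rcases Finset.mem_union.mp (Finsupp.support_sub hq) with h' | h'
    · have h1 := Finset.mem_singleton.mp (Finsupp.support_single_subset h')
      subst h1
      simp [pV]
    · have h1 := Finset.mem_singleton.mp (Finsupp.support_single_subset h')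
      subst h1
      simp [pV, h _ _ p.2]
  intro g q hq q' hq'
  rw [key g q hq, key g q' hq']

lemma H3_D_sol {ν : Type} (r : ν → ν → Prop) (x : L2 ν G) :
    x ∈ Sol (H3_D G r) ↔ ∀ q q', r q q' → ∀ g, x (q, g) = x (q', g) := by
  rw [mem_Sol]
  constructor
  · intro h q q' hq g
    have h1 := h _ ⟨⟨(q, q'), hq⟩, rfl⟩ g
    rw [ev_sub', ev_single, ev_single] at h1
    simpa [sub_eq_zero] using h1
  · rintro h _ ⟨p, rfl⟩ g
    rw [ev_sub', ev_single, ev_single]
    have h1 := h p.1.1 p.1.2 p.2 g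
    simp [h1]

/-- the lift of a linear form -/
def H3_lift {κ ν : Type} (s : κ × G →₀ ℂ) (d : ∀ p ∈ s.support, ν) : ν × G →₀ ℂ :=
  ∑ p ∈ s.support.attach, Finsupp.single (d p.1 p.2, p.1.2) (s p.1)

lemma H3_lift_coef {κ ν : Type} {s : κ × G →₀ ℂ} (hs : CoefIn k s) (d : ∀ p ∈ s.support, ν) :
    CoefIn k (H3_lift s d) :=
  coefIn_sum _ _ _ fun p _ => coefIn_single _ _ _ (hs p.1)

lemma H3_lift_support {κ ν : Type} {s : κ × G →₀ ℂ} (d : ∀ p ∈ s.support, ν) {q : ν × G}
    (hq : q ∈ (H3_lift s d).support) : ∃ p, ∃ hp : p ∈ s.support, q = (d p hp, p.2) := by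
  by_contra hcon
  push Not at hcon
  rw [Finsupp.mem_support_iff] at hq
  apply hq
  unfold H3_lift
  rw [Finsupp.finsetSum_apply]
  refine Finset.sum_eq_zero fun p _ => ?_
  rw [Finsupp.single_apply, if_neg]
  exact fun h => hcon p.1 p.2 h.symm

lemma H3_lift_ev {κ ν : Type} {s : κ × G →₀ ℂ} (d : ∀ p ∈ s.support, ν) (x : κ × G → ℂ)
    (z : ν × G → ℂ) (h : ∀ p (hp : p ∈ s.support) g, z (d p hp, g) = x (p.1, g)) (g : G) :
    ev (H3_lift s d) z g = ev s x g := by
  unfold H3_lift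
  rw [ev_finsetSum, ev_def, ← Finset.sum_attach s.support]
  refine Finset.sum_congr rfl fun p _ => ?_
  rw [ev_single]
  simp only
  rw [h p.1 p.2]

/-- H3 -/
theorem lin_aux {a : D → A} {b : D → B} (ha : Eqv G a) (hb : Eqv G b) (𝒮 : Set D)
    {ι κ μ : Type} [Fintype ι] [Fintype κ] [Fintype μ] (v : ι → A) (c : κ → D) (m : μ → A)
    (S : μ → (κ × G →₀ ℂ)) (T : ι → (κ × G →₀ ℂ)) (hkS : ∀ j, CoefIn k (S j))
    (hkT : ∀ i, CoefIn k (T i)) (hc : ∀ p, c p ∈ 𝒮)
    (hS : ∀ j, ∀ p ∈ (S j).support, ∃ δ, a δ = p.2 • m j ∧ ConnIn 𝒮 a b (c p.1) δ)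
    (hT : ∀ i, ∀ p ∈ (T i).support, ∃ δ, a δ = p.2 • v i ∧ ConnIn 𝒮 a b (c p.1) δ) :
    ∃ (ν : Type) (_ : Fintype ν) (e : ν → D) (K0 : Submodule ℂ (L2 (ι ⊕ ν) G))
      (K1 : Submodule ℂ (L2 ν G)), (∀ q, e q ∈ 𝒮) ∧
      Rat k (Sum.elim v fun q => a (e q)) K0 ∧ Rat k (fun q => b (e q)) K1 ∧
      imc (mulR T) (kr (mulR S)) = imc (prL : L2 (ι ⊕ ν) G →L[ℂ] L2 ι G) (K0 ⊓ cmR K1) := by
  choose dS hdS1 hdS2 using hS
  choose dT hdT1 hdT2 using hT
  -- the finite sets of darts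
  let R : κ → Finset D := fun p =>
    (Finset.univ.biUnion fun j : μ => ((S j).support.attach.filter fun q => q.1.1 = p).image
      fun q => dS j q.1 q.2) ∪
    (Finset.univ.biUnion fun i : ι => ((T i).support.attach.filter fun q => q.1.1 = p).image
      fun q => dT i q.1 q.2)
  have hR : ∀ p, ∀ δ ∈ R p, ConnIn 𝒮 a b (c p) δ := by
    intro p δ hδ
    rcases Finset.mem_union.mp hδ with h | h
    · obtain ⟨j, -, h⟩ := Finset.mem_biUnion.mp h
      obtain ⟨q, hq, rfl⟩ := Finset.mem_image.mp h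
      rw [← (Finset.mem_filter.mp hq).2]
      exact hdS2 j q.1 q.2
    · obtain ⟨j, -, h⟩ := Finset.mem_biUnion.mp h
      obtain ⟨q, hq, rfl⟩ := Finset.mem_image.mp h
      rw [← (Finset.mem_filter.mp hq).2]
      exact hdT2 j q.1 q.2
  choose F hF1 hF2 hF3 hF4 using fun p => H3_chain a b 𝒮 (c p) (hc p) (R p) (hR p)
  have hSF : ∀ j p (hp : p ∈ (S j).support), dS j p hp ∈ F p.1 := by
    intro j p hp
    apply hF2
    refine Finset.mem_union_left _ (Finset.mem_biUnion.mpr ⟨j, Finset.mem_univ _, ?_⟩)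
    exact Finset.mem_image.mpr ⟨⟨p, hp⟩, Finset.mem_filter.mpr ⟨Finset.mem_attach _ _, rfl⟩, rfl⟩
  have hTF : ∀ i p (hp : p ∈ (T i).support), dT i p hp ∈ F p.1 := by
    intro i p hp
    apply hF2
    refine Finset.mem_union_right _ (Finset.mem_biUnion.mpr ⟨i, Finset.mem_univ _, ?_⟩)
    exact Finset.mem_image.mpr ⟨⟨p, hp⟩, Finset.mem_filter.mpr ⟨Finset.mem_attach _ _, rfl⟩, rfl⟩
  let ν : Type := Σ p : κ, {δ : D // δ ∈ F p}
  let e : ν → D := fun q => q.2.1
  let r0 : ι ⊕ ν → ι ⊕ ν → Prop := fun q q' =>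
    ∃ (p : κ) (δ δ' : {δ : D // δ ∈ F p}), q = Sum.inr ⟨p, δ⟩ ∧ q' = Sum.inr ⟨p, δ'⟩ ∧
      a δ.1 = a δ'.1
  let r1 : ν → ν → Prop := fun q q' =>
    ∃ (p : κ) (δ δ' : {δ : D // δ ∈ F p}), q = ⟨p, δ⟩ ∧ q' = ⟨p, δ'⟩ ∧ b δ.1 = b δ'.1
  let DS : ∀ j, ∀ p ∈ (S j).support, ι ⊕ ν := fun j p hp => Sum.inr ⟨p.1, dS j p hp, hSF j p hp⟩
  let DT : ∀ i, ∀ p ∈ (T i).support, ι ⊕ ν := fun i p hp => Sum.inr ⟨p.1, dT i p hp, hTF i p hp⟩
  let C2 : Set ((ι ⊕ ν) × G →₀ ℂ) := Set.range fun j => H3_lift (S j) (DS j)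
  let C3 : Set ((ι ⊕ ν) × G →₀ ℂ) := Set.range fun i =>
    Finsupp.single ((Sum.inl i : ι ⊕ ν), (1 : G)) (1 : ℂ) - H3_lift (T i) (DT i)
  let K0 : Submodule ℂ (L2 (ι ⊕ ν) G) := Sol (H3_D G r0 ∪ (C2 ∪ C3))
  let K1 : Submodule ℂ (L2 ν G) := Sol (H3_D G r1)
  have hK0 : ∀ z : L2 (ι ⊕ ν) G, z ∈ K0 ↔ z ∈ Sol (H3_D G r0) ∧
      (∀ j g, ev (H3_lift (S j) (DS j)) z g = 0) ∧
      ∀ i g, z (Sum.inl i, g) = ev (H3_lift (T i) (DT i)) z g := by
    intro z
    constructor
    · intro h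
      refine ⟨fun a' ha' => h a' (Or.inl ha'), fun j g => h _ (Or.inr (Or.inl ⟨j, rfl⟩)) g,
        fun i g => ?_⟩
      have h1 := h _ (Or.inr (Or.inr ⟨i, rfl⟩)) g
      rw [ev_sub', ev_single, sub_eq_zero] at h1
      simpa using h1
    · rintro ⟨h1, h2, h3⟩ c' (h | ⟨j, rfl⟩ | ⟨i, rfl⟩) g
      · exact h1 c' h g
      · exact h2 j g
      · rw [ev_sub', ev_single, ← h3 i g]
        simp
  refine ⟨ν, inferInstance, e, K0, K1, fun q => hF3 q.1 q.2.1 q.2.2, ?_, ?_, ?_⟩
  · refine Rat.sol _ ((H3_D_finite r0).union ((Set.finite_range _).union (Set.finite_range _)))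
      ?_ ?_
    · rintro c' (h | ⟨j, rfl⟩ | ⟨i, rfl⟩)
      · exact H3_D_coef r0 c' h
      · exact H3_lift_coef (hkS j) _
      · intro q
        rw [Finsupp.sub_apply]
        exact k.sub_mem (coefIn_single k _ _ k.one_mem q) (H3_lift_coef (hkT i) _ q)
    · rintro c' (h | ⟨j, rfl⟩ | ⟨i, rfl⟩)
      · refine H3_D_loc ?_ c' h
        rintro _ _ ⟨p, δ, δ', rfl, rfl, h⟩
        exact h
      · have key : ∀ g : G, ∀ q ∈ (H3_lift (S j) (DS j)).support,
            pV (Sum.elim v fun q => a (e q)) (q.1, g * q.2⁻¹) = g • m j := by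
          intro g q hq
          obtain ⟨p, hp, rfl⟩ := H3_lift_support _ hq
          show (g * p.2⁻¹) • a (dS j p hp) = g • m j
          rw [hdS1, mul_smul, inv_smul_smul]
        intro g q hq q' hq'
        rw [key g q hq, key g q' hq']
      · have key : ∀ g : G, ∀ q ∈ (Finsupp.single ((Sum.inl i : ι ⊕ ν), (1 : G)) (1 : ℂ) -
            H3_lift (T i) (DT i)).support,
            pV (Sum.elim v fun q => a (e q)) (q.1, g * q.2⁻¹) = g • v i := by
          intro g q hq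
          rcases Finset.mem_union.mp (Finsupp.support_sub hq) with h' | h'
          · have h1 := Finset.mem_singleton.mp (Finsupp.support_single_subset h')
            subst h1
            simp [pV]
          · obtain ⟨p, hp, rfl⟩ := H3_lift_support _ h'
            show (g * p.2⁻¹) • a (dT i p hp) = g • v i
            rw [hdT1, mul_smul, inv_smul_smul]
        intro g q hq q' hq'
        rw [key g q hq, key g q' hq']
  · refine Rat.sol _ (H3_D_finite r1) (H3_D_coef r1) (H3_D_loc ?_)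
    rintro _ _ ⟨p, δ, δ', rfl, rfl, h⟩
    exact h
  · apply le_antisymm
    · apply imc_le (Submodule.isClosed_topologicalClosure _)
      intro x hx
      rw [mem_kr] at hx
      set z : L2 (ι ⊕ ν) G := inL (mulR T x) +
        inR (crd (fun q : ν => q.1) Set.univ x) with hz
      have hzl : ∀ i g, z (Sum.inl i, g) = mulR T x (i, g) := by
        intro i g
        rw [hz, lp.coeFn_add, Pi.add_apply, inL_inl, inR_inl, add_zero]
      have hzr : ∀ (q : ν) g, z (Sum.inr q, g) = x (q.1, g) := by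
        intro q g
        rw [hz, lp.coeFn_add, Pi.add_apply, inL_inr, inR_inr, crd_apply,
          if_pos (Set.mem_univ _), zero_add]
      have h1 : prL z = mulR T x := by
        ext ⟨i, g⟩
        rw [prL_apply, hzl]
      rw [← h1]
      apply mem_imc
      refine ⟨?_, ?_⟩
      · rw [SetLike.mem_coe, hK0]
        refine ⟨?_, ?_, ?_⟩
        · rw [H3_D_sol]
          rintro _ _ ⟨p, δ, δ', rfl, rfl, -⟩ g
          rw [hzr, hzr]
        · intro j g
          rw [H3_lift_ev (DS j) x z (fun p hp g => hzr _ g) g]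
          have h2 := mulR_apply S x (j, g)
          rw [hx] at h2
          exact h2.symm
        · intro i g
          rw [H3_lift_ev (DT i) x z (fun p hp g => hzr _ g) g, hzl]
          exact mulR_apply T x (i, g)
      · show prR z ∈ K1
        rw [H3_D_sol]
        rintro _ _ ⟨p, δ, δ', rfl, rfl, -⟩ g
        rw [prR_apply, prR_apply, hzr, hzr]
    · apply imc_le (Submodule.isClosed_topologicalClosure _)
      rintro z ⟨hz0, hz1⟩
      rw [SetLike.mem_coe, hK0] at hz0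
      obtain ⟨h1, h2, h3⟩ := hz0
      rw [H3_D_sol] at h1
      have hz1' : prR z ∈ K1 := hz1
      rw [H3_D_sol] at hz1'
      have hcon : ∀ (p : κ) (δ : D) (hδ : δ ∈ F p) (g : G),
          z (Sum.inr ⟨p, δ, hδ⟩, g) = z (Sum.inr ⟨p, c p, hF1 p⟩, g) := by
        intro p δ hδ g
        have h := hF4 p δ hδ
        induction h with
        | refl => rfl
        | @tail ε ε' hε h ih =>
          have hεF : ε ∈ F p := by
            rcases Relation.ReflTransGen.cases_tail hε with h' | ⟨ε'', -, h'⟩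
            · rw [h']
              exact hF1 p
            · exact h'.1
          rw [← ih hεF]
          rcases h.2 with h' | h'
          · exact h1 _ _ ⟨p, ⟨ε', hδ⟩, ⟨ε, hεF⟩, rfl, rfl, h'.symm⟩ g
          · have h4 := hz1' _ _ ⟨p, ⟨ε', hδ⟩, ⟨ε, hεF⟩, rfl, rfl, h'.symm⟩ g
            rw [prR_apply, prR_apply] at h4
            exact h4
      set x : L2 κ G := crd (fun p : κ => (Sum.inr ⟨p, c p, hF1 p⟩ : ι ⊕ ν)) Set.univ z with hx
      have hxz : ∀ p g, x (p, g) = z (Sum.inr ⟨p, c p, hF1 p⟩, g) := by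
        intro p g
        rw [hx, crd_apply, if_pos (Set.mem_univ _)]
      have h4 : prL z = mulR T x := by
        ext ⟨i, g⟩
        rw [prL_apply, h3, mulR_apply]
        exact H3_lift_ev (DT i) x z (fun p hp g => by rw [hxz]; exact hcon _ _ _ g) g
      rw [h4]
      apply mem_imc
      rw [mem_kr]
      ext ⟨j, g⟩
      rw [mulR_apply]
      show ev (S j) x g = 0
      rw [← h2 j g]
      exact (H3_lift_ev (DS j) x z (fun p hp g => by rw [hxz]; exact hcon _ _ _ g) g).symm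

end Lin

end Pool.Agent.HI
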