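import Pool.Agent.HI.Defs

set_option autoImplicit false
set_option linter.unusedSectionVars false

noncomputable section

open scoped InnerProductSpace ENNReal Topology
open Classical Filter ContinuousLinearMap

namespace Pool.Agent.HI

open Pool.Agent.VN Pool.Agent.LFT

section Max

variable {G : Type} [Group G] {k : Subring ℂ}

/-- H9: there is a largest maximiser -/
theorem exists_max {A : Type} [MulAction G A] (hI : Int0 k G A) {ι : Type} [Fintype ι]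
    (v : ι → A) {P : Submodule ℂ (L2 ι G)} (hP : CI P) (u : ℝ) :
    ∃ Z, Rat k v Z ∧ (∀ X, Rat k v X → dm (P ⊓ X) - u * dm X ≤ dm (P ⊓ Z) - u * dm Z) ∧
      (∀ X, Rat k v X → dm (P ⊓ X) - u * dm X = dm (P ⊓ Z) - u * dm Z → X ≤ Z) := by
  obtain ⟨ψ, hψ⟩ : ∃ ψ : Submodule ℂ (L2 ι G) → ℝ, ∀ X, ψ X = dm (P ⊓ X) - u * dm X :=
    ⟨_, fun _ => rfl⟩
  have hsub : ∀ X Y, Rat k v X → Rat k v Y → ψ X + ψ Y ≤ ψ (csup X Y) + ψ (X ⊓ Y) := by
    intro X Y hX hY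
    have h1 := dm_inf_csup hP hX.ci hY.ci
    have h2 := dm_csup hX.ci hY.ci
    rw [hψ, hψ, hψ, hψ]
    have h3 : u * (dm (csup X Y) + dm (X ⊓ Y)) = u * (dm X + dm Y) := by rw [h2]
    linarith
  have hne : {r : ℝ | ∃ X, Rat k v X ∧ ψ X = r}.Nonempty := ⟨_, ⊥, Rat.bot v, rfl⟩
  have hbdd : BddAbove {r : ℝ | ∃ X, Rat k v X ∧ ψ X = r} := by
    refine ⟨Fintype.card ι + |u| * Fintype.card ι, ?_⟩
    rintro r ⟨X, -, rfl⟩
    rw [hψ]
    have h1 := dm_le_card (P ⊓ X)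
    have h2 := dm_le_card X
    have h3 := dm_nonneg X
    have h4 : -(u * dm X) ≤ |u| * Fintype.card ι := by
      calc -(u * dm X) ≤ |u * dm X| := neg_le_abs _
        _ = |u| * dm X := by rw [abs_mul, abs_of_nonneg h3]
        _ ≤ |u| * Fintype.card ι := by gcongr
    linarith
  set s := sSup {r : ℝ | ∃ X, Rat k v X ∧ ψ X = r} with hs
  have hle : ∀ X, Rat k v X → ψ X ≤ s := fun X hX => le_csSup hbdd ⟨X, hX, rfl⟩
  have hex : ∀ δ : ℝ, 0 < δ → ∃ X, Rat k v X ∧ s - δ < ψ X := by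
    intro δ hδ
    obtain ⟨r, ⟨X, hX, rfl⟩, hr⟩ := exists_lt_of_lt_csSup hne (show s - δ < s by linarith)
    exact ⟨X, hX, hr⟩
  -- the smallest bound for the dimensions of almost maximisers
  have hQ : ∃ m : ℕ, ∃ δ : ℝ, 0 < δ ∧ ∀ X, Rat k v X → s - δ < ψ X → dm X ≤ m :=
    ⟨Fintype.card ι, 1, one_pos, fun X _ _ => dm_le_card X⟩
  obtain ⟨N, ⟨δ₀, hδ₀, hN⟩, hmin⟩ : ∃ N : ℕ,
      (∃ δ : ℝ, 0 < δ ∧ ∀ X, Rat k v X → s - δ < ψ X → dm X ≤ N) ∧
      ∀ m < N, ¬ ∃ δ : ℝ, 0 < δ ∧ ∀ X, Rat k v X → s - δ < ψ X → dm X ≤ m :=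
    ⟨Nat.find hQ, Nat.find_spec hQ, fun m hm => Nat.find_min hQ hm⟩
  have hbig : ∀ δ : ℝ, 0 < δ → ∃ X, Rat k v X ∧ s - δ < ψ X ∧ (N : ℝ) - 1 < dm X := by
    intro δ hδ
    rcases Nat.eq_zero_or_pos N with h0 | h0
    · obtain ⟨X, hX, h⟩ := hex δ hδ
      refine ⟨X, hX, h, ?_⟩
      rw [h0]
      have := dm_nonneg X
      push_cast
      linarith
    · have h1 := hmin (N - 1) (by omega)
      push Not at h1
      obtain ⟨X, hX, h2, h3⟩ := h1 δ hδ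
      refine ⟨X, hX, h2, ?_⟩
      rwa [Nat.cast_sub h0, Nat.cast_one] at h3
  have hdim : ∀ X, Rat k v X → s - δ₀ < ψ X → (N : ℝ) - 1 < dm X → dm X = N := by
    intro X hX h1 h2
    obtain ⟨z, hz⟩ := hI ι inferInstance v X hX
    have h3 := hN X hX h1
    rw [hz] at h2 h3 ⊢
    have h4 : (N : ℤ) - 1 < z := by exact_mod_cast h2
    have h5 : z ≤ (N : ℤ) := by exact_mod_cast h3
    have h6 : z = (N : ℤ) := by omega
    rw [h6]
    push_cast
    rfl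
  obtain ⟨Z, hZ, hZ1, hZ2⟩ := hbig (δ₀ / 2) (by linarith)
  have hZd : dm Z = N := hdim Z hZ (by linarith) hZ2
  have hXZ : ∀ X, Rat k v X → s - δ₀ / 2 < ψ X → X ≤ Z := by
    intro X hX h1
    have h2 := hsub X Z hX hZ
    have h3 := hle _ (hX.inf hZ)
    have h4 : dm (csup X Z) ≤ N := hN _ (hX.csup hZ) (by linarith)
    have h5 : Z = csup X Z := eq_of_le_of_dm hZ.ci (hX.csup hZ).ci (le_csup_right X Z)
      (by rw [hZd]; exact h4)
    rw [h5]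
    exact le_csup_left X Z
  have hZs : ψ Z = s := by
    refine le_antisymm (hle Z hZ) (le_of_forall_pos_lt_add fun δ hδ => ?_)
    obtain ⟨X, hX, h1, h2⟩ := hbig (min δ (δ₀ / 2)) (lt_min hδ (by linarith))
    have h3 : min δ (δ₀ / 2) ≤ δ := min_le_left _ _
    have h4 : min δ (δ₀ / 2) ≤ δ₀ / 2 := min_le_right _ _
    have h5 : dm X = N := hdim X hX (by linarith) h2
    have h6 : X = Z := eq_of_le_of_dm hX.ci hZ.ci (hXZ X hX (by linarith)) (by rw [hZd, h5])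
    rw [h6] at h1
    linarith
  refine ⟨Z, hZ, fun X hX => ?_, fun X hX h => hXZ X hX ?_⟩
  · rw [← hψ, ← hψ, hZs]
    exact hle X hX
  · rw [← hψ, ← hψ, hZs] at h
    rw [h]
    linarith

end Max

end Pool.Agent.HI
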