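import Pool.Agent.HI.H1
import Pool.Agent.HI.H3
import Pool.Agent.HI.H9
import Pool.Agent.HI.H10
import Pool.Agent.HI.H12
import Pool.Agent.HI.H13
import Pool.Agent.HI.H14

set_option autoImplicit false
set_option linter.unusedSectionVars false

noncomputable section

open scoped InnerProductSpace ENNReal Topology
open Classical Filter ContinuousLinearMap

namespace Pool.Agent.HI

open Pool.Agent.VN Pool.Agent.LFT

section Key

variable {Γ : Type} [Group Γ] {k : Subring ℂ} {V Ξ : Type} [MulAction Γ V] [MulAction Γ Ξ]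

/-- a letter -/
def mkL {Ξ : Type} (ξ : Ξ) (n : ℕ) : Lett Ξ := (ξ, n)

/-- an edge -/
def mkB {X Γ : Type} (f : FreeGroup X) (x : X) : TB X Γ := (f, x)

lemma inl_mkB {X Γ : Type} [Group Γ] [MulAction Γ X] (n f : FreeGroup X) (x : X) :
    (SemidirectProduct.inl n : Sd X Γ) • (mkB f x : TB X Γ) = mkB (n * f) x := by
  show ((n * phi X Γ 1 f, (1 : Γ) • x) : FreeGroup X × X) = (n * f, x)
  rw [map_one, one_smul]
  rfl

lemma loc_snd {Γ V Ξ : Type} [Group Γ] [MulAction Γ V] [MulAction Γ Ξ] {ι : Type} [Fintype ι]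
    (v : ι → V) (ξ : ι → Ξ) (n : ℕ) {P : Submodule ℂ (L2 ι Γ)} (hP : CI P)
    (hl : Loc (pV fun i => (v i, ξ i)) P) : Loc (pV fun i => mkL (ξ i) n) P :=
  loc_map (M := V × Ξ) (M' := Lett Ξ) (fun m : V × Ξ => mkL m.2 n) (fun _ _ => rfl)
    (lab := fun i => (v i, ξ i)) hP hl

lemma connIn_prod {D A B C : Type} {𝒮 : Set D} {a : D → A} {b : D → B} {δ δ' : D}
    (h : ConnIn 𝒮 a b δ δ') (c : C) :
    ConnIn {x : D × C | x.1 ∈ 𝒮} (Prod.map a id : D × C → A × C) (Prod.map b id : D × C → B × C)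
      (δ, c) (δ', c) := by
  unfold ConnIn at h ⊢
  induction h with
  | refl => exact Relation.ReflTransGen.refl
  | @tail x y _ h ih =>
    refine ih.tail ⟨h.1, ?_⟩
    rcases h.2 with h | h
    · left
      show (a x, c) = (a y, c)
      rw [h]
    · right
      show (b x, c) = (b y, c)
      rw [h]

lemma dm_isEmpty {G ι : Type} [Group G] [Fintype ι] [IsEmpty ι] (X : Submodule ℂ (L2 ι G)) :
    dm X = 0 := by
  refine le_antisymm ?_ (dm_nonneg X)
  have := dm_le_card X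
  rw [Fintype.card_of_isEmpty, Nat.cast_zero] at this
  exact this

lemma Ind_inf {Γ Γ' ι : Type} [Group Γ] [Group Γ'] (f : Γ →* Γ') (hf : Function.Injective f)
    (X Y : Submodule ℂ (L2 ι Γ)) : Ind f hf (X ⊓ Y) = Ind f hf X ⊓ Ind f hf Y := by
  ext z
  rw [Submodule.mem_inf, mem_Ind, mem_Ind, mem_Ind]
  constructor
  · exact fun h => ⟨fun g => (h g).1, fun g => (h g).2⟩
  · exact fun h g => ⟨h.1 g, h.2 g⟩

lemma CI.ind {Γ Γ' ι : Type} [Group Γ] [Group Γ'] (f : Γ →* Γ') (hf : Function.Injective f)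
    {X : Submodule ℂ (L2 ι Γ)} (hX : CI X) : CI (Ind f hf X) :=
  ⟨Ind_closed f hf hX.cl, Ind_invar f hf X⟩

lemma dm_ind {Γ Γ' ι : Type} [Group Γ] [Group Γ'] [Fintype ι] (f : Γ →* Γ')
    (hf : Function.Injective f) {X : Submodule ℂ (L2 ι Γ)} (hX : CI X) :
    dm (Ind f hf X) = dm X := vdim_Ind f hf hX.inv hX.cl

/-- the key estimate from the formula for the tree of the extension by letters -/
theorem key_of_ext
    (hInt : Int0 k (Sd (Lett Ξ) Γ) (Via (rh (Lett Ξ) Γ) V))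
    (hAF : AF k (Sd (Lett Ξ) Γ)
      (Prod.map (ta (Lett Ξ) Γ) id : TD (Lett Ξ) Γ × Via (rh (Lett Ξ) Γ) V →
        TA (Lett Ξ) Γ × Via (rh (Lett Ξ) Γ) V)
      (Prod.map (tb (Lett Ξ) Γ) id : TD (Lett Ξ) Γ × Via (rh (Lett Ξ) Γ) V →
        TB (Lett Ξ) Γ × Via (rh (Lett Ξ) Γ) V))
    {ι : Type} [Fintype ι] (v : ι → V) (ξ : ι → Ξ) {P : Submodule ℂ (L2 ι Γ)} (hP : CI P)
    (hl : Loc (pV fun i => (v i, ξ i)) P) (u : ℝ) {Y : Submodule ℂ (L2 ι Γ)} (hY : Rat k v Y) :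
    ∃ S, Rat k (fun i => (v i, ξ i)) S ∧
      dm (P ⊓ Y) - u * dm Y ≤ dm (P ⊓ S) - u * dm S := by
  rcases isEmpty_or_nonempty ι with hι | ⟨⟨i0⟩⟩
  · refine ⟨⊤, Rat.top _, ?_⟩
    rw [dm_isEmpty, dm_isEmpty, dm_isEmpty, dm_isEmpty]
  set E := Sd (Lett Ξ) Γ with hE
  set f : Γ →* E := ir (Lett Ξ) Γ with hf
  have hfi : Function.Injective f := ir_injective
  set j : V → Via (rh (Lett Ξ) Γ) V := toVia (rh (Lett Ξ) Γ) with hj
  have hjf : ∀ (γ : Γ) m, j (γ • m) = f γ • j m := by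
    intro γ m
    rw [hj, via_smul, ofVia_toVia, hf, SemidirectProduct.rightHom_inr]
  have hinl : ∀ (n : FreeGroup (Lett Ξ)) (m : Via (rh (Lett Ξ) Γ) V),
      (SemidirectProduct.inl n : E) • m = m := by
    intro n m
    rw [via_smul, SemidirectProduct.rightHom_inl, one_smul]
    rfl
  have hYI : Rat k (fun i => j (v i)) (Ind f hfi Y) := rat_ind f hfi j hjf hY
  have hPI : CI (Ind f hfi P) := CI.ind f hfi hP
  obtain ⟨Z, hZ, hZmax, hZlarge⟩ := exists_max hInt (fun i => j (v i)) hPI u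
  -- presentation of the maximiser
  obtain ⟨κ, μ, _, _, labκ, labμ, S, T, ⟨AS, hAS1, hAS2, hAS⟩, ⟨AT, hAT1, hAT2, hAT⟩, hZe⟩ := id hZ
  set s : Finset E := (Finset.univ.biUnion fun q : μ => (AS q).support.image Prod.snd) ∪
    (Finset.univ.biUnion fun q : ι => (AT q).support.image Prod.snd) with hs
  obtain ⟨n, hn⟩ := exists_fresh (Ξ := Ξ) s fun g => g.left
  set 𝓈 : Set (Lett Ξ) := {x | x.2 < n + 1} with h𝓈
  have hn' : ∀ g ∈ s, g.left ∈ Subgroup.closure (FreeGroup.of '' 𝓈) := fun g hg =>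
    Subgroup.closure_mono (Set.image_mono fun x hx => Nat.lt_succ_of_lt hx) (hn g hg)
  set x1 : Lett Ξ := ((ξ i0, 0) : Ξ × ℕ) with hx1
  have hx1s : x1 ∈ 𝓈 := Nat.succ_pos n
  have hlin := lin_aux (k := k) (G := E)
    (a := (Prod.map (ta (Lett Ξ) Γ) id : TD (Lett Ξ) Γ × Via (rh (Lett Ξ) Γ) V →
        TA (Lett Ξ) Γ × Via (rh (Lett Ξ) Γ) V))
    (b := (Prod.map (tb (Lett Ξ) Γ) id : TD (Lett Ξ) Γ × Via (rh (Lett Ξ) Γ) V →
        TB (Lett Ξ) Γ × Via (rh (Lett Ξ) Γ) V))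
    (fun g m => rfl) (fun g m => Prod.ext (tb_smul _ _ _ _) rfl)
    {x | x.1.2.1 ∈ 𝓈} (fun i => ((1 : FreeGroup (Lett Ξ)), j (v i)))
    (fun p => (((1 : FreeGroup (Lett Ξ)), x1, true), labκ p))
    (fun q => ((1 : FreeGroup (Lett Ξ)), labμ q)) AS AT hAS1 hAT1 (fun p => hx1s) ?_ ?_
  rotate_left
  · intro q p hp
    refine ⟨(((p.2.left : FreeGroup (Lett Ξ)), x1, true), labκ p.1), ?_, ?_⟩
    · refine Prod.ext ?_ ?_
      · show (p.2.left : FreeGroup (Lett Ξ)) = p.2.left * phi (Lett Ξ) Γ p.2.right 1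
        rw [map_one, mul_one]
      · show labκ p.1 = p.2 • labμ q
        rw [← hAS2 q p hp, smul_inv_smul]
    · have h1 := t_connIn (Lett Ξ) Γ 𝓈 x1 hx1s 1 p.2.left (hn' _ (Finset.mem_union_left _
        (Finset.mem_biUnion.mpr ⟨q, Finset.mem_univ _, Finset.mem_image_of_mem _ hp⟩)))
      rw [one_mul] at h1
      exact connIn_prod h1 (labκ p.1)
  · intro q p hp
    refine ⟨(((p.2.left : FreeGroup (Lett Ξ)), x1, true), labκ p.1), ?_, ?_⟩
    · refine Prod.ext ?_ ?_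
      · show (p.2.left : FreeGroup (Lett Ξ)) = p.2.left * phi (Lett Ξ) Γ p.2.right 1
        rw [map_one, mul_one]
      · show labκ p.1 = p.2 • j (v q)
        have h0 : p.2⁻¹ • labκ p.1 = j (v q) := hAT2 q p hp
        rw [← h0, smul_inv_smul]
    · have h1 := t_connIn (Lett Ξ) Γ 𝓈 x1 hx1s 1 p.2.left (hn' _ (Finset.mem_union_right _
        (Finset.mem_biUnion.mpr ⟨q, Finset.mem_univ _, Finset.mem_image_of_mem _ hp⟩)))
      rw [one_mul] at h1
      exact connIn_prod h1 (labκ p.1)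
  obtain ⟨ν, _, e, K0, K1, heS, hK0, hK1, hK⟩ := hlin
  rw [← hAS, ← hAT, ← hZe] at hK
  -- the fresh letter
  obtain ⟨x, hx⟩ : ∃ x : ι → Lett Ξ, x = fun i => mkL (ξ i) (n + 1) := ⟨_, rfl⟩
  have hxn : ∀ i, (x i).2 = n + 1 := fun i => by rw [hx]; rfl
  have hPx : Loc (pV x) P := by
    rw [hx]
    exact loc_snd v ξ (n + 1) hP hl
  have hUP := Uop_ind x hP hPx
  have hUP' := Uop'_ind x hP hPx
  -- `U` preserves rational subspaces over `V`
  have hUl : LocOp k (fun i => j (v i)) (fun i => j (v i)) (Uop (Γ := Γ) x) := by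
    refine ⟨_, fun i p => coefIn_single k _ _ k.one_mem p, fun i p hp => ?_, rfl⟩
    have h1 := Finset.mem_singleton.mp (Finsupp.support_single_subset hp)
    subst h1
    show (SemidirectProduct.inl _ : E)⁻¹ • j (v i) = j (v i)
    rw [← map_inv]
    exact hinl _ _
  have hUl' : LocOp k (fun i => j (v i)) (fun i => j (v i)) (Uop' (Γ := Γ) x) := by
    refine ⟨_, fun i p => coefIn_single k _ _ k.one_mem p, fun i p hp => ?_, rfl⟩
    have h1 := Finset.mem_singleton.mp (Finsupp.support_single_subset hp)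
    subst h1
    show (SemidirectProduct.inl _ : E)⁻¹ • j (v i) = j (v i)
    rw [← map_inv]
    exact hinl _ _
  -- the maximiser is invariant
  have hinvar : ∀ (W W' : L2 ι E →L[ℂ] L2 ι E), (∀ z, W (W' z) = z) → (∀ z, W' (W z) = z) →
      LocOp k (fun i => j (v i)) (fun i => j (v i)) W →
      (∀ z ∈ Ind f hfi P, W z ∈ Ind f hfi P) → (∀ z ∈ Ind f hfi P, W' z ∈ Ind f hfi P) →
      ∀ z ∈ Z, W z ∈ Z := by
    intro W W' h1 h2 hW hWP hWP' z hz
    have hWe : Equivar W := hW.equivar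
    have hker : kr W = ⊥ := by
      rw [eq_bot_iff]
      intro y hy
      rw [Submodule.mem_bot, ← h2 y, mem_kr.mp hy, map_zero]
    have hdim : ∀ Q : Submodule ℂ (L2 ι E), CI Q → dm (imc W Q) = dm Q := by
      intro Q hQ
      have h3 := dm_imc hWe hQ
      rw [hker, inf_bot_eq, dm_bot, add_zero] at h3
      exact h3
    have hR : Rat k (fun i => j (v i)) (imc W Z) := Rat.imc hW hZ
    have hge : dm (Ind f hfi P ⊓ Z) ≤ dm (Ind f hfi P ⊓ imc W Z) := by
      rw [← hdim _ (hPI.inf hZ.ci)]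
      apply dm_mono
      apply imc_le (hPI.inf hR.ci).cl
      intro y hy
      exact ⟨hWP y hy.1, mem_imc W hy.2⟩
    have h4 := hZmax _ hR
    rw [hdim _ hZ.ci] at h4
    have h5 : dm (Ind f hfi P ⊓ imc W Z) - u * dm (imc W Z)
        = dm (Ind f hfi P ⊓ Z) - u * dm Z := by
      rw [hdim _ hZ.ci]
      linarith
    exact hZlarge _ hR h5 (mem_imc W hz)
  have hZU := hinvar (Uop x) (Uop' x) (Uop_Uop' x) (Uop'_Uop x) hUl hUP hUP'
  have hZU' := hinvar (Uop' x) (Uop x) (Uop'_Uop x) (Uop_Uop' x) hUl' hUP' hUP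
  -- doubling
  set d1 : ι → TD (Lett Ξ) Γ × Via (rh (Lett Ξ) Γ) V := fun i =>
    (((1 : FreeGroup (Lett Ξ)), x i, true), j (v i)) with hd1
  set d2 : ι → TD (Lett Ξ) Γ × Via (rh (Lett Ξ) Γ) V := fun i =>
    (((1 : FreeGroup (Lett Ξ)), x i, false), j (v i)) with hd2
  have hZd : Rat k d1 Z := by
    refine doubling (a := (Prod.map (ta (Lett Ξ) Γ) id : TD (Lett Ξ) Γ × Via (rh (Lett Ξ) Γ) V →
        TA (Lett Ξ) Γ × Via (rh (Lett Ξ) Γ) V))
      (b := (Prod.map (tb (Lett Ξ) Γ) id : TD (Lett Ξ) Γ × Via (rh (Lett Ξ) Γ) V →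
        TB (Lett Ξ) Γ × Via (rh (Lett Ξ) Γ) V)) (β := Prod.snd)
      (fun g m => rfl) (fun g m => Prod.ext (tb_smul (Lett Ξ) Γ g m.1) rfl) (fun g m => rfl) hAF hInt
      (v := fun i => ((1 : FreeGroup (Lett Ξ)), j (v i))) (lab := fun i => j (v i))
      (d1 := d1) (d2 := d2) (e := e) (fun i => rfl) (fun i => rfl) (fun i => rfl) (fun i => rfl)
      ?_ ?_ ?_ (Uop_Uop' x) (Uop'_Uop x) ?_ ?_ hUl hUl' hK0 hK1 hZ hK hZU hZU'
    · intro g i i' h
      have h1 : (true : Bool) = false := congrArg (fun q => q.1.2.2) h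
      exact absurd h1 (by decide)
    · intro g i q h
      have h1 : (x i).2 = (e q).1.2.1.2 := congrArg (fun q => q.1.2.1.2) h
      have h2 : (e q).1.2.1.2 < n + 1 := heS q
      rw [hxn] at h1
      omega
    · intro g i q h
      have h1 : (x i).2 = (e q).1.2.1.2 := congrArg (fun q => q.1.2.1.2) h
      have h2 : (e q).1.2.1.2 < n + 1 := heS q
      rw [hxn] at h1
      omega
    · refine ⟨_, fun i p => coefIn_single k _ _ k.one_mem p, fun i p hp => ?_, rfl⟩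
      have h1 := Finset.mem_singleton.mp (Finsupp.support_single_subset hp)
      subst h1
      refine Prod.ext ?_ ?_
      · show (SemidirectProduct.inl (FreeGroup.of (x i)) : E)⁻¹ • (mkB 1 (x i) : TB (Lett Ξ) Γ)
            = mkB (1 * (FreeGroup.of (x i))⁻¹) (x i)
        rw [← map_inv, inl_mkB, one_mul, mul_one]
      · show (SemidirectProduct.inl _ : E)⁻¹ • j (v i) = j (v i)
        rw [← map_inv]
        exact hinl _ _
    · refine ⟨_, fun i p => coefIn_single k _ _ k.one_mem p, fun i p hp => ?_, rfl⟩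
      have h1 := Finset.mem_singleton.mp (Finsupp.support_single_subset hp)
      subst h1
      refine Prod.ext ?_ ?_
      · show (SemidirectProduct.inl (FreeGroup.of (x i))⁻¹ : E)⁻¹ •
            (mkB (1 * (FreeGroup.of (x i))⁻¹) (x i) : TB (Lett Ξ) Γ) = mkB 1 (x i)
        rw [← map_inv, inv_inv, inl_mkB, one_mul, mul_inv_cancel]
      · show (SemidirectProduct.inl _ : E)⁻¹ • j (v i) = j (v i)
        rw [← map_inv]
        exact hinl _ _
  -- descent
  rw [hd1, hx] at hZd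
  obtain ⟨R, hR, hZR⟩ := rat_desc f hfi
    (M := V × Ξ) (M' := TD (Lett Ξ) Γ × Via (rh (Lett Ξ) Γ) V)
    (fun m => (((1 : FreeGroup (Lett Ξ)), mkL m.2 (n + 1), true), j m.1))
    (by
      intro γ m
      refine Prod.ext ?_ (hjf γ m.1)
      show (((1 : FreeGroup (Lett Ξ)), mkL (γ • m.2) (n + 1), true) :
        FreeGroup (Lett Ξ) × Lett Ξ × Bool)
        = ((1 : FreeGroup (Lett Ξ)) * phi (Lett Ξ) Γ γ 1, mkL (γ • m.2) (n + 1), true)
      rw [map_one, mul_one])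
    (by
      intro m m' h
      exact Prod.ext (congrArg Prod.snd h) (congrArg (fun q => q.1.2.1.1) h))
    (by
      intro g m m' h
      refine ⟨g.right, ?_⟩
      have h1 : g.left * phi (Lett Ξ) Γ g.right 1 = (1 : FreeGroup (Lett Ξ)) :=
        congrArg (fun q => q.1.1) h
      rw [map_one, mul_one] at h1
      exact SemidirectProduct.ext h1.symm rfl)
    (lab := fun i => (v i, ξ i)) hZd
  refine ⟨R, hR, ?_⟩
  have h1 := hZmax _ hYI
  rw [hZR, ← Ind_inf, ← Ind_inf, dm_ind f hfi (hP.inf hY.ci), dm_ind f hfi hY.ci,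
    dm_ind f hfi (hP.inf hR.ci), dm_ind f hfi hR.ci] at h1
  exact h1

end Key

end Pool.Agent.HI
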