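import Pool.Agent.HI.Defs

set_option autoImplicit false
set_option linter.unusedSectionVars false

noncomputable section

open scoped InnerProductSpace ENNReal Topology
open Classical Filter ContinuousLinearMap

namespace Pool.Agent.HI

open Pool.Agent.VN Pool.Agent.LFT

/-- a nontrivial free group has a nontrivial homomorphism to `ℤ` -/
lemma H16_free {F : Type} [Group F] [IsFreeGroup F] [Nontrivial F] :
    ∃ f : F →* Multiplicative ℤ, f ≠ 1 := by
  have hne : Nonempty (IsFreeGroup.Generators F) := by
    by_contra h
    rw [not_nonempty_iff] at h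
    have hs : Subsingleton (FreeGroup (IsFreeGroup.Generators F)) := inferInstance
    exact not_subsingleton F ((IsFreeGroup.toFreeGroup F).toEquiv.subsingleton)
  obtain ⟨x⟩ := hne
  refine ⟨(FreeGroup.lift fun _ => Multiplicative.ofAdd (1 : ℤ)).comp
    (IsFreeGroup.toFreeGroup F).toMonoidHom, ?_⟩
  intro h
  have h2 := congrArg (fun f => f ((IsFreeGroup.toFreeGroup F).symm (FreeGroup.of x))) h
  simp at h2

/-- images of finitely generated subgroups are finitely generated -/
lemma H16_map {A B : Type} [Group A] [Group B] (f : A →* B) {H : Subgroup A} (h : H.FG) :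
    (H.map f).FG := by
  have hh : Group.FG H := (Group.fg_iff_subgroup_fg H).2 h
  exact (Group.fg_iff_subgroup_fg _).1 (Group.fg_of_surjective (f.subgroupMap_surjective H))

/-- H16 -/
theorem LIKer.ext {X Γ G : Type} [Group Γ] [Group G] [MulAction Γ X] {π : Γ →* G}
    (h : LIKer π) : LIKer (π.comp (rh X Γ)) := by
  intro H hfg hker hne
  by_cases hH : H.map (rh X Γ) = ⊥
  · have hr : ∀ g ∈ H, g.right = 1 := by
      intro g hg
      have hm : rh X Γ g ∈ H.map (rh X Γ) := Subgroup.mem_map_of_mem _ hg
      rw [hH] at hm
      exact hm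
    let φ : H →* FreeGroup X :=
      { toFun := fun g => g.1.left
        map_one' := rfl
        map_mul' := fun a b => by
          simp [SemidirectProduct.mul_left, hr a.1 a.2] }
    have hinj : Function.Injective φ := by
      intro a b hab
      apply Subtype.ext
      apply SemidirectProduct.ext
      · exact hab
      · rw [hr _ a.2, hr _ b.2]
    have e : H ≃* φ.range := MonoidHom.ofInjective hinj
    have hnH : Nontrivial H := (Subgroup.nontrivial_iff_ne_bot H).2 hne
    have hnt : Nontrivial φ.range := e.symm.toEquiv.nontrivial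
    obtain ⟨f, hf⟩ := H16_free (F := φ.range)
    refine ⟨f.comp e.toMonoidHom, ?_⟩
    intro h0
    apply hf
    apply MonoidHom.ext
    intro y
    have h1 := congrArg (fun f => f (e.symm y)) h0
    simpa using h1
  · obtain ⟨f, hf⟩ := h (H.map (rh X Γ)) (H16_map _ hfg) (by
      rintro _ ⟨g, hg, rfl⟩
      exact hker g hg) hH
    refine ⟨f.comp ((rh X Γ).subgroupMap H), ?_⟩
    intro h0
    apply hf
    apply MonoidHom.ext
    intro y
    obtain ⟨g, hg⟩ := (rh X Γ).subgroupMap_surjective H y
    have h1 := congrArg (fun f => f g) h0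
    rw [← hg]
    simpa using h1

/-- H16 -/
theorem LIKer.id {G : Type} [Group G] : LIKer (MonoidHom.id G) := by
  intro H _ hker hne
  exact absurd ((Subgroup.eq_bot_iff_forall H).2 hker) hne

end Pool.Agent.HI
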