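import Pool.Agent.HI.H3

set_option autoImplicit false
set_option linter.unusedSectionVars false

noncomputable section

open scoped InnerProductSpace ENNReal Topology
open Classical Filter ContinuousLinearMap

namespace Pool.Agent.HI

open Pool.Agent.VN Pool.Agent.LFT

section Lin

variable {G : Type} [Group G] {k : Subring ℂ} {D A B : Type} [MulAction G D] [MulAction G A]
  [MulAction G B]

/-- H4 -/
theorem lin {M : Type} [MulAction G M] {a : D → A} {b : D → B} (ha : Eqv G a) (hb : Eqv G b)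
    {β : D → M} (hβ : Eqv G β) (hsurj : Function.Surjective β)
    (hconn : ∀ δ δ', β δ = β δ' → Conn a b δ δ') {ι : Type} [Fintype ι] (v : ι → A) (lab : ι → M)
    (hv : ∀ i, ∃ δ, a δ = v i ∧ β δ = lab i) {X : Submodule ℂ (L2 ι G)} (hX : Rat k lab X) :
    ∃ (ν : Type) (_ : Fintype ν) (e : ν → D) (K0 : Submodule ℂ (L2 (ι ⊕ ν) G))
      (K1 : Submodule ℂ (L2 ν G)),
      Rat k (Sum.elim v fun q => a (e q)) K0 ∧ Rat k (fun q => b (e q)) K1 ∧
      X = imc (prL : L2 (ι ⊕ ν) G →L[ℂ] L2 ι G) (K0 ⊓ cmR K1) := by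
  obtain ⟨κ, μ, iκ, iμ, labκ, labμ, S, T, ⟨AS, hkS, hS, rfl⟩, ⟨AT, hkT, hT, rfl⟩, rfl⟩ := hX
  choose c hc using fun p => hsurj (labκ p)
  choose d hd using fun j => hsurj (labμ j)
  choose f hf1 hf2 using hv
  have key : ∀ (δ δ' : D), β δ = β δ' → ConnIn Set.univ a b δ δ' := fun δ δ' h => by
    have h1 := hconn δ δ' h
    unfold Conn at h1
    unfold ConnIn
    clear h
    induction h1 with
    | refl => exact Relation.ReflTransGen.refl
    | tail _ h2 ih => exact ih.tail ⟨Set.mem_univ _, h2⟩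
  obtain ⟨ν, iν, e, K0, K1, -, h0, h1, h2⟩ := lin_aux (k := k) ha hb Set.univ v c
    (fun j => a (d j)) AS AT hkS hkT (fun p => Set.mem_univ _)
    (fun j p hp => ⟨p.2 • d j, ha _ _, key _ _ (by
      rw [hβ, hc, hd, ← hS j p hp, smul_inv_smul])⟩)
    (fun i p hp => ⟨p.2 • f i, by rw [ha, hf1], key _ _ (by
      rw [hβ, hc, hf2, ← hT i p hp, smul_inv_smul])⟩)
  exact ⟨ν, iν, e, K0, K1, h0, h1, h2⟩

end Lin

end Pool.Agent.HI
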