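import Pool.Agent.HI.H2
import Pool.Agent.HI.H4

set_option autoImplicit false
set_option linter.unusedSectionVars false

noncomputable section

open scoped InnerProductSpace ENNReal Topology
open Classical Filter ContinuousLinearMap

namespace Pool.Agent.HI

open Pool.Agent.VN Pool.Agent.LFT

section Prod

variable {G : Type} [Group G] {k : Subring ℂ}

/-- the dimension of an intersection of a subspace given by the vertices and a subspace given by
the edges is an integer -/
private theorem H7_int_inf {D A B : Type} [MulAction G D] [MulAction G A] [MulAction G B]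
    {a : D → A} {b : D → B} (ha : Eqv G a) (hb : Eqv G b) (hAF : AF k G a b)
    (hIA : Int0 k G A) (hIB : Int0 k G B) {ι : Type} [Fintype ι] (d : ι → D)
    {L0 L1 : Submodule ℂ (L2 ι G)} (h0 : Rat k (fun i => a (d i)) L0)
    (h1 : Rat k (fun i => b (d i)) L1) : ∃ z : ℤ, dm (L0 ⊓ L1) = z := by
  apply int_of_lower
  intro ε hε
  obtain ⟨S, hS, hSe⟩ := hAF ι inferInstance d L0 L1 h0 h1 ε hε
  have hS0 : Rat k (fun i => a (d i)) S := hS.mapLab a ha
  have hS1 : Rat k (fun i => b (d i)) S := hS.mapLab b hb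
  obtain ⟨z0, hz0⟩ := hIA ι inferInstance _ _ (h0.inf hS0)
  obtain ⟨z1, hz1⟩ := hIB ι inferInstance _ _ (h1.inf hS1)
  obtain ⟨z2, hz2⟩ := hIA ι inferInstance _ _ hS0
  refine ⟨z0 + z1 - z2, ?_, ?_⟩
  · push_cast
    rw [← hz0, ← hz1, ← hz2]
    have h2 := dm_csup (h0.ci.inf hS.ci) (h1.ci.inf hS.ci)
    have h3 : csup (L0 ⊓ S) (L1 ⊓ S) ≤ S := csup_le hS.ci.cl inf_le_right inf_le_right
    have h4 : L0 ⊓ S ⊓ (L1 ⊓ S) ≤ L0 ⊓ L1 := inf_le_inf inf_le_left inf_le_left
    have h5 := dm_mono h3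
    have h6 := dm_mono h4
    linarith
  · push_cast
    rw [← hz0, ← hz1, ← hz2]
    linarith

/-- H7: integrality -/
theorem int_of_af {D A B W : Type} [MulAction G D] [MulAction G A] [MulAction G B]
    [MulAction G W] {a : D → A} {b : D → B} {β : D → W} (ha : Eqv G a) (hb : Eqv G b)
    (hβ : Eqv G β) (hsurj : Function.Surjective β)
    (hconn : ∀ δ δ', β δ = β δ' → Conn a b δ δ') (hAF : AF k G a b) (hIA : Int0 k G A)
    (hIB : Int0 k G B) : Int0 k G W := by
  intro ι _ lab X hX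
  choose δ hδ using fun i => hsurj (lab i)
  obtain ⟨ν, _, e, K0, K1, hK0, hK1, hXe⟩ := lin ha hb hβ hsurj hconn (fun i => a (δ i)) lab
    (fun i => ⟨δ i, rfl, hδ i⟩) hX
  have ea : (Sum.elim (fun i => a (δ i)) fun q => a (e q)) = fun i => a (Sum.elim δ e i) := by
    funext i
    rcases i with i | i <;> rfl
  have eb : (Sum.elim (fun i => b (δ i)) fun q => b (e q)) = fun i => b (Sum.elim δ e i) := by
    funext i
    rcases i with i | i <;> rfl
  have hR : Rat k (fun i => b (Sum.elim δ e i)) (cmR K1 : Submodule ℂ (L2 (ι ⊕ ν) G)) := by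
    rw [← eb]
    exact rat_comap (LocOp.prR (fun i => b (δ i)) fun q => b (e q)) hK1
  have hP : Rat k (fun i => a (Sum.elim δ e i))
      (kr (prL : L2 (ι ⊕ ν) G →L[ℂ] L2 ι G)) := by
    rw [← ea]
    exact Rat.kr (LocOp.prL (fun i => a (δ i)) fun q => a (e q))
  rw [ea] at hK0
  obtain ⟨z1, hz1⟩ := H7_int_inf ha hb hAF hIA hIB (Sum.elim δ e) hK0 hR
  obtain ⟨z2, hz2⟩ := H7_int_inf ha hb hAF hIA hIB (Sum.elim δ e) (hK0.inf hP) hR
  have hT : Equivar (prL : L2 (ι ⊕ ν) G →L[ℂ] L2 ι G) :=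
    (LocOp.prL (k := k) (fun i => a (δ i)) fun q => a (e q)).equivar
  have h1 := dm_imc hT (hK0.ci.inf hR.ci)
  rw [inf_right_comm, hz2, hz1, ← hXe] at h1
  refine ⟨z1 - z2, ?_⟩
  push_cast
  linarith

end Prod

end Pool.Agent.HI
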