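import Pool.Agent.HI.H1
import Pool.Agent.HI.H2

set_option autoImplicit false
set_option linter.unusedSectionVars false

noncomputable section

open scoped InnerProductSpace ENNReal Topology
open Classical Filter ContinuousLinearMap

namespace Pool.Agent.HI

open Pool.Agent.VN Pool.Agent.LFT

/-- the approximate formula for coordinates with darts in a given set -/
def AFon (k : Subring ℂ) (G : Type) [Group G] {D A B : Type} [MulAction G D] [MulAction G A]
    [MulAction G B] (a : D → A) (b : D → B) (s : Set D) : Prop :=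
  ∀ (ι : Type) (_ : Fintype ι) (d : ι → D), (∀ i, d i ∈ s) → ∀ (K0 K1 : Submodule ℂ (L2 ι G)),
    Rat k (fun i => a (d i)) K0 → Rat k (fun i => b (d i)) K1 → ∀ ε : ℝ, 0 < ε →
      ∃ S, Rat k d S ∧ dm (K0 ⊓ K1) - ε ≤ dm (K0 ⊓ S) + dm (K1 ⊓ S) - dm S

section H19

variable {G : Type} [Group G] {k : Subring ℂ} {ι : Type} [Fintype ι]

/-- restriction to the coordinates in a set -/
def H19_R (s : Set ι) : L2 ι G →L[ℂ] L2 s G := crd Subtype.val Set.univ

/-- extension by zero -/
def H19_E (s : Set ι) : L2 s G →L[ℂ] L2 ι G :=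
  mulR fun i => if h : i ∈ s then Finsupp.single ((⟨i, h⟩ : s), (1 : G)) 1 else 0

lemma H19_R_apply (s : Set ι) (x : L2 ι G) (i : s) (g : G) : H19_R s x (i, g) = x (i.1, g) := by
  unfold H19_R
  rw [crd_apply, if_pos (Set.mem_univ _)]

lemma H19_E_apply (s : Set ι) (x : L2 s G) (i : ι) (g : G) :
    H19_E s x (i, g) = if h : i ∈ s then x (⟨i, h⟩, g) else 0 := by
  unfold H19_E
  rw [mulR_apply]
  by_cases h : i ∈ s
  · rw [dif_pos h, dif_pos h, ev_single]
    simp
  · rw [dif_neg h, dif_neg h, ev_zero]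

lemma H19_R_equivar (s : Set ι) : Equivar (H19_R s : L2 ι G →L[ℂ] L2 s G) := by
  unfold H19_R crd
  exact mulR_equivar _

lemma H19_R_loc {M : Type} [MulAction G M] (s : Set ι) (lab : ι → M) :
    LocOp k lab (fun i : s => lab i.1) (H19_R s : L2 ι G →L[ℂ] L2 s G) :=
  LocOp.crd _ _ fun _ _ => rfl

lemma H19_R_E (s : Set ι) (x : L2 s G) : H19_R s (H19_E s x) = x := by
  ext ⟨i, g⟩
  rw [H19_R_apply, H19_E_apply, dif_pos i.2]

lemma H19_R_E' {s t : Set ι} (hst : ∀ i, i ∈ t → i ∉ s) (x : L2 s G) :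
    H19_R t (H19_E s x) = 0 := by
  ext ⟨i, g⟩
  rw [H19_R_apply, H19_E_apply, dif_neg (hst i.1 i.2)]
  rfl

lemma H19_E_R (s : Set ι) (x : L2 ι G) : H19_E s (H19_R s x) = cp s x := by
  ext ⟨i, g⟩
  rw [H19_E_apply, cp_apply]
  by_cases h : i ∈ s
  · rw [dif_pos h, if_pos h, H19_R_apply]
  · rw [dif_neg h, if_neg h]

lemma H19_cp_add {s t : Set ι} (hst : ∀ i, i ∈ t ↔ i ∉ s) (x : L2 ι G) :
    cp s x + cp t x = x := by
  ext ⟨i, g⟩
  rw [lp.coeFn_add, Pi.add_apply, cp_apply, cp_apply]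
  by_cases h : i ∈ s
  · rw [if_pos h, if_neg (fun h' => (hst i).1 h' h), add_zero]
  · rw [if_neg h, if_pos ((hst i).2 h), zero_add]

/-- subspaces given by a set of coordinates and its complement -/
def H19_bt (s t : Set ι) (X : Submodule ℂ (L2 s G)) (Y : Submodule ℂ (L2 t G)) :
    Submodule ℂ (L2 ι G) :=
  X.comap (H19_R s : L2 ι G →L[ℂ] L2 s G).toLinearMap ⊓
    Y.comap (H19_R t : L2 ι G →L[ℂ] L2 t G).toLinearMap

lemma H19_mem_bt {s t : Set ι} {X : Submodule ℂ (L2 s G)} {Y : Submodule ℂ (L2 t G)}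
    {x : L2 ι G} : x ∈ H19_bt s t X Y ↔ H19_R s x ∈ X ∧ H19_R t x ∈ Y := Iff.rfl

lemma H19_bt_inf (s t : Set ι) (X X' : Submodule ℂ (L2 s G)) (Y Y' : Submodule ℂ (L2 t G)) :
    H19_bt s t X Y ⊓ H19_bt s t X' Y' = H19_bt s t (X ⊓ X') (Y ⊓ Y') := by
  ext x
  rw [Submodule.mem_inf, H19_mem_bt, H19_mem_bt, H19_mem_bt, Submodule.mem_inf,
    Submodule.mem_inf]
  tauto

lemma H19_dm_bt {s t : Set ι} (hst : ∀ i, i ∈ t ↔ i ∉ s) {X : Submodule ℂ (L2 s G)}
    {Y : Submodule ℂ (L2 t G)} (hX : CI X) (hY : CI Y) :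
    dm (H19_bt s t X Y) = dm X + dm Y := by
  have hY' : CI (Y.comap (H19_R t : L2 ι G →L[ℂ] L2 t G).toLinearMap) :=
    CI.comap (H19_R_equivar t) hY
  have h1 := dm_comap (H19_R_equivar (G := G) s) hY' hX
  have h2 := dm_comap (H19_R_equivar (G := G) t)
    (CI.kr (H19_R_equivar (G := G) s)) hY
  have e1 : imc (H19_R s) (Y.comap (H19_R t : L2 ι G →L[ℂ] L2 t G).toLinearMap) = ⊤ := by
    rw [eq_top_iff]
    intro x _
    have h := mem_imc (H19_R (G := G) s)
      (X := Y.comap (H19_R t : L2 ι G →L[ℂ] L2 t G).toLinearMap) (x := H19_E s x) (by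
        rw [Submodule.mem_comap]
        change H19_R t (H19_E s x) ∈ Y
        rw [H19_R_E' fun i hi => (hst i).1 hi]
        exact Y.zero_mem)
    rwa [H19_R_E] at h
  have e2 : imc (H19_R t) (kr (H19_R (G := G) s)) = ⊤ := by
    rw [eq_top_iff]
    intro x _
    have h := mem_imc (H19_R (G := G) t) (X := kr (H19_R (G := G) s)) (x := H19_E t x) (by
        rw [mem_kr, H19_R_E' fun i hi hi' => (hst i).1 hi' hi])
    rwa [H19_R_E] at h
  have e3 : kr (H19_R (G := G) s) ⊓ kr (H19_R (G := G) t) = ⊥ := by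
    rw [eq_bot_iff]
    rintro x ⟨hx1, hx2⟩
    rw [SetLike.mem_coe, mem_kr] at hx1 hx2
    rw [Submodule.mem_bot, ← H19_cp_add hst x, ← H19_E_R, ← H19_E_R, hx1, hx2, map_zero, map_zero,
      add_zero]
  rw [e1, top_inf_eq] at h1
  rw [e2, top_inf_eq, e3, dm_bot, zero_add] at h2
  unfold H19_bt
  rw [inf_comm, h1, inf_comm, h2, add_comm]

lemma H19_rat_bt {M : Type} [MulAction G M] (s t : Set ι) (lab : ι → M)
    {X : Submodule ℂ (L2 s G)} {Y : Submodule ℂ (L2 t G)}
    (hX : Rat k (fun i : s => lab i.1) X) (hY : Rat k (fun i : t => lab i.1) Y) :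
    Rat k lab (H19_bt s t X Y) :=
  Rat.inf (rat_comap (H19_R_loc s lab) hX) (rat_comap (H19_R_loc t lab) hY)

/-- stable subspaces are given by a set of coordinates and its complement -/
lemma H19_eq_bt {s t : Set ι} (hst : ∀ i, i ∈ t ↔ i ∉ s) {X : Submodule ℂ (L2 ι G)}
    (hX : IsClosed (X : Set (L2 ι G))) (hs : ∀ x ∈ X, cp s x ∈ X) :
    X = H19_bt s t (imc (H19_R s) X) (imc (H19_R t) X) := by
  apply le_antisymm
  · intro x hx
    exact ⟨mem_imc (H19_R s) hx, mem_imc (H19_R t) hx⟩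
  · rintro x ⟨h1, h2⟩
    have hs' : ∀ y ∈ X, cp t y ∈ X := by
      intro y hy
      have : cp t y = y - cp s y := by
        rw [eq_sub_iff_add_eq', H19_cp_add hst]
      rw [this]
      exact X.sub_mem hy (hs y hy)
    have key : ∀ r : Set ι, (∀ y ∈ X, cp r y ∈ X) → ∀ z ∈ imc (H19_R (G := G) r) X,
        H19_E r z ∈ X := by
      intro r hr z hz
      have h3 : imc (H19_R (G := G) r) X ≤ X.comap (H19_E r : L2 r G →L[ℂ] L2 ι G).toLinearMap := by
        refine imc_le (hX.preimage (H19_E r : L2 r G →L[ℂ] L2 ι G).continuous) fun y hy => ?_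
        rw [Submodule.mem_comap]
        change H19_E r (H19_R r y) ∈ X
        rw [H19_E_R]
        exact hr y hy
      exact h3 hz
    have h3 := key s hs _ h1
    have h4 := key t hs' _ h2
    change H19_E s (H19_R s x) ∈ X at h3
    change H19_E t (H19_R t x) ∈ X at h4
    rw [H19_E_R] at h3 h4
    rw [← H19_cp_add hst x]
    exact X.add_mem h3 h4

/-- stability under the projections to invariant sets of places -/
lemma H19_stable {D V C : Type} [MulAction G D] [MulAction G V] (α : D → V)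
    (hα : Eqv G α) (c : V → C) (hc : ∀ (g : G) x, c (g • x) = c x) (d : ι → D) {s : Set ι}
    {c0 : C} (hs : ∀ i, i ∈ s ↔ c (α (d i)) = c0) {X : Submodule ℂ (L2 ι G)}
    (hX : IsClosed (X : Set (L2 ι G))) (hl : Loc (pV fun i => α (d i)) X) :
    ∀ x ∈ X, cp s x ∈ X := by
  intro x hx
  have h := LF4_cut_mem α hα d hX hl (Y := {δ | c (α δ) = c0}) (by
    intro ε ε' he
    simp only [Set.mem_ofPred_eq, he]) hx
  have e : cp s x = cut (pV (G := G) d ⁻¹' {δ | c (α δ) = c0}) x := by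
    ext ⟨i, g⟩
    rw [cp_apply, cut_apply]
    have : ((i, g) ∈ pV (G := G) d ⁻¹' {δ | c (α δ) = c0}) ↔ i ∈ s := by
      rw [hs, Set.mem_preimage, Set.mem_ofPred_eq]
      change c (α (g • d i)) = c0 ↔ _
      rw [hα, hc]
    by_cases hi : i ∈ s
    · rw [if_pos hi, if_pos (this.2 hi)]
    · rw [if_neg hi, if_neg (fun h => hi (this.1 h))]
  rw [e]
  exact h

lemma H19_dm_empty (h : IsEmpty ι) (X : Submodule ℂ (L2 ι G)) : dm X = 0 := by
  have h1 := dm_le_card X
  have h2 := dm_nonneg X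
  rw [Fintype.card_eq_zero, Nat.cast_zero] at h1
  exact le_antisymm h1 h2

end H19

/-- H19: decomposition of the formula -/
theorem af_of_on {k : Subring ℂ} {G : Type} [Group G] {D A B C : Type} [MulAction G D]
    [MulAction G A] [MulAction G B] {a : D → A} {b : D → B} (ha : Eqv G a) (hb : Eqv G b)
    (cA : A → C) (cB : B → C) (hcA : ∀ (g : G) x, cA (g • x) = cA x)
    (hcB : ∀ (g : G) x, cB (g • x) = cB x) (hc : ∀ δ, cA (a δ) = cB (b δ))
    (h : ∀ c0, AFon k G a b {δ | cA (a δ) = c0}) : AF k G a b := by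
  have key : ∀ F : Finset C, ∀ (ι : Type) (_ : Fintype ι) (d : ι → D),
      (∀ i, cA (a (d i)) ∈ F) → ∀ (K0 K1 : Submodule ℂ (L2 ι G)),
      Rat k (fun i => a (d i)) K0 → Rat k (fun i => b (d i)) K1 → ∀ ε : ℝ, 0 < ε →
      ∃ S, Rat k d S ∧ dm (K0 ⊓ K1) - ε ≤ dm (K0 ⊓ S) + dm (K1 ⊓ S) - dm S := by
    intro F
    induction F using Finset.induction_on with
    | empty =>
      intro ι _ d hd K0 K1 _ _ ε hε
      have hι : IsEmpty ι := ⟨fun i => by simpa using hd i⟩
      refine ⟨⊥, Rat.bot d, ?_⟩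
      rw [H19_dm_empty hι, H19_dm_empty hι, H19_dm_empty hι, H19_dm_empty hι]
      linarith
    | insert c0 F _ ih =>
      intro ι _ d hd K0 K1 h0 h1 ε hε
      obtain ⟨s, hs⟩ : ∃ s : Set ι, ∀ i, i ∈ s ↔ cA (a (d i)) = c0 :=
        ⟨{i | cA (a (d i)) = c0}, fun i => Iff.rfl⟩
      obtain ⟨t, hst⟩ : ∃ t : Set ι, ∀ i, i ∈ t ↔ i ∉ s := ⟨sᶜ, fun i => Iff.rfl⟩
      have e0 := H19_eq_bt hst h0.ci.cl (H19_stable a ha cA hcA d (c0 := c0) hs
        h0.ci.cl h0.loc)
      have e1 := H19_eq_bt hst h1.ci.cl (H19_stable b hb cB hcB d (c0 := c0) (fun i => by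
        rw [← hc]
        exact hs i) h1.ci.cl h1.loc)
      have r0 : Rat k (fun i : s => a (d i.1)) (imc (H19_R s) K0) :=
        Rat.imc (H19_R_loc s (fun i => a (d i))) h0
      have r1 : Rat k (fun i : s => b (d i.1)) (imc (H19_R s) K1) :=
        Rat.imc (H19_R_loc s (fun i => b (d i))) h1
      have r0' : Rat k (fun i : t => a (d i.1)) (imc (H19_R t) K0) :=
        Rat.imc (H19_R_loc t (fun i => a (d i))) h0
      have r1' : Rat k (fun i : t => b (d i.1)) (imc (H19_R t) K1) :=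
        Rat.imc (H19_R_loc t (fun i => b (d i))) h1
      obtain ⟨S, hS, hS'⟩ := h c0 s inferInstance (fun i => d i.1) (fun i => (hs i.1).1 i.2) _ _
        r0 r1 (ε / 2) (half_pos hε)
      obtain ⟨T, hT, hT'⟩ := ih t inferInstance (fun i => d i.1) (fun i => by
        rcases Finset.mem_insert.1 (hd i.1) with h2 | h2
        · exact absurd ((hs i.1).2 h2) ((hst i.1).1 i.2)
        · exact h2) _ _ r0' r1' (ε / 2) (half_pos hε)
      refine ⟨H19_bt s t S T, H19_rat_bt s t d hS hT, ?_⟩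
      rw [e0, e1, H19_bt_inf, H19_bt_inf, H19_bt_inf,
        H19_dm_bt hst (r0.ci.inf r1.ci) (r0'.ci.inf r1'.ci),
        H19_dm_bt hst (r0.ci.inf hS.ci) (r0'.ci.inf hT.ci),
        H19_dm_bt hst (r1.ci.inf hS.ci) (r1'.ci.inf hT.ci), H19_dm_bt hst hS.ci hT.ci]
      linarith
  intro ι _ d K0 K1 h0 h1 ε hε
  exact key (Finset.univ.image fun i => cA (a (d i))) ι _ d
    (fun i => Finset.mem_image_of_mem _ (Finset.mem_univ i)) K0 K1 h0 h1 ε hε

/-- H19: decomposition of the integrality -/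
theorem int_of_on {k : Subring ℂ} {G : Type} [Group G] {M C : Type} [MulAction G M]
    (c : M → C) (hc : ∀ (g : G) x, c (g • x) = c x)
    (h : ∀ c0, ∀ (ι : Type) (_ : Fintype ι) (lab : ι → M), (∀ i, c (lab i) = c0) →
      ∀ X : Submodule ℂ (L2 ι G), Rat k lab X → ∃ z : ℤ, dm X = z) : Int0 k G M := by
  have key : ∀ F : Finset C, ∀ (ι : Type) (_ : Fintype ι) (lab : ι → M),
      (∀ i, c (lab i) ∈ F) → ∀ X : Submodule ℂ (L2 ι G), Rat k lab X → ∃ z : ℤ, dm X = z := by
    intro F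
    induction F using Finset.induction_on with
    | empty =>
      intro ι _ lab hl X _
      have hι : IsEmpty ι := ⟨fun i => by simpa using hl i⟩
      exact ⟨0, by rw [H19_dm_empty hι, Int.cast_zero]⟩
    | insert c0 F _ ih =>
      intro ι _ lab hl X hX
      obtain ⟨s, hs⟩ : ∃ s : Set ι, ∀ i, i ∈ s ↔ c (lab i) = c0 :=
        ⟨{i | c (lab i) = c0}, fun i => Iff.rfl⟩
      obtain ⟨t, hst⟩ : ∃ t : Set ι, ∀ i, i ∈ t ↔ i ∉ s := ⟨sᶜ, fun i => Iff.rfl⟩
      have e0 := H19_eq_bt hst hX.ci.cl (H19_stable (fun m : M => m) (fun _ _ => rfl) c hc lab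
        (c0 := c0) hs hX.ci.cl hX.loc)
      have r0 : Rat k (fun i : s => lab i.1) (imc (H19_R s) X) := Rat.imc (H19_R_loc s lab) hX
      have r0' : Rat k (fun i : t => lab i.1) (imc (H19_R t) X) :=
        Rat.imc (H19_R_loc t lab) hX
      obtain ⟨z1, h1⟩ := h c0 s inferInstance (fun i => lab i.1) (fun i => (hs i.1).1 i.2) _ r0
      obtain ⟨z2, h2⟩ := ih t inferInstance (fun i => lab i.1) (fun i => by
        rcases Finset.mem_insert.1 (hl i.1) with h2 | h2
        · exact absurd ((hs i.1).2 h2) ((hst i.1).1 i.2)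
        · exact h2) _ r0'
      refine ⟨z1 + z2, ?_⟩
      rw [e0, H19_dm_bt hst r0.ci r0'.ci, h1, h2, Int.cast_add]
  intro ι _ lab X hX
  exact key (Finset.univ.image fun i => c (lab i)) ι _ lab
    (fun i => Finset.mem_image_of_mem _ (Finset.mem_univ i)) X hX

/-- H19: disjoint unions of good sets are good -/
theorem good_sigma {k : Subring ℂ} {G W C : Type} [Group G] [MulAction G W] (c : W → C)
    (hc : ∀ (g : G) w, c (g • w) = c w)
    (h : ∀ c0, ∃ (W0 : Type) (_ : MulAction G W0) (j : W0 → W), Eqv G j ∧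
      Function.Injective j ∧ (∀ w, c w = c0 → ∃ w0, j w0 = w) ∧ Good k G W0) : Good k G W := by
  intro Γ _ π hπ
  constructor
  · intro U _
    refine int_of_on (fun p : Via π W × U => c (ofVia p.1)) (fun g p => hc (π g) (ofVia p.1))
      fun c0 ι _ lab hlab X hX => ?_
    obtain ⟨W0, _, j, hj, hji, hjs, hW0⟩ := h c0
    choose w0 hw0 using fun i => hjs _ (hlab i)
    have hlab' : lab = fun i => (Prod.map (fun w : Via π W0 => toVia π (j (ofVia w))) id :
        Via π W0 × U → Via π W × U) (toVia π (w0 i), (lab i).2) := by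
      funext i
      apply Prod.ext
      · exact (hw0 i).symm
      · rfl
    rw [hlab'] at hX
    have hX' := rat_of_inj (k := k) (Prod.map (fun w : Via π W0 => toVia π (j (ofVia w))) id :
        Via π W0 × U → Via π W × U) (by
          intro g p
          apply Prod.ext
          · exact hj (π g) (ofVia p.1)
          · rfl) (by
          intro p p' hp
          apply Prod.ext
          · exact hji (congrArg Prod.fst hp)
          · exact (Prod.ext_iff.1 hp).2) hX
    exact (hW0 Γ π hπ).1 U ι _ _ X hX'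
  · intro X _ hX U _
    refine af_of_on (C := C) (fun g p => ?_) (fun g p => ?_)
      (fun p : TA X Γ × (Via (π.comp (rh X Γ)) W × U) => c (ofVia p.2.1))
      (fun p : TB X Γ × (Via (π.comp (rh X Γ)) W × U) => c (ofVia p.2.1))
      (fun g p => hc _ (ofVia p.2.1)) (fun g p => hc _ (ofVia p.2.1)) (fun _ => rfl)
      fun c0 ι _ d hd K0 K1 h0 h1 ε hε => ?_
    · apply Prod.ext
      · exact ta_smul X Γ g p.1
      · rfl
    · apply Prod.ext
      · exact tb_smul X Γ g p.1
      · rfl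
    obtain ⟨W0, _, j, hj, hji, hjs, hW0⟩ := h c0
    choose w0 hw0 using fun i => hjs _ (hd i)
    let J : Via (π.comp (rh X Γ)) W0 × U → Via (π.comp (rh X Γ)) W × U :=
      Prod.map (fun w => toVia (π.comp (rh X Γ)) (j (ofVia w))) id
    have hJ : Eqv (Sd X Γ) J := by
      intro g p
      apply Prod.ext
      · exact hj _ (ofVia p.1)
      · rfl
    have hJi : Function.Injective J := by
      intro p p' hp
      apply Prod.ext
      · exact hji (congrArg Prod.fst hp)
      · exact (Prod.ext_iff.1 hp).2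
    let d0 : ι → TD X Γ × (Via (π.comp (rh X Γ)) W0 × U) := fun i =>
      ((d i).1, (toVia (π.comp (rh X Γ)) (w0 i), (d i).2.2))
    have hd0 : ∀ i, (Prod.map id J (d0 i) : TD X Γ × (Via (π.comp (rh X Γ)) W × U)) = d i := by
      intro i
      apply Prod.ext
      · rfl
      · apply Prod.ext
        · exact hw0 i
        · rfl
    have hd0' : (fun i => (Prod.map id J (d0 i) : TD X Γ × (Via (π.comp (rh X Γ)) W × U))) = d :=
      funext hd0
    have eA : (fun i => (Prod.map (ta X Γ) id (d i) : TA X Γ × (Via (π.comp (rh X Γ)) W × U))) =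
        fun i => (Prod.map id J : TA X Γ × (Via (π.comp (rh X Γ)) W0 × U) →
          TA X Γ × (Via (π.comp (rh X Γ)) W × U)) (Prod.map (ta X Γ) id (d0 i)) := by
      funext i
      rw [← hd0 i]
      rfl
    have eB : (fun i => (Prod.map (tb X Γ) id (d i) : TB X Γ × (Via (π.comp (rh X Γ)) W × U))) =
        fun i => (Prod.map id J : TB X Γ × (Via (π.comp (rh X Γ)) W0 × U) →
          TB X Γ × (Via (π.comp (rh X Γ)) W × U)) (Prod.map (tb X Γ) id (d0 i)) := by
      funext i
      rw [← hd0 i]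
      rfl
    rw [eA] at h0
    rw [eB] at h1
    have h0' := rat_of_inj (k := k) (Prod.map id J : TA X Γ × (Via (π.comp (rh X Γ)) W0 × U) →
          TA X Γ × (Via (π.comp (rh X Γ)) W × U)) (fun g p => by
            apply Prod.ext
            · rfl
            · exact hJ g p.2) (Function.Injective.prodMap Function.injective_id hJi) h0
    have h1' := rat_of_inj (k := k) (Prod.map id J : TB X Γ × (Via (π.comp (rh X Γ)) W0 × U) →
          TB X Γ × (Via (π.comp (rh X Γ)) W × U)) (fun g p => by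
            apply Prod.ext
            · rfl
            · exact hJ g p.2) (Function.Injective.prodMap Function.injective_id hJi) h1
    obtain ⟨S, hS, hS'⟩ := (hW0 Γ π hπ).2 X hX U ι _ d0 K0 K1 h0' h1' ε hε
    refine ⟨S, ?_, hS'⟩
    have h2 := Rat.mapLab (Prod.map id J : TD X Γ × (Via (π.comp (rh X Γ)) W0 × U) →
          TD X Γ × (Via (π.comp (rh X Γ)) W × U)) (fun g p => by
            apply Prod.ext
            · rfl
            · exact hJ g p.2) hS
    rw [hd0'] at h2
    exact h2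

end Pool.Agent.HI
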