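import Pool.Agent.HI.Defs

set_option autoImplicit false
set_option linter.unusedSectionVars false

noncomputable section

open scoped InnerProductSpace ENNReal Topology
open Classical Filter ContinuousLinearMap

namespace Pool.Agent.HI

open Pool.Agent.VN Pool.Agent.LFT

section Twist

variable {G B W : Type} [Group G] [Group B] [MulAction G W]

/-- cocycles with values in `B` which are injective on stabilisers -/
structure Coc (c : G → W → B) : Prop where
  mul : ∀ (g h : G) (w : W), c (g * h) w = c g (h • w) * c h w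
  inj : ∀ (g : G) (w : W), g • w = w → c g w = 1 → g = 1

lemma Coc.one {c : G → W → B} (hc : Coc c) (w : W) : c 1 w = 1 := by
  have h := hc.mul 1 1 w
  rw [mul_one, one_smul] at h
  exact left_eq_mul.mp h

/-- the twisted product with a `B`-set -/
def Tw {c : G → W → B} (_ : Coc c) (Y : Type) : Type := W × Y

instance {c : G → W → B} (hc : Coc c) (Y : Type) [MulAction B Y] : MulAction G (Tw hc Y) where
  smul g x := ((g • x.1, c g x.1 • x.2) : W × Y)
  one_smul x := by
    show ((1 : G) • x.1, c 1 x.1 • x.2) = x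
    rw [hc.one, one_smul, one_smul]
    rfl
  mul_smul g h x := by
    show ((g * h) • x.1, c (g * h) x.1 • x.2) = (g • h • x.1, c g (h • x.1) • c h x.1 • x.2)
    rw [hc.mul, mul_smul, mul_smul]

/-- an element of a twisted product -/
def mkTw {c : G → W → B} (hc : Coc c) {Y : Type} (w : W) (y : Y) : Tw hc Y := (w, y)

lemma tw_smul {c : G → W → B} (hc : Coc c) (Y : Type) [MulAction B Y] (g : G) (w : W) (y : Y) :
    g • mkTw hc w y = mkTw hc (g • w) (c g w • y) := rfl

/-- H21: the cocycle of a twisted product with a transitive set -/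
theorem Coc.stab {c : G → W → B} (hc : Coc c) {Y : Type} [MulAction B Y] (y0 : Y)
    (htr : ∀ y, ∃ b : B, b • y0 = y) :
    ∃ c' : G → Tw hc Y → MulAction.stabilizer B y0, Coc c' := by
  choose h hh using htr
  have hmem : ∀ (b : B) (y : Y), (h (b • y))⁻¹ * b * h y ∈ MulAction.stabilizer B y0 := by
    intro b y
    rw [MulAction.mem_stabilizer_iff, mul_smul, mul_smul, hh, inv_smul_eq_iff, hh]
  refine ⟨fun g x => ⟨(h (c g x.1 • x.2))⁻¹ * c g x.1 * h x.2, hmem _ _⟩, ?_, ?_⟩
  · rintro g g' ⟨w, y⟩
    apply Subtype.ext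
    show (h (c (g * g') w • y))⁻¹ * c (g * g') w * h y =
      ((h (c g (g' • w) • c g' w • y))⁻¹ * c g (g' • w) * h (c g' w • y)) *
        ((h (c g' w • y))⁻¹ * c g' w * h y)
    rw [hc.mul, mul_smul]
    group
  · rintro g ⟨w, y⟩ h1 h2
    have h3 : g • w = w := congrArg Prod.fst h1
    have h4 : c g w • y = y := congrArg Prod.snd h1
    have h5 : (h (c g w • y))⁻¹ * c g w * h y = 1 := congrArg Subtype.val h2
    rw [h4] at h5
    refine hc.inj g w h3 ?_
    have h6 := congrArg (fun b => h y * b * (h y)⁻¹) h5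
    simpa [mul_assoc] using h6

end Twist

end Pool.Agent.HI
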