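import Pool.Agent.HI.Defs

set_option autoImplicit false
set_option linter.unusedSectionVars false

noncomputable section

open scoped InnerProductSpace ENNReal Topology
open Classical Filter ContinuousLinearMap

namespace Pool.Agent.HI

open Pool.Agent.VN Pool.Agent.LFT

section Prod

variable {G : Type} [Group G] {k : Subring ℂ}

/-- two closed invariant subspaces of a third one -/
lemma H5_two {ι : Type} [Fintype ι] {U V W : Submodule ℂ (L2 ι G)} (cU : CI U) (cV : CI V)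
    (cW : CI W) (hU : U ≤ W) (hV : V ≤ W) : dm U + dm V ≤ dm (U ⊓ V) + dm W := by
  have h1 := dm_csup cU cV
  have h2 : dm (csup U V) ≤ dm W := dm_mono (csup_le cW.cl hU hV)
  linarith

lemma H5_imc_mono {ι κ : Type} (T : L2 ι G →L[ℂ] L2 κ G) {X Y : Submodule ℂ (L2 ι G)}
    (h : X ≤ Y) : imc T X ≤ imc T Y :=
  imc_le (Submodule.isClosed_topologicalClosure _) fun _ hx => mem_imc T (h hx)

/-- H5 -/
theorem product_ineq {ι : Type} [Fintype ι]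
    {A00 A01 A10 A11 S0 S1 Q0 Q1 : Submodule ℂ (L2 ι G)} (c00 : CI A00) (c01 : CI A01)
    (c10 : CI A10) (c11 : CI A11) (cS0 : CI S0) (cS1 : CI S1) (cQ0 : CI Q0) (cQ1 : CI Q1)
    (h00 : A00 ≤ S0) (h01 : A01 ≤ S0) (h10 : A10 ≤ S1) (h11 : A11 ≤ S1) :
    (dm (A00 ⊓ Q0) + dm (A10 ⊓ Q0) - dm Q0) + (dm (A01 ⊓ Q1) + dm (A11 ⊓ Q1) - dm Q1)
        - dm (S0 ⊓ S1)
      ≤ dm ((A00 ⊓ A01) ⊓ (Q0 ⊓ Q1)) + dm ((A10 ⊓ A11) ⊓ (Q0 ⊓ Q1)) - dm (Q0 ⊓ Q1) := by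
  have cQ : CI (csup Q0 Q1) := CI.csup cQ0.inv cQ1.inv
  have h1 := H5_two (c00.inf cQ0) (c01.inf cQ1) (cS0.inf cQ)
    (inf_le_inf h00 (le_csup_left Q0 Q1)) (inf_le_inf h01 (le_csup_right Q0 Q1))
  have h2 := H5_two (c10.inf cQ0) (c11.inf cQ1) (cS1.inf cQ)
    (inf_le_inf h10 (le_csup_left Q0 Q1)) (inf_le_inf h11 (le_csup_right Q0 Q1))
  have h3 := H5_two (cS0.inf cQ) (cS1.inf cQ) cQ inf_le_right inf_le_right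
  have h4 : dm ((S0 ⊓ csup Q0 Q1) ⊓ (S1 ⊓ csup Q0 Q1)) ≤ dm (S0 ⊓ S1) :=
    dm_mono (inf_le_inf inf_le_left inf_le_left)
  have h5 := dm_csup cQ0 cQ1
  rw [inf_inf_inf_comm] at h1 h2
  linarith

/-- H5: reduction to a larger set of coordinates -/
theorem red {D : Type} [MulAction G D] {ι ν : Type} [Fintype ι] [Fintype ν] {d : ι → D}
    {e : ν → D} {K0 K1 : Submodule ℂ (L2 ι G)} {L0 L1 : Submodule ℂ (L2 (ι ⊕ ν) G)}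
    (cK0 : CI K0) (cK1 : CI K1) (cL0 : CI L0) (cL1 : CI L1)
    (h0 : imc (prL : L2 (ι ⊕ ν) G →L[ℂ] L2 ι G) L0 ≤ K0)
    (h1 : imc (prL : L2 (ι ⊕ ν) G →L[ℂ] L2 ι G) L1 ≤ K1)
    (hdm : dm (K0 ⊓ K1) + dm (L0 ⊓ L1 ⊓ kr (prL : L2 (ι ⊕ ν) G →L[ℂ] L2 ι G)) ≤ dm (L0 ⊓ L1))
    {ε : ℝ} {S : Submodule ℂ (L2 (ι ⊕ ν) G)} (hS : Rat k (Sum.elim d e) S)
    (hSe : dm (L0 ⊓ L1) - ε ≤ dm (L0 ⊓ S) + dm (L1 ⊓ S) - dm S) :
    ∃ S', Rat k d S' ∧ dm (K0 ⊓ K1) - ε ≤ dm (K0 ⊓ S') + dm (K1 ⊓ S') - dm S' := by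
  have hT : LocOp k (Sum.elim d e) d (prL : L2 (ι ⊕ ν) G →L[ℂ] L2 ι G) := LocOp.prL d e
  have hE : Equivar (prL : L2 (ι ⊕ ν) G →L[ℂ] L2 ι G) := hT.equivar
  have cS : CI S := hS.ci
  have cK : CI (kr (prL : L2 (ι ⊕ ν) G →L[ℂ] L2 ι G)) := CI.kr hE
  refine ⟨imc (prL : L2 (ι ⊕ ν) G →L[ℂ] L2 ι G) S, Rat.imc hT hS, ?_⟩
  have e0 : dm (imc (prL : L2 (ι ⊕ ν) G →L[ℂ] L2 ι G) (L0 ⊓ S)) ≤
      dm (K0 ⊓ imc (prL : L2 (ι ⊕ ν) G →L[ℂ] L2 ι G) S) :=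
    dm_mono (le_inf ((H5_imc_mono _ inf_le_left).trans h0) (H5_imc_mono _ inf_le_right))
  have e1 : dm (imc (prL : L2 (ι ⊕ ν) G →L[ℂ] L2 ι G) (L1 ⊓ S)) ≤
      dm (K1 ⊓ imc (prL : L2 (ι ⊕ ν) G →L[ℂ] L2 ι G) S) :=
    dm_mono (le_inf ((H5_imc_mono _ inf_le_left).trans h1) (H5_imc_mono _ inf_le_right))
  have r0 := dm_imc hE (cL0.inf cS)
  have r1 := dm_imc hE (cL1.inf cS)
  have rS := dm_imc hE cS
  have h3 := H5_two ((cL0.inf cS).inf cK) ((cL1.inf cS).inf cK) (cS.inf cK)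
    (inf_le_inf_right _ inf_le_right) (inf_le_inf_right _ inf_le_right)
  have h4 : dm (((L0 ⊓ S) ⊓ kr (prL : L2 (ι ⊕ ν) G →L[ℂ] L2 ι G)) ⊓
      ((L1 ⊓ S) ⊓ kr (prL : L2 (ι ⊕ ν) G →L[ℂ] L2 ι G))) ≤
      dm (L0 ⊓ L1 ⊓ kr (prL : L2 (ι ⊕ ν) G →L[ℂ] L2 ι G)) := by
    apply dm_mono
    refine le_inf (le_inf ?_ ?_) ?_
    · exact inf_le_left.trans (inf_le_left.trans inf_le_left)
    · exact inf_le_right.trans (inf_le_left.trans inf_le_left)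
    · exact inf_le_left.trans inf_le_right
  linarith

end Prod

end Pool.Agent.HI
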