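import Pool.Agent.HI.H1
import Pool.Agent.HI.H2
import Pool.Agent.HI.H4
import Pool.Agent.HI.H5

set_option autoImplicit false
set_option linter.unusedSectionVars false

noncomputable section

open scoped InnerProductSpace ENNReal Topology
open Classical Filter ContinuousLinearMap

namespace Pool.Agent.HI

open Pool.Agent.VN Pool.Agent.LFT

section H6Aux

variable {G : Type} [Group G] {k : Subring ℂ}

lemma H6_rat_congr {M : Type} [MulAction G M] {ι : Type} [Fintype ι] {lab lab' : ι → M}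
    {X : Submodule ℂ (L2 ι G)} (h : ∀ i, lab i = lab' i) (hX : Rat k lab X) : Rat k lab' X := by
  have e : lab = lab' := funext h
  rwa [← e]

lemma H6_crd_equivar {ι κ : Type} [Fintype κ] (j : κ → ι) (s : Set κ) :
    Equivar (crd (G := G) j s) := mulR_equivar _

lemma H6_crd_surj {ι κ : Type} [Fintype ι] [Fintype κ] (j : κ → ι) (hj : Function.Injective j)
    (y : L2 κ G) : ∃ x, crd j Set.univ x = y := by
  refine ⟨mulR (fun i => if h : ∃ a, j a = i then Finsupp.single (h.choose, (1 : G)) 1 else 0) y,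
    ?_⟩
  ext ⟨a, g⟩
  rw [crd_apply, if_pos (Set.mem_univ _), mulR_apply]
  have h : ∃ a', j a' = j a := ⟨a, rfl⟩
  have h2 : h.choose = a := hj h.choose_spec
  simp only
  rw [dif_pos h, ev_single, h2]
  simp

lemma H6_imc_top {ι κ : Type} {T : L2 ι G →L[ℂ] L2 κ G} (hs : ∀ y, ∃ x, T x = y) :
    imc T (⊤ : Submodule ℂ (L2 ι G)) = ⊤ := by
  rw [eq_top_iff]
  intro y _
  obtain ⟨x, rfl⟩ := hs y
  exact mem_imc T trivial

lemma H6_dm_surj {ι κ : Type} [Fintype ι] [Fintype κ] {T : L2 ι G →L[ℂ] L2 κ G} (hT : Equivar T)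
    (hs : ∀ y, ∃ x, T x = y) {K : Submodule ℂ (L2 κ G)} (hK : CI K) :
    dm (K.comap T.toLinearMap) + Fintype.card κ = dm K + Fintype.card ι := by
  have h1 := dm_comap hT CI.top hK
  have h2 := dm_imc hT (CI.top (ι := ι) (G := G))
  rw [H6_imc_top hs] at h1 h2
  rw [top_inf_eq, top_inf_eq, top_inf_eq] at h1
  rw [top_inf_eq, dm_top, dm_top] at h2
  linarith

lemma H6_fibre {I J0 J1 ι : Type} [Fintype I] [Fintype J0] [Fintype J1] [Fintype ι]
    {p0 : L2 I G →L[ℂ] L2 J0 G} {p1 : L2 I G →L[ℂ] L2 J1 G} {q0 : L2 J0 G →L[ℂ] L2 ι G}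
    {q1 : L2 J1 G →L[ℂ] L2 ι G} {q : L2 I G →L[ℂ] L2 ι G} (ep0 : Equivar p0) (ep1 : Equivar p1)
    (eq0 : Equivar q0) (eq1 : Equivar q1) (eq : Equivar q)
    (h0 : ∀ x, q0 (p0 x) = q x) (h1 : ∀ x, q1 (p1 x) = q x)
    (s0 : ∀ y, ∃ x, p0 x = y) (s1 : ∀ y, ∃ x, p1 x = y) (sq : ∀ y, ∃ x, q x = y)
    (hbot : ∀ x, p0 x = 0 → p1 x = 0 → x = 0)
    (hcard : Fintype.card I + Fintype.card ι = Fintype.card J0 + Fintype.card J1)
    {R0 : Submodule ℂ (L2 J0 G)} {R1 : Submodule ℂ (L2 J1 G)} (c0 : CI R0) (c1 : CI R1) :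
    dm (imc q0 R0 ⊓ imc q1 R1)
        + dm (R0.comap p0.toLinearMap ⊓ R1.comap p1.toLinearMap ⊓ kr q)
      ≤ dm (R0.comap p0.toLinearMap ⊓ R1.comap p1.toLinearMap) := by
  have cE0 : CI (R0.comap p0.toLinearMap) := CI.comap ep0 c0
  have cE1 : CI (R1.comap p1.toLinearMap) := CI.comap ep1 c1
  have cK0 : CI (imc q0 R0) := CI.imc eq0 c0.inv
  have cK1 : CI (imc q1 R1) := CI.imc eq1 c1.inv
  have cKq : CI (kr q) := CI.kr eq
  have cS : CI (csup (imc q0 R0) (imc q1 R1)) := CI.csup cK0.inv cK1.inv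
  have a1 := dm_csup cE0 cE1
  have a2 := H6_dm_surj ep0 s0 c0
  have a3 := H6_dm_surj ep1 s1 c1
  have a4 := H6_dm_surj eq sq cS
  have a5 : dm (csup (R0.comap p0.toLinearMap) (R1.comap p1.toLinearMap))
      ≤ dm ((csup (imc q0 R0) (imc q1 R1)).comap q.toLinearMap) := by
    apply dm_mono
    apply csup_le (CI.comap eq cS).cl
    · intro x hx
      show q x ∈ csup (imc q0 R0) (imc q1 R1)
      rw [← h0 x]
      exact le_csup_left _ _ (mem_imc q0 hx)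
    · intro x hx
      show q x ∈ csup (imc q0 R0) (imc q1 R1)
      rw [← h1 x]
      exact le_csup_right _ _ (mem_imc q1 hx)
  have a6 := dm_csup cK0 cK1
  have a7 := dm_imc eq0 c0
  have a8 := dm_imc eq1 c1
  have hcard' : (Fintype.card I : ℝ) + Fintype.card ι = Fintype.card J0 + Fintype.card J1 := by
    exact_mod_cast hcard
  set F := R0.comap p0.toLinearMap ⊓ R1.comap p1.toLinearMap with hF
  have cF : CI F := cE0.inf cE1
  have b1 := dm_imc ep0 (cF.inf cKq)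
  have b2 := dm_imc ep1 ((cF.inf cKq).inf (CI.kr ep0))
  have b3 : dm (imc p0 (F ⊓ kr q)) ≤ dm (R0 ⊓ kr q0) := by
    apply dm_mono
    apply imc_le (c0.inf (CI.kr eq0)).cl
    intro x hx
    refine ⟨hx.1.1, ?_⟩
    show q0 (p0 x) = 0
    rw [h0 x]
    exact hx.2
  have b4 : dm (imc p1 (F ⊓ kr q ⊓ kr p0)) ≤ dm (R1 ⊓ kr q1) := by
    apply dm_mono
    apply imc_le (c1.inf (CI.kr eq1)).cl
    intro x hx
    refine ⟨hx.1.1.2, ?_⟩
    show q1 (p1 x) = 0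
    rw [h1 x]
    exact hx.1.2
  have b5 : F ⊓ kr q ⊓ kr p0 ⊓ kr p1 = ⊥ := by
    rw [eq_bot_iff]
    intro x hx
    rw [Submodule.mem_bot]
    exact hbot x hx.1.2 hx.2
  rw [b5, dm_bot] at b2
  linarith

lemma H6_push {I ι : Type} [Fintype I] [Fintype ι] {T : L2 I G →L[ℂ] L2 ι G} (hT : Equivar T)
    {L0 L1 X : Submodule ℂ (L2 I G)} {K0 K1 : Submodule ℂ (L2 ι G)} (c0 : CI L0) (c1 : CI L1)
    (cX : CI X) (cK0 : CI K0) (cK1 : CI K1) (h0 : ∀ x ∈ L0, T x ∈ K0) (h1 : ∀ x ∈ L1, T x ∈ K1) :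
    dm (L0 ⊓ X) + dm (L1 ⊓ X) - dm X
      ≤ dm (K0 ⊓ imc T X) + dm (K1 ⊓ imc T X) - dm (imc T X) + dm (L0 ⊓ L1 ⊓ kr T) := by
  have cT : CI (kr T) := CI.kr hT
  have cTX : CI (imc T X) := CI.imc hT cX.inv
  have a0 := dm_imc hT (c0.inf cX)
  have a1 := dm_imc hT (c1.inf cX)
  have a2 := dm_imc hT cX
  have b0 : dm (imc T (L0 ⊓ X)) ≤ dm (K0 ⊓ imc T X) := by
    apply dm_mono
    apply imc_le (cK0.inf cTX).cl
    intro x hx
    exact ⟨h0 x hx.1, mem_imc T hx.2⟩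
  have b1 : dm (imc T (L1 ⊓ X)) ≤ dm (K1 ⊓ imc T X) := by
    apply dm_mono
    apply imc_le (cK1.inf cTX).cl
    intro x hx
    exact ⟨h1 x hx.1, mem_imc T hx.2⟩
  have d := dm_csup ((c0.inf cX).inf cT) ((c1.inf cX).inf cT)
  have d1 : dm (csup (L0 ⊓ X ⊓ kr T) (L1 ⊓ X ⊓ kr T)) ≤ dm (X ⊓ kr T) := by
    apply dm_mono
    apply csup_le (cX.inf cT).cl
    · exact fun x hx => ⟨hx.1.2, hx.2⟩
    · exact fun x hx => ⟨hx.1.2, hx.2⟩
  have d2 : dm (L0 ⊓ X ⊓ kr T ⊓ (L1 ⊓ X ⊓ kr T)) ≤ dm (L0 ⊓ L1 ⊓ kr T) := by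
    apply dm_mono
    exact fun x hx => ⟨⟨hx.1.1.1, hx.2.1.1⟩, hx.2.2⟩
  linarith

lemma H6_conn {D A B D' A' B' : Type} {a : D → A} {b : D → B} {a' : D' → A'} {b' : D' → B'}
    (f : D → D') (h : ∀ ε ε', (a ε = a ε' ∨ b ε = b ε') →
      (a' (f ε) = a' (f ε') ∨ b' (f ε) = b' (f ε'))) {δ δ' : D} (hc : Conn a b δ δ') :
    Conn a' b' (f δ) (f δ') := Relation.ReflTransGen.lift f h _ _ hc

end H6Aux

section Prod

variable {G : Type} [Group G] {k : Subring ℂ}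

/-- H6: the product principle -/
theorem product {D A B W D' A' B' : Type} [MulAction G D] [MulAction G A] [MulAction G B]
    [MulAction G W] [MulAction G D'] [MulAction G A'] [MulAction G B']
    {a : D → A} {b : D → B} {β : D → W} {βA : A → W} {βB : B → W} (ha : Eqv G a) (hb : Eqv G b)
    (hβ : Eqv G β) (hβA : Eqv G βA) (hβB : Eqv G βB) (hA : ∀ δ, βA (a δ) = β δ)
    (hB : ∀ δ, βB (b δ) = β δ) (hsurj : Function.Surjective β)
    (hconn : ∀ δ δ', β δ = β δ' → Conn a b δ δ')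
    {a' : D' → A'} {b' : D' → B'} (ha' : Eqv G a') (hb' : Eqv G b')
    (hsa : Function.Surjective a') (hsb : Function.Surjective b')
    (hconn' : ∀ δ δ', Conn a' b' δ δ')
    (hAF : AF k G a b)
    (h0 : AF k G (Prod.map a' id : D' × A → A' × A) (Prod.map b' id : D' × A → B' × A))
    (h1 : AF k G (Prod.map a' id : D' × B → A' × B) (Prod.map b' id : D' × B → B' × B)) :
    AF k G (Prod.map a' id : D' × W → A' × W) (Prod.map b' id : D' × W → B' × W) := by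
  intro ι hι d K0 K1 hK0 hK1 ε hε
  rcases isEmpty_or_nonempty ι with hemp | hne
  · refine ⟨⊥, Rat.bot _, ?_⟩
    have z : ∀ X : Submodule ℂ (L2 ι G), dm X = 0 := by
      intro X
      have h1 := dm_le_card X
      have h2 := dm_nonneg X
      rw [Fintype.card_eq_zero] at h1
      push_cast at h1
      exact le_antisymm h1 h2
    rw [z, z, z, z]
    linarith
  obtain ⟨i₀⟩ := hne
  have hη : 0 < ε / 3 := by positivity
  -- darts over the labels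
  choose sec hsec using hsurj
  choose sa hsa using hsa
  choose sb hsb using hsb
  -- equivariance of products
  have ePa : Eqv G (Prod.map id a : A' × D → A' × A) := fun g m => Prod.ext rfl (ha g m.2)
  have ePb : Eqv G (Prod.map id b : A' × D → A' × B) := fun g m => Prod.ext rfl (hb g m.2)
  have ePβ : Eqv G (Prod.map id β : A' × D → A' × W) := fun g m => Prod.ext rfl (hβ g m.2)
  have eQa : Eqv G (Prod.map id a : B' × D → B' × A) := fun g m => Prod.ext rfl (ha g m.2)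
  have eQb : Eqv G (Prod.map id b : B' × D → B' × B) := fun g m => Prod.ext rfl (hb g m.2)
  have eQβ : Eqv G (Prod.map id β : B' × D → B' × W) := fun g m => Prod.ext rfl (hβ g m.2)
  have eRa : Eqv G (Prod.map a' id : D' × D → A' × D) := fun g m => Prod.ext (ha' g m.1) rfl
  have eRb : Eqv G (Prod.map b' id : D' × D → B' × D) := fun g m => Prod.ext (hb' g m.1) rfl
  have eRβ : Eqv G (Prod.snd : D' × D → D) := fun g m => rfl
  -- connectedness of products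
  have cP : ∀ δ δ' : A' × D, Prod.map id β δ = Prod.map (id : A' → A') β δ' →
      Conn (Prod.map id a : A' × D → A' × A) (Prod.map id b : A' × D → A' × B) δ δ' := by
    rintro ⟨p, δ⟩ ⟨p', δ'⟩ h
    obtain ⟨rfl, h2⟩ := Prod.ext_iff.1 h
    exact H6_conn (fun ε => (p, ε)) (fun ε ε' hh => by
      rcases hh with hh | hh
      · exact Or.inl (Prod.ext rfl hh)
      · exact Or.inr (Prod.ext rfl hh)) (hconn δ δ' h2)
  have cQ : ∀ δ δ' : B' × D, Prod.map id β δ = Prod.map (id : B' → B') β δ' →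
      Conn (Prod.map id a : B' × D → B' × A) (Prod.map id b : B' × D → B' × B) δ δ' := by
    rintro ⟨p, δ⟩ ⟨p', δ'⟩ h
    obtain ⟨rfl, h2⟩ := Prod.ext_iff.1 h
    exact H6_conn (fun ε => (p, ε)) (fun ε ε' hh => by
      rcases hh with hh | hh
      · exact Or.inl (Prod.ext rfl hh)
      · exact Or.inr (Prod.ext rfl hh)) (hconn δ δ' h2)
  have cR : ∀ δ δ' : D' × D, Prod.snd δ = Prod.snd δ' →
      Conn (Prod.map a' id : D' × D → A' × D) (Prod.map b' id : D' × D → B' × D) δ δ' := by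
    rintro ⟨p, δ⟩ ⟨p', δ'⟩ h
    obtain rfl : δ = δ' := h
    exact H6_conn (fun ε => (ε, δ)) (fun ε ε' hh => by
      rcases hh with hh | hh
      · exact Or.inl (Prod.ext hh rfl)
      · exact Or.inr (Prod.ext hh rfl)) (hconn' p p')
  -- step 1
  obtain ⟨ν0, hν0, e0, K00, K01, r00, r01, hE0⟩ := lin ePa ePb ePβ
    (fun m => ⟨(m.1, sec m.2), Prod.ext rfl (hsec m.2)⟩) cP
    (fun i => (a' (d i).1, a (sec (d i).2))) (fun i => Prod.map a' id (d i))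
    (fun i => ⟨(a' (d i).1, sec (d i).2), rfl, Prod.ext rfl (hsec _)⟩) hK0
  obtain ⟨ν1, hν1, e1, K10, K11, r10, r11, hE1⟩ := lin eQa eQb eQβ
    (fun m => ⟨(m.1, sec m.2), Prod.ext rfl (hsec m.2)⟩) cQ
    (fun i => (b' (d i).1, a (sec (d i).2))) (fun i => Prod.map b' id (d i))
    (fun i => ⟨(b' (d i).1, sec (d i).2), rfl, Prod.ext rfl (hsec _)⟩) hK1
  -- step 3: the coordinates
  let dl : ι ⊕ (ν0 ⊕ ν1) → D' × D := Sum.elim (fun i => ((d i).1, sec (d i).2))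
    (Sum.elim (fun q => (sa (e0 q).1, (e0 q).2)) (fun q => (sb (e1 q).1, (e1 q).2)))
  let j0 : ι ⊕ ν0 → ι ⊕ (ν0 ⊕ ν1) := Sum.elim Sum.inl fun q => Sum.inr (Sum.inl q)
  let j1 : ι ⊕ ν1 → ι ⊕ (ν0 ⊕ ν1) := Sum.elim Sum.inl fun q => Sum.inr (Sum.inr q)
  let m0 : ν0 → ι ⊕ (ν0 ⊕ ν1) := fun q => Sum.inr (Sum.inl q)
  let m1 : ν1 → ι ⊕ (ν0 ⊕ ν1) := fun q => Sum.inr (Sum.inr q)
  let p0 : L2 (ι ⊕ (ν0 ⊕ ν1)) G →L[ℂ] L2 (ι ⊕ ν0) G := crd j0 Set.univ
  let p1 : L2 (ι ⊕ (ν0 ⊕ ν1)) G →L[ℂ] L2 (ι ⊕ ν1) G := crd j1 Set.univ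
  let t0 : L2 (ι ⊕ (ν0 ⊕ ν1)) G →L[ℂ] L2 ν0 G := crd m0 Set.univ
  let t1 : L2 (ι ⊕ (ν0 ⊕ ν1)) G →L[ℂ] L2 ν1 G := crd m1 Set.univ
  have ej0 : Function.Injective j0 := by
    rintro (x | x) (y | y) h <;> simp [j0] at h <;> simp [h]
  have ej1 : Function.Injective j1 := by
    rintro (x | x) (y | y) h <;> simp [j1] at h <;> simp [h]
  have rK00 : Rat k (fun x => (a' (dl x).1, a (dl x).2)) (K00.comap p0.toLinearMap) := by
    refine rat_comap (lab' := Sum.elim (fun i => (a' (d i).1, a (sec (d i).2)))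
      (fun q => Prod.map id a (e0 q))) (LocOp.crd _ _ ?_) r00
    rintro (i | q) _
    · rfl
    · exact Prod.ext (hsa _) rfl
  have rK01 : Rat k (fun x => (a' (dl x).1, b (dl x).2)) (K01.comap t0.toLinearMap) := by
    refine rat_comap (lab' := (fun q => Prod.map id b (e0 q))) (LocOp.crd _ _ ?_) r01
    intro q _
    exact Prod.ext (hsa _) rfl
  have rK10 : Rat k (fun x => (b' (dl x).1, a (dl x).2)) (K10.comap p1.toLinearMap) := by
    refine rat_comap (lab' := Sum.elim (fun i => (b' (d i).1, a (sec (d i).2)))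
      (fun q => Prod.map id a (e1 q))) (LocOp.crd _ _ ?_) r10
    rintro (i | q) _
    · rfl
    · exact Prod.ext (hsb _) rfl
  have rK11 : Rat k (fun x => (b' (dl x).1, b (dl x).2)) (K11.comap t1.toLinearMap) := by
    refine rat_comap (lab' := (fun q => Prod.map id b (e1 q))) (LocOp.crd _ _ ?_) r11
    intro q _
    exact Prod.ext (hsb _) rfl
  have rT0 : Rat k (fun x => a (dl x).2)
      (K00.comap p0.toLinearMap ⊓ K10.comap p1.toLinearMap) :=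
    (rK00.mapLab Prod.snd fun _ _ => rfl).inf (rK10.mapLab Prod.snd fun _ _ => rfl)
  have rT1 : Rat k (fun x => b (dl x).2)
      (K01.comap t0.toLinearMap ⊓ K11.comap t1.toLinearMap) :=
    (rK01.mapLab Prod.snd fun _ _ => rfl).inf (rK11.mapLab Prod.snd fun _ _ => rfl)
  obtain ⟨S, rS, hS⟩ := hAF _ inferInstance (fun x => (dl x).2) _ _ rT0 rT1 (ε / 3) hη
  -- step 4
  obtain ⟨ν2, hν2, e2, S0, S1, rS0, rS1, hES⟩ := lin eRa eRb eRβ
    (fun m => ⟨((d i₀).1, m), rfl⟩) cR (fun x => Prod.map a' id (dl x)) (fun x => (dl x).2)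
    (fun x => ⟨dl x, rfl, rfl⟩) rS
  let d4 : (ι ⊕ (ν0 ⊕ ν1)) ⊕ ν2 → D' × D := Sum.elim dl e2
  let pr : L2 ((ι ⊕ (ν0 ⊕ ν1)) ⊕ ν2) G →L[ℂ] L2 (ι ⊕ (ν0 ⊕ ν1)) G := prL
  have epr : Equivar pr := H6_crd_equivar _ _
  have rS0' : Rat k (fun x => Prod.map a' id (d4 x)) S0 := by
    refine H6_rat_congr (lab := Sum.elim (fun x => Prod.map a' id (dl x))
      (fun q => Prod.map a' id (e2 q))) ?_ rS0
    rintro (x | x) <;> rfl
  have rS1' : Rat k (fun x => Prod.map b' id (d4 x))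
      (cmR S1 : Submodule ℂ (L2 ((ι ⊕ (ν0 ⊕ ν1)) ⊕ ν2) G)) := by
    have hl : LocOp k (fun x => Prod.map b' id (d4 x)) (fun q : ν2 => Prod.map b' id (e2 q))
        (prR : L2 ((ι ⊕ (ν0 ⊕ ν1)) ⊕ ν2) G →L[ℂ] L2 ν2 G) := by
      unfold prR
      exact LocOp.crd _ _ fun _ _ => rfl
    exact rat_comap hl rS1
  -- step 5
  have rA00 : Rat k (fun x => (a' (d4 x).1, a (d4 x).2))
      ((K00.comap p0.toLinearMap).comap pr.toLinearMap ⊓ S0) :=
    (rat_comap (LocOp.crd _ _ (fun _ _ => rfl)) rK00).inf (rS0'.mapLab (Prod.map id a) ePa)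
  have rA01 : Rat k (fun x => (a' (d4 x).1, b (d4 x).2))
      ((K01.comap t0.toLinearMap).comap pr.toLinearMap ⊓ S0) :=
    (rat_comap (LocOp.crd _ _ (fun _ _ => rfl)) rK01).inf (rS0'.mapLab (Prod.map id b) ePb)
  have rA10 : Rat k (fun x => (b' (d4 x).1, a (d4 x).2))
      ((K10.comap p1.toLinearMap).comap pr.toLinearMap ⊓ cmR S1) :=
    (rat_comap (LocOp.crd _ _ (fun _ _ => rfl)) rK10).inf (rS1'.mapLab (Prod.map id a) eQa)
  have rA11 : Rat k (fun x => (b' (d4 x).1, b (d4 x).2))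
      ((K11.comap t1.toLinearMap).comap pr.toLinearMap ⊓ cmR S1) :=
    (rat_comap (LocOp.crd _ _ (fun _ _ => rfl)) rK11).inf (rS1'.mapLab (Prod.map id b) eQb)
  obtain ⟨Q0, rQ0, hQ0⟩ := h0 _ inferInstance (fun x => ((d4 x).1, a (d4 x).2)) _ _ rA00 rA10
    (ε / 3) hη
  obtain ⟨Q1, rQ1, hQ1⟩ := h1 _ inferInstance (fun x => ((d4 x).1, b (d4 x).2)) _ _ rA01 rA11
    (ε / 3) hη
  have rX : Rat k (fun x => ((d4 x).1, β (d4 x).2)) (Q0 ⊓ Q1) := by
    refine Rat.inf ?_ ?_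
    · refine H6_rat_congr (fun x => ?_)
        (rQ0.mapLab (Prod.map id βA : D' × A → D' × W) fun g m => Prod.ext rfl (hβA g m.2))
      exact Prod.ext rfl (hA _)
    · refine H6_rat_congr (fun x => ?_)
        (rQ1.mapLab (Prod.map id βB : D' × B → D' × W) fun g m => Prod.ext rfl (hβB g m.2))
      exact Prod.ext rfl (hB _)
  have hprod := product_ineq rA00.ci rA01.ci rA10.ci rA11.ci rS0'.ci rS1'.ci rQ0.ci rQ1.ci
    inf_le_right inf_le_right inf_le_right inf_le_right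
  -- step 6
  have cS2 : CI (S0 ⊓ (cmR S1 : Submodule ℂ (L2 ((ι ⊕ (ν0 ⊕ ν1)) ⊕ ν2) G))) := rS0'.ci.inf rS1'.ci
  have f1 := dm_comap epr cS2 rT0.ci
  have f2 := dm_comap epr cS2 rT1.ci
  have f3 := dm_imc epr cS2
  have hES' : imc pr (S0 ⊓ (cmR S1 : Submodule ℂ (L2 ((ι ⊕ (ν0 ⊕ ν1)) ⊕ ν2) G))) = S := hES.symm
  rw [hES'] at f1 f2 f3
  let w : L2 (ι ⊕ (ν0 ⊕ ν1)) G →L[ℂ] L2 ι G := crd Sum.inl Set.univ
  have ew : Equivar w := H6_crd_equivar _ _
  have ewp : Equivar (w ∘L pr) := fun s x => by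
    rw [ContinuousLinearMap.comp_apply, ContinuousLinearMap.comp_apply, epr s x, ew s (pr x)]
  have g0 : ∀ y, (prL : L2 (ι ⊕ ν0) G →L[ℂ] L2 ι G) (p0 y) = w y := by
    intro y
    ext ⟨i, g⟩
    rw [prL_apply, crd_apply, crd_apply]
    rfl
  have g1 : ∀ y, (prL : L2 (ι ⊕ ν1) G →L[ℂ] L2 ι G) (p1 y) = w y := by
    intro y
    ext ⟨i, g⟩
    rw [prL_apply, crd_apply, crd_apply]
    rfl
  have g0' : ∀ y, (prR : L2 (ι ⊕ ν0) G →L[ℂ] L2 ν0 G) (p0 y) = t0 y := by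
    intro y
    ext ⟨i, g⟩
    rw [prR_apply, crd_apply, crd_apply]
    rfl
  have g1' : ∀ y, (prR : L2 (ι ⊕ ν1) G →L[ℂ] L2 ν1 G) (p1 y) = t1 y := by
    intro y
    ext ⟨i, g⟩
    rw [prR_apply, crd_apply, crd_apply]
    rfl
  have cR0 : CI (K00 ⊓ (cmR K01 : Submodule ℂ (L2 (ι ⊕ ν0) G))) :=
    r00.ci.inf (CI.comap (H6_crd_equivar _ _) r01.ci)
  have cR1 : CI (K10 ⊓ (cmR K11 : Submodule ℂ (L2 (ι ⊕ ν1) G))) :=
    r10.ci.inf (CI.comap (H6_crd_equivar _ _) r11.ci)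
  have hbot : ∀ x, p0 x = 0 → p1 x = 0 → x = 0 := by
    intro x hx0 hx1
    ext ⟨i, g⟩
    rcases i with i | i | i
    · have := congrArg (fun z : L2 (ι ⊕ ν0) G => z (Sum.inl i, g)) hx0
      simpa [p0, j0, crd_apply] using this
    · have := congrArg (fun z : L2 (ι ⊕ ν0) G => z (Sum.inr i, g)) hx0
      simpa [p0, j0, crd_apply] using this
    · have := congrArg (fun z : L2 (ι ⊕ ν1) G => z (Sum.inr i, g)) hx1
      simpa [p1, j1, crd_apply] using this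
  have hfib := H6_fibre (q0 := prL) (q1 := prL) (H6_crd_equivar j0 Set.univ)
    (H6_crd_equivar j1 Set.univ) (H6_crd_equivar _ _) (H6_crd_equivar _ _) ew g0 g1
    (H6_crd_surj j0 ej0) (H6_crd_surj j1 ej1) (H6_crd_surj _ Sum.inl_injective) hbot
    (by simp only [Fintype.card_sum]; ring) cR0 cR1
  rw [← hE0, ← hE1] at hfib
  have eF : (K00 ⊓ (cmR K01 : Submodule ℂ (L2 (ι ⊕ ν0) G))).comap p0.toLinearMap
      ⊓ (K10 ⊓ (cmR K11 : Submodule ℂ (L2 (ι ⊕ ν1) G))).comap p1.toLinearMap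
      = K00.comap p0.toLinearMap ⊓ K10.comap p1.toLinearMap
        ⊓ (K01.comap t0.toLinearMap ⊓ K11.comap t1.toLinearMap) := by
    ext y
    constructor
    · rintro ⟨⟨y1, y2⟩, y3, y4⟩
      refine ⟨⟨y1, y3⟩, ?_, ?_⟩
      · show t0 y ∈ K01
        rw [← g0' y]
        exact y2
      · show t1 y ∈ K11
        rw [← g1' y]
        exact y4
    · rintro ⟨⟨y1, y3⟩, y2, y4⟩
      refine ⟨⟨y1, ?_⟩, y3, ?_⟩
      · show prR (p0 y) ∈ K01
        rw [g0' y]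
        exact y2
      · show prR (p1 y) ∈ K11
        rw [g1' y]
        exact y4
  rw [eF] at hfib
  have hpush := H6_push ewp (rA00.ci.inf rA01.ci) (rA10.ci.inf rA11.ci) (rQ0.ci.inf rQ1.ci)
    hK0.ci hK1.ci (by
      intro x hx
      rw [ContinuousLinearMap.comp_apply, ← g0 (pr x), hE0]
      refine mem_imc _ ⟨hx.1.1, ?_⟩
      show prR (p0 (pr x)) ∈ K01
      rw [g0' (pr x)]
      exact hx.2.1) (by
      intro x hx
      rw [ContinuousLinearMap.comp_apply, ← g1 (pr x), hE1]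
      refine mem_imc _ ⟨hx.1.1, ?_⟩
      show prR (p1 (pr x)) ∈ K11
      rw [g1' (pr x)]
      exact hx.2.1)
  have hZ := dm_imc epr (((rA00.ci.inf rA01.ci).inf (rA10.ci.inf rA11.ci)).inf (CI.kr ewp))
  have cF : CI (K00.comap p0.toLinearMap ⊓ K10.comap p1.toLinearMap
        ⊓ (K01.comap t0.toLinearMap ⊓ K11.comap t1.toLinearMap) ⊓ kr w) :=
    (rT0.ci.inf rT1.ci).inf (CI.kr ew)
  have hZ1 : dm (imc pr ((K00.comap p0.toLinearMap).comap pr.toLinearMap ⊓ S0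
      ⊓ ((K01.comap t0.toLinearMap).comap pr.toLinearMap ⊓ S0)
      ⊓ ((K10.comap p1.toLinearMap).comap pr.toLinearMap ⊓ cmR S1
      ⊓ ((K11.comap t1.toLinearMap).comap pr.toLinearMap ⊓ cmR S1)) ⊓ kr (w ∘L pr)))
      ≤ dm (K00.comap p0.toLinearMap ⊓ K10.comap p1.toLinearMap
        ⊓ (K01.comap t0.toLinearMap ⊓ K11.comap t1.toLinearMap) ⊓ kr w) := by
    apply dm_mono
    apply imc_le cF.cl
    intro x hx
    exact ⟨⟨⟨hx.1.1.1.1, hx.1.2.1.1⟩, ⟨hx.1.1.2.1, hx.1.2.2.1⟩⟩, hx.2⟩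
  have hZ2 : dm ((K00.comap p0.toLinearMap).comap pr.toLinearMap ⊓ S0
      ⊓ ((K01.comap t0.toLinearMap).comap pr.toLinearMap ⊓ S0)
      ⊓ ((K10.comap p1.toLinearMap).comap pr.toLinearMap ⊓ cmR S1
      ⊓ ((K11.comap t1.toLinearMap).comap pr.toLinearMap ⊓ cmR S1)) ⊓ kr (w ∘L pr) ⊓ kr pr)
      ≤ dm (S0 ⊓ cmR S1 ⊓ kr pr) := by
    apply dm_mono
    intro x hx
    exact ⟨⟨hx.1.1.1.1.2, hx.1.1.2.1.2⟩, hx.2⟩
  have eA0 : (K00.comap p0.toLinearMap).comap pr.toLinearMap ⊓ S0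
      ⊓ ((K10.comap p1.toLinearMap).comap pr.toLinearMap ⊓ cmR S1)
      = S0 ⊓ cmR S1 ⊓ (K00.comap p0.toLinearMap ⊓ K10.comap p1.toLinearMap).comap
        pr.toLinearMap := by
    ext x
    exact ⟨fun hx => ⟨⟨hx.1.2, hx.2.2⟩, hx.1.1, hx.2.1⟩,
      fun hx => ⟨⟨hx.2.1, hx.1.1⟩, hx.2.2, hx.1.2⟩⟩
  have eA1 : (K01.comap t0.toLinearMap).comap pr.toLinearMap ⊓ S0
      ⊓ ((K11.comap t1.toLinearMap).comap pr.toLinearMap ⊓ cmR S1)
      = S0 ⊓ cmR S1 ⊓ (K01.comap t0.toLinearMap ⊓ K11.comap t1.toLinearMap).comap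
        pr.toLinearMap := by
    ext x
    exact ⟨fun hx => ⟨⟨hx.1.2, hx.2.2⟩, hx.1.1, hx.2.1⟩,
      fun hx => ⟨⟨hx.2.1, hx.1.1⟩, hx.2.2, hx.1.2⟩⟩
  rw [eA0, f1, inf_comm S] at hQ0
  rw [eA1, f2, inf_comm S] at hQ1
  refine ⟨imc (w ∘L pr) (Q0 ⊓ Q1), ?_, ?_⟩
  · have hl : LocOp k (fun x => ((d4 x).1, β (d4 x).2)) d (w ∘L pr) := by
      refine LocOp.comp (lab' := fun x => ((dl x).1, β (dl x).2)) (LocOp.crd _ _ ?_)
        (LocOp.crd _ _ (fun _ _ => rfl))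
      intro i _
      exact Prod.ext rfl (hsec _)
    exact Rat.imc hl rX
  · linarith

end Prod

end Pool.Agent.HI
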